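import Pool.Agent.H13.DA.Defs

/-!
# [H13 DA ALG] gluing of good colourings

* `good_cross`: `V = S ∪ Sᶜ`, crossing edges `x ∈ S`, `y ∉ S` satisfy `ell g (c x + c y) = o x y + k`:
  all crossing arcs with the same colour sum go the same way, so a closed walk stays on one side.
* `good_cut`: two good graphs that share only the vertex `w`.
-/

set_option autoImplicit false

namespace Pool.Agent.H13.DA

open Relation

variable {V : Type*}

theorem ell_add (t : Fin 3) (x y : C4) : ell t (x + y) = ell t x + ell t y := by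
  revert t x y; decide

theorem ell_solve : ∀ (a b : Fin 3), a ≠ b → ∀ p q : ZMod 2, ∃ τ : C4, ell a τ = p ∧ ell b τ = q := by
  decide

theorem c4_self (x : C4) : x + x = 0 := by
  revert x; decide

theorem z2_self (x : ZMod 2) : x + x = 0 := by
  revert x; decide

theorem tgm {r p : V → V → Prop} {a b : V} (h : TransGen r a b) (hrp : ∀ x y, r x y → p x y) :
    TransGen p a b := by
  induction h with
  | single hr => exact TransGen.single (hrp _ _ hr)
  | tail _ hr ih => exact ih.tail (hrp _ _ hr)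

theorem good_mono {E E' : V → V → Prop} {o : V → V → ZMod 2} {c : V → C4}
    (h : ∀ x y, E x y → E' x y) (hg : Good E' o c) : Good E o c := by
  intro δ u hu
  exact hg δ u (tgm hu fun x y hxy => ⟨h _ _ hxy.1, hxy.2⟩)

theorem good_shift {E : V → V → Prop} {o : V → V → ZMod 2} {c c' : V → C4} (τ : C4)
    (h : ∀ x y, E x y → c' x = c x + τ ∧ c' y = c y + τ) (hg : Good E o c) : Good E o c' := by
  intro δ u hu
  refine hg δ u (tgm hu fun x y hxy => ⟨hxy.1, hxy.2.1, ?_⟩)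
  obtain ⟨h1, h2⟩ := h _ _ hxy.1
  rw [← hxy.2.2, h1, h2]
  have := c4_self τ
  calc c x + c y = c x + c y + (τ + τ) := by rw [this, add_zero]
    _ = _ := by abel

/-- if no arc enters `S`, a closed walk stays on one side -/
theorem loop_side {r : V → V → Prop} {S : Set V} (h : ∀ x y, r x y → x ∉ S → y ∉ S) {u v : V}
    (hu : TransGen r u v) : (u ∉ S → v ∉ S ∧ TransGen (fun x y => r x y ∧ x ∉ S ∧ y ∉ S) u v) ∧
      (v ∈ S → u ∈ S ∧ TransGen (fun x y => r x y ∧ x ∈ S ∧ y ∈ S) u v) := by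
  induction hu with
  | single hr =>
    refine ⟨fun h1 => ⟨h _ _ hr h1, TransGen.single ⟨hr, h1, h _ _ hr h1⟩⟩, fun h1 => ?_⟩
    have h2 := by_contra fun h2 => h _ _ hr h2 h1
    exact ⟨h2, TransGen.single ⟨hr, h2, h1⟩⟩
  | tail _ hr ih =>
    refine ⟨fun h1 => ?_, fun h1 => ?_⟩
    · obtain ⟨h2, h3⟩ := ih.1 h1
      exact ⟨h _ _ hr h2, h3.tail ⟨hr, h2, h _ _ hr h2⟩⟩
    · have h2 := by_contra fun h2 => h _ _ hr h2 h1
      obtain ⟨h3, h4⟩ := ih.2 h2
      exact ⟨h3, h4.tail ⟨hr, h2, h1⟩⟩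

theorem good_cross {E : V → V → Prop} {o : V → V → ZMod 2} {c : V → C4} (S : Set V) (g : Fin 3)
    (k : ZMod 2) (ho : Ori o) (hs : ∀ x y, E x y → E y x)
    (hc : ∀ x y, E x y → x ∈ S → y ∉ S → ell g (c x + c y) = o x y + k)
    (h1 : Good (fun x y => E x y ∧ x ∈ S ∧ y ∈ S) o c)
    (h2 : Good (fun x y => E x y ∧ x ∉ S ∧ y ∉ S) o c) : Good E o c := by
  intro δ u hu
  -- arcs leaving `S` have `ell g δ = 1 + k`, arcs entering `S` have `ell g δ = k`
  by_cases hδ : ell g δ = k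
  · -- no arc leaves `S`
    have hout : ∀ x y, (E x y ∧ o x y = 1 ∧ c x + c y = δ) → x ∉ Sᶜ → y ∉ Sᶜ := by
      rintro x y ⟨hE, ho1, hδ'⟩ hx hy
      have hx' : x ∈ S := by simpa using hx
      have h3 := hc x y hE hx' hy
      rw [hδ', hδ, ho1] at h3
      have h4 : ∀ k : ZMod 2, 1 + k ≠ k := by decide
      exact h4 k h3.symm
    have h3 := loop_side (S := Sᶜ) hout hu
    by_cases hu' : u ∈ S
    · obtain ⟨_, h4⟩ := h3.1 (by simpa using hu')
      refine h1 δ u (tgm h4 ?_)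
      rintro x y ⟨⟨a, b, d⟩, e, f⟩
      exact ⟨⟨a, by simpa using e, by simpa using f⟩, b, d⟩
    · obtain ⟨_, h4⟩ := h3.2 (by simpa using hu')
      refine h2 δ u (tgm h4 ?_)
      rintro x y ⟨⟨a, b, d⟩, e, f⟩
      exact ⟨⟨a, e, f⟩, b, d⟩
  · have hin : ∀ x y, (E x y ∧ o x y = 1 ∧ c x + c y = δ) → x ∉ S → y ∉ S := by
      rintro x y ⟨hE, ho1, hδ'⟩ hx hy
      have h3 := hc y x (hs _ _ hE) hy hx
      have hne : x ≠ y := by rintro rfl; exact hx hy
      have h4 := ho x y hne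
      rw [ho1] at h4
      have h5 : o y x = 0 := by
        revert h4; generalize o y x = z; revert z; decide
      rw [add_comm (c y), hδ', h5, zero_add] at h3
      exact hδ h3
    have h3 := loop_side hin hu
    by_cases hu' : u ∈ S
    · obtain ⟨_, h4⟩ := h3.2 hu'
      refine h1 δ u (tgm h4 ?_)
      rintro x y ⟨⟨a, b, d⟩, e, f⟩
      exact ⟨⟨a, e, f⟩, b, d⟩
    · obtain ⟨_, h4⟩ := h3.1 hu'
      refine h2 δ u (tgm h4 ?_)
      rintro x y ⟨⟨a, b, d⟩, e, f⟩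
      exact ⟨⟨a, e, f⟩, b, d⟩

theorem cut_aux {r1 r2 : V → V → Prop} {S1 S2 : Set V} {w : V}
    (hw : ∀ x, x ∈ S1 → x ∈ S2 → x = w) (h1 : ∀ x y, r1 x y → x ∈ S1 ∧ y ∈ S1)
    (h2 : ∀ x y, r2 x y → x ∈ S2 ∧ y ∈ S2) (g2 : ¬ TransGen r2 w w) {x y : V} (hx : x ∈ S1)
    (h : TransGen (fun a b => r1 a b ∨ r2 a b) x y) :
    (TransGen r1 x y ∧ y ∈ S1) ∨ (TransGen r2 w y ∧ y ∈ S2) := by
  induction h with
  | single hr =>
    rcases hr with hr | hr
    · exact Or.inl ⟨TransGen.single hr, (h1 _ _ hr).2⟩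
    · have := hw _ hx (h2 _ _ hr).1
      subst this
      exact Or.inr ⟨TransGen.single hr, (h2 _ _ hr).2⟩
  | tail _ hr ih =>
    rcases ih with ⟨ih, iy⟩ | ⟨ih, iy⟩
    · rcases hr with hr | hr
      · exact Or.inl ⟨ih.tail hr, (h1 _ _ hr).2⟩
      · have := hw _ iy (h2 _ _ hr).1
        subst this
        exact Or.inr ⟨TransGen.single hr, (h2 _ _ hr).2⟩
    · rcases hr with hr | hr
      · have := hw _ (h1 _ _ hr).1 iy
        subst this
        exact absurd ih g2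
      · exact Or.inr ⟨ih.tail hr, (h2 _ _ hr).2⟩

theorem cut_loop {r1 r2 : V → V → Prop} {S1 S2 : Set V} {w : V}
    (hw : ∀ x, x ∈ S1 → x ∈ S2 → x = w) (h1 : ∀ x y, r1 x y → x ∈ S1 ∧ y ∈ S1)
    (h2 : ∀ x y, r2 x y → x ∈ S2 ∧ y ∈ S2) (g1 : ∀ x, ¬ TransGen r1 x x)
    (g2 : ∀ x, ¬ TransGen r2 x x) (x : V) :
    ¬ TransGen (fun a b => r1 a b ∨ r2 a b) x x := by
  intro h
  have hx : x ∈ S1 ∨ x ∈ S2 := by
    rcases TransGen.head'_iff.1 h with ⟨y, hr | hr, _⟩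
    · exact Or.inl (h1 _ _ hr).1
    · exact Or.inr (h2 _ _ hr).1
  rcases hx with hx | hx
  · rcases cut_aux hw h1 h2 (g2 w) hx h with ⟨h3, _⟩ | ⟨h3, h4⟩
    · exact g1 x h3
    · have := hw x hx h4
      subst this
      exact g2 _ h3
  · rcases cut_aux (S1 := S2) (S2 := S1) (r1 := r2) (r2 := r1) (w := w)
      (fun y a b => hw y b a) h2 h1 (g1 w) hx (tgm h fun a b hab => hab.symm) with
      ⟨h3, _⟩ | ⟨h3, h4⟩
    · exact g2 x h3
    · have := hw x h4 hx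
      subst this
      exact g1 _ h3

theorem good_cut {E1 E2 : V → V → Prop} {o : V → V → ZMod 2} {c : V → C4} {S1 S2 : Set V} {w : V}
    (hw : ∀ x, x ∈ S1 → x ∈ S2 → x = w) (h1 : ∀ x y, E1 x y → x ∈ S1 ∧ y ∈ S1)
    (h2 : ∀ x y, E2 x y → x ∈ S2 ∧ y ∈ S2) (g1 : Good E1 o c) (g2 : Good E2 o c) :
    Good (fun x y => E1 x y ∨ E2 x y) o c := by
  intro δ u hu
  refine cut_loop hw (r1 := fun x y => E1 x y ∧ o x y = 1 ∧ c x + c y = δ)
    (r2 := fun x y => E2 x y ∧ o x y = 1 ∧ c x + c y = δ) (fun x y h => h1 x y h.1)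
    (fun x y h => h2 x y h.1) (g1 δ) (g2 δ) u (tgm hu ?_)
  rintro x y ⟨h | h, h'⟩
  · exact Or.inl ⟨h, h'⟩
  · exact Or.inr ⟨h, h'⟩

end Pool.Agent.H13.DA
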