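import Pool.Agent.H13.DA.Defs

/-!
# [H13 DA LST] cyclic lists

`Nx l a b`: `a` is immediately followed by `b` in `l`; `Cyc l a b`: the same in the cyclic list.

* `nx_append`: `Nx (u ++ x :: v) a b ↔ Nx (u ++ [x]) a b ∨ Nx (x :: v) a b` (induction on `u`).
* `cyc_rot`: `Cyc` is invariant under rotations (enough: one rotation `x :: l → l ++ [x]`;
  `List.IsRotated`, `List.rotate_cons_succ`; induction on the number of rotations).
* `cyc_split`: if `Cyc l a b` and `2 ≤ l.length` then `l ~r b :: (m ++ [a])` for some `m`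
  (`l = u ++ a :: b :: v` gives `m = v ++ u`; `l = b :: (u ++ [a])` gives `m = u`).
* `cyc_last`: `Cyc (i :: (m ++ [j])) j i`.
* `cyc_mem`: `Cyc l a b → a ∈ l ∧ b ∈ l`; `mem_cyc`: every element of `l` has a successor and a
  predecessor.
* `cyc_unique`: in a nodup list successors are unique and predecessors are unique.
* `rot_unique`: two nodup lists with the same cyclic successor relation are rotations of each other.
  (Rotate so that both start with the same `x`; then compare element by element; or with
  `List.formPerm`: `List.formPerm_eq_formPerm_iff`.)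
* `head_unique`: `x :: l ~r x :: l'` and nodup give `l = l'`.
* `cyc_cons2`, `cyc_ins`, `cyc_del`, `cyc_cat`: how `Cyc` changes when a list is modified.
-/

set_option autoImplicit false

namespace Pool.Agent.H13.DA

variable {V : Type*}

theorem nx_append (u v : List V) (x a b : V) :
    Nx (u ++ x :: v) a b ↔ Nx (u ++ [x]) a b ∨ Nx (x :: v) a b := by
  induction u with
  | nil => simp [Nx]
  | cons y u ih =>
    cases u with
    | nil =>
      simp only [List.cons_append, List.nil_append, Nx, or_false]
    | cons z u =>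
      simp only [List.cons_append] at ih ⊢
      change ((a = y ∧ b = z) ∨ Nx (z :: (u ++ x :: v)) a b) ↔
        ((a = y ∧ b = z) ∨ Nx (z :: (u ++ [x])) a b) ∨ Nx (x :: v) a b
      rw [ih, or_assoc]

theorem nx_split {l : List V} {a b : V} (h : Nx l a b) : ∃ u v, l = u ++ a :: b :: v := by
  induction l with
  | nil => exact h.elim
  | cons x l ih =>
    cases l with
    | nil => exact h.elim
    | cons y l =>
      rcases h with ⟨rfl, rfl⟩ | h
      · exact ⟨[], l, rfl⟩
      · obtain ⟨u, v, hu⟩ := ih h
        exact ⟨x :: u, v, by rw [hu]; rfl⟩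

theorem nx_init {l : List V} {z a b : V} (h : Nx (l ++ [z]) a b) : a ∈ l := by
  obtain ⟨u, v, hu⟩ := nx_split h
  rcases List.eq_nil_or_concat v with rfl | ⟨v', y, rfl⟩
  · have e : l ++ [z] = (u ++ [a]) ++ [b] := by rw [hu]; simp
    have := List.append_inj_left' e rfl
    rw [this]; simp
  · have e : l ++ [z] = (u ++ a :: b :: v') ++ [y] := by rw [hu]; simp
    have := List.append_inj_left' e rfl
    rw [this]; simp

theorem nx_tail {l : List V} {z a b : V} (h : Nx (z :: l) a b) : b ∈ l := by
  obtain ⟨u, v, hu⟩ := nx_split h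
  cases u with
  | nil =>
    simp only [List.nil_append, List.cons.injEq] at hu
    rw [hu.2]; simp
  | cons y u =>
    simp only [List.cons_append, List.cons.injEq] at hu
    rw [hu.2]; simp

theorem nx_one (x a b : V) : ¬ Nx [x] a b := fun h => h

theorem nx_two (x y a b : V) : Nx [x, y] a b ↔ (a = x ∧ b = y) := by
  simp [Nx]

/-- `Cyc` of a list with at least two elements, last one displayed -/
theorem cyc_form (i j : V) (m : List V) (a b : V) :
    Cyc (i :: (m ++ [j])) a b ↔ Nx ((i :: m) ++ [j]) a b ∨ (a = j ∧ b = i) := by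
  change Nx (i :: ((m ++ [j]) ++ [i])) a b ↔ _
  have e : i :: ((m ++ [j]) ++ [i]) = (i :: m) ++ j :: [i] := by simp
  rw [e, nx_append, nx_two]

theorem cyc_rot1 (l : List V) (a b : V) : Cyc (l.rotate 1) a b ↔ Cyc l a b := by
  cases l with
  | nil => simp
  | cons x t =>
    rw [List.rotate_cons_succ, List.rotate_zero]
    cases t with
    | nil => simp
    | cons y t =>
      rw [List.cons_append, cyc_form]
      change _ ↔ Nx (x :: (y :: t ++ [x])) a b
      rw [List.cons_append]
      change _ ↔ (a = x ∧ b = y) ∨ Nx (y :: (t ++ [x])) a b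
      exact or_comm

theorem cyc_rot {l l' : List V} (h : l ~r l') (a b : V) : Cyc l a b ↔ Cyc l' a b := by
  obtain ⟨n, rfl⟩ := h
  induction n with
  | zero => simp
  | succ n ih =>
    rw [ih, ← List.rotate_rotate, cyc_rot1]

theorem cyc_split {l : List V} {a b : V} (h : Cyc l a b) (h2 : 2 ≤ l.length) :
    ∃ m, l ~r b :: (m ++ [a]) := by
  cases l with
  | nil => simp at h2
  | cons x t =>
    obtain ⟨u, v, hu⟩ := nx_split (show Nx (x :: (t ++ [x])) a b from h)
    rcases List.eq_nil_or_concat v with rfl | ⟨v', y, rfl⟩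
    · have e : (x :: t) ++ [x] = (u ++ [a]) ++ [b] := by
        rw [List.cons_append, hu]; simp
      have e1 := List.append_inj_left' e rfl
      have e2 : x = b := by
        have := List.append_inj_right' e rfl
        simpa using this
      subst e2
      cases u with
      | nil =>
        rw [e1] at h2
        simp at h2
      | cons z u =>
        simp only [List.cons_append, List.cons.injEq] at e1
        exact ⟨u, by rw [e1.2]⟩
    · have e : (x :: t) ++ [x] = (u ++ a :: b :: v') ++ [y] := by
        rw [List.cons_append, hu]; simp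
      have e1 := List.append_inj_left' e rfl
      refine ⟨v' ++ u, ?_⟩
      have e2 : u ++ a :: b :: v' = (u ++ [a]) ++ (b :: v') := by simp
      have e3 : b :: ((v' ++ u) ++ [a]) = (b :: v') ++ (u ++ [a]) := by simp
      rw [e1, e2, e3]
      exact List.isRotated_append

theorem cyc_last (i j : V) (m : List V) : Cyc (i :: (m ++ [j])) j i := by
  rw [cyc_form]
  exact Or.inr ⟨rfl, rfl⟩

theorem cyc_mem {l : List V} {a b : V} (h : Cyc l a b) : a ∈ l ∧ b ∈ l := by
  cases l with
  | nil => exact h.elim
  | cons x t =>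
    have h' : Nx (x :: (t ++ [x])) a b := h
    have h1 : b ∈ t ++ [x] := nx_tail h'
    have h2 : a ∈ x :: t := nx_init (z := x) (by rw [List.cons_append]; exact h')
    refine ⟨h2, ?_⟩
    rcases List.mem_append.1 h1 with h3 | h3
    · exact List.mem_cons_of_mem _ h3
    · simp only [List.mem_singleton] at h3
      rw [h3]; simp

theorem rot_head {l : List V} {a : V} (h : a ∈ l) : ∃ m, l ~r a :: m := by
  obtain ⟨u, v, rfl⟩ := List.append_of_mem h
  refine ⟨v ++ u, ?_⟩
  have e : a :: (v ++ u) = (a :: v) ++ u := by simp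
  rw [e]
  exact List.isRotated_append

theorem mem_cyc {l : List V} {a : V} (h : a ∈ l) : (∃ b, Cyc l a b) ∧ ∃ b, Cyc l b a := by
  obtain ⟨m, hm⟩ := rot_head h
  constructor
  · cases m with
    | nil => exact ⟨a, (cyc_rot hm _ _).2 (Or.inl ⟨rfl, rfl⟩)⟩
    | cons y m => exact ⟨y, (cyc_rot hm _ _).2 (Or.inl ⟨rfl, rfl⟩)⟩
  · rcases List.eq_nil_or_concat m with rfl | ⟨m', y, rfl⟩
    · exact ⟨a, (cyc_rot hm _ _).2 (Or.inl ⟨rfl, rfl⟩)⟩
    · exact ⟨y, (cyc_rot hm _ _).2 (by simpa using cyc_last a y m')⟩

theorem cyc_unique {l : List V} (hl : l.Nodup) {a b b' : V} (h : Cyc l a b) (h' : Cyc l a b') :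
    b = b' := by
  obtain ⟨m, hm⟩ := rot_head (cyc_mem h).1
  have hn : (a :: m).Nodup := hm.nodup_iff.1 hl
  have key : ∀ c, Cyc (a :: m) a c → some c = (m ++ [a]).head? := by
    intro c hc
    cases m with
    | nil =>
      rcases hc with ⟨_, rfl⟩ | hc
      · rfl
      · exact hc.elim
    | cons y m =>
      rcases hc with ⟨_, rfl⟩ | hc
      · rfl
      · exfalso
        have h1 : a ∈ y :: m := nx_init (z := a) (by rw [List.cons_append]; exact hc)
        exact (List.nodup_cons.1 hn).1 h1
  have h1 := key b ((cyc_rot hm _ _).1 h)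
  have h2 := key b' ((cyc_rot hm _ _).1 h')
  exact Option.some.inj (h1.trans h2.symm)

theorem cyc_unique' {l : List V} (hl : l.Nodup) {a b b' : V} (h : Cyc l b a) (h' : Cyc l b' a) :
    b = b' := by
  obtain ⟨m, hm⟩ := rot_head (cyc_mem h).2
  have hn : (a :: m).Nodup := hm.nodup_iff.1 hl
  have key : ∀ c, Cyc (a :: m) c a → some c = (a :: m).getLast? := by
    intro c hc
    rcases List.eq_nil_or_concat m with rfl | ⟨m', y, rfl⟩
    · rcases hc with ⟨rfl, _⟩ | hc
      · rfl
      · exact hc.elim
    · have hc' : Cyc (a :: (m' ++ [y])) c a := by simpa using hc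
      rw [cyc_form] at hc'
      rcases hc' with hc' | ⟨rfl, _⟩
      · exfalso
        rw [List.cons_append] at hc'
        have h1 := nx_tail hc'
        apply (List.nodup_cons.1 hn).1
        simpa using h1
      · have e : a :: m'.concat c = (a :: m') ++ [c] := by simp
        rw [e, List.getLast?_concat]
  have h1 := key b ((cyc_rot hm _ _).1 h)
  have h2 := key b' ((cyc_rot hm _ _).1 h')
  exact Option.some.inj (h1.trans h2.symm)

theorem head_unique {x : V} {l l' : List V} (h : (x :: l) ~r (x :: l')) (hl : (x :: l).Nodup) :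
    l = l' := by
  obtain ⟨n, hn, hn'⟩ := List.isRotated_iff_mod.1 h
  rw [List.rotate_eq_drop_append_take hn] at hn'
  rcases Nat.eq_zero_or_pos n with rfl | hpos
  · simpa using hn'
  · rcases Nat.lt_or_ge n (x :: l).length with hlt | hge
    · exfalso
      have h1 : x ∈ (x :: l).take n := by
        obtain ⟨k, rfl⟩ : ∃ k, n = k + 1 := ⟨n - 1, by omega⟩
        simp
      have h2 : x ∈ (x :: l).drop n := by
        have h3 : (x :: l).drop n ≠ [] := by
          intro h4
          have := congrArg List.length h4
          rw [List.length_drop] at this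
          simp only [List.length_nil] at this
          omega
        obtain ⟨y, t, hy⟩ := List.exists_cons_of_ne_nil h3
        rw [hy] at hn' ⊢
        simp only [List.cons_append, List.cons.injEq] at hn'
        rw [hn'.1]; simp
      have h3 : ((x :: l).take n ++ (x :: l).drop n).Nodup := by
        rw [List.take_append_drop]; exact hl
      exact (List.nodup_append.1 h3).2.2 x h1 x h2 rfl
    · have e : n = (x :: l).length := le_antisymm hn hge
      rw [e] at hn'
      simp only [List.drop_length, List.take_length, List.nil_append, List.cons.injEq,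
        true_and] at hn'
      exact hn'

theorem rot_unique {l l' : List V} (hl : l.Nodup) (hl' : l'.Nodup)
    (h : ∀ a b, Cyc l a b ↔ Cyc l' a b) : l ~r l' := by
  cases l with
  | nil =>
    cases l' with
    | nil => exact List.IsRotated.refl _
    | cons y t =>
      obtain ⟨b, hb⟩ := (mem_cyc (l := y :: t) (a := y) (by simp)).1
      exact ((h y b).2 hb).elim
  | cons x t =>
    obtain ⟨b, hb⟩ := (mem_cyc (l := x :: t) (a := x) (by simp)).1
    have hx : x ∈ l' := (cyc_mem ((h x b).1 hb)).1
    obtain ⟨t', ht'⟩ := rot_head hx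
    have hn' : (x :: t').Nodup := ht'.nodup_iff.1 hl'
    have hc : ∀ a b, Cyc (x :: t) a b ↔ Cyc (x :: t') a b := by
      intro a b
      rw [h, cyc_rot ht']
    -- last element of the common prefix `p ++ [z]`
    have key : ∀ (s p s' : List V) (z : V), x :: t = (p ++ [z]) ++ s → x :: t' = (p ++ [z]) ++ s' →
        s = s' := by
      intro s
      -- the successor of `z`
      have succ1 : ∀ (w : List V) (p : List V) (z y : V) (s : List V),
          (p ++ [z]) ++ (y :: s) = w → w ≠ [] → Cyc w z y := by
        intro w p z y s hw _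
        have hsp : (p ++ [z]) ++ (y :: s) = p ++ z :: (y :: s) := by simp
        rw [hsp] at hw
        cases p with
        | nil =>
          simp only [List.nil_append] at hw
          subst hw
          exact Or.inl ⟨rfl, rfl⟩
        | cons q p =>
          subst hw
          change Nx (q :: ((p ++ z :: y :: s) ++ [q])) z y
          have e : q :: ((p ++ z :: y :: s) ++ [q]) = (q :: p) ++ z :: (y :: (s ++ [q])) := by simp
          rw [e, nx_append]
          exact Or.inr (Or.inl ⟨rfl, rfl⟩)
      have succ2 : ∀ (t : List V) (p : List V) (z : V), (p ++ [z]) ++ [] = x :: t →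
          Cyc (x :: t) z x := by
        intro t p z hp
        rw [List.append_nil] at hp
        cases p with
        | nil =>
          simp only [List.nil_append, List.cons.injEq] at hp
          obtain ⟨rfl, rfl⟩ := hp
          exact Or.inl ⟨rfl, rfl⟩
        | cons q p =>
          simp only [List.cons_append, List.cons.injEq] at hp
          obtain ⟨rfl, rfl⟩ := hp
          exact cyc_last _ _ _
      have hxp : ∀ (p : List V) (z : V) (s t : List V), x :: t = (p ++ [z]) ++ s → x ∈ p ++ [z] := by
        intro p z s t hp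
        cases p with
        | nil =>
          simp only [List.nil_append, List.cons_append, List.cons.injEq] at hp
          rw [hp.1]; simp
        | cons q p =>
          simp only [List.cons_append, List.cons.injEq] at hp
          rw [hp.1]; simp
      induction s with
      | nil =>
        intro p s' z h1 h2
        cases s' with
        | nil => rfl
        | cons y s' =>
          exfalso
          have h3 := succ2 t p z h1.symm
          have h4 := succ1 _ p z y s' h2.symm (by simp)
          have h5 := cyc_unique hl h3 ((hc _ _).2 h4)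
          subst h5
          have h6 := hxp p z _ _ h2
          rw [h2] at hn'
          exact (List.nodup_append.1 hn').2.2 x h6 x (by simp) rfl
      | cons y s ih =>
        intro p s' z h1 h2
        have h3 := succ1 _ p z y s h1.symm (by simp)
        cases s' with
        | nil =>
          exfalso
          have h4 := succ2 t' p z h2.symm
          have h5 := cyc_unique hl h3 ((hc _ _).2 h4)
          subst h5
          have h6 := hxp p z _ _ h1
          rw [h1] at hl
          exact (List.nodup_append.1 hl).2.2 y h6 y (by simp) rfl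
        | cons y' s' =>
          have h4 := succ1 _ p z y' s' h2.symm (by simp)
          have h5 := cyc_unique hl h3 ((hc _ _).2 h4)
          subst h5
          have h6 := ih (p ++ [z]) s' y (by rw [h1]; simp) (by rw [h2]; simp)
          rw [h6]
    have h7 : t = t' := key t [] t' x (by simp) (by simp)
    rw [h7]
    exact ht'.symm

/-- removal of `w` from `i :: (m ++ [j, w])` -/
theorem cyc_del {i j w : V} {m : List V} (hl : (i :: (m ++ [j, w])).Nodup) (a b : V) :
    Cyc (i :: (m ++ [j])) a b ↔ (a = j ∧ b = i) ∨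
      (Cyc (i :: (m ++ [j, w])) a b ∧ ¬ (a = j ∧ b = w) ∧ ¬ (a = w ∧ b = i)) := by
  have e : i :: (m ++ [j, w]) = i :: ((m ++ [j]) ++ [w]) := by simp
  have e2 : (i :: (m ++ [j])) ++ [w] = (i :: m) ++ j :: [w] := by simp
  rw [e, cyc_form i w (m ++ [j]), cyc_form i j m, e2, nx_append (i :: m) [w] j, nx_two]
  have hn : Nx ((i :: m) ++ [j]) a b → ¬ (a = j ∧ b = w) ∧ ¬ (a = w ∧ b = i) := by
    intro h
    have h1 := nx_init h
    have e3 : i :: (m ++ [j, w]) = (i :: m) ++ [j, w] := by simp
    rw [e3] at hl
    have h2 := (List.nodup_append.1 hl).2.2 a h1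
    exact ⟨fun h3 => h2 j (by simp) h3.1, fun h3 => h2 w (by simp) h3.1⟩
  tauto

/-- the new last element `j` after `w` -/
theorem cyc_add {i j w : V} {m : List V} (hl : (i :: (m ++ [w])).Nodup)
    (_hj : j ∉ i :: (m ++ [w])) (a b : V) :
    Cyc (i :: (m ++ [w, j])) a b ↔ (a = w ∧ b = j) ∨ (a = j ∧ b = i) ∨
      (Cyc (i :: (m ++ [w])) a b ∧ ¬ (a = w ∧ b = i)) := by
  have e : i :: (m ++ [w, j]) = i :: ((m ++ [w]) ++ [j]) := by simp
  have e2 : (i :: (m ++ [w])) ++ [j] = (i :: m) ++ w :: [j] := by simp
  rw [e, cyc_form i j (m ++ [w]), cyc_form i w m, e2, nx_append (i :: m) [j] w, nx_two]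
  have hn : Nx ((i :: m) ++ [w]) a b → ¬ (a = w ∧ b = i) := by
    intro h
    have h1 := nx_init h
    have e3 : i :: (m ++ [w]) = (i :: m) ++ [w] := by simp
    rw [e3] at hl
    have h2 := (List.nodup_append.1 hl).2.2 a h1
    exact fun h3 => h2 w (by simp) h3.1
  tauto

/-- the new first element `i` before `w` -/
theorem cyc_add' {i j w : V} {m : List V} (hl : (w :: (m ++ [j])).Nodup)
    (_hi : i ∉ w :: (m ++ [j])) (a b : V) :
    Cyc (i :: w :: (m ++ [j])) a b ↔ (a = i ∧ b = w) ∨ (a = j ∧ b = i) ∨
      (Cyc (w :: (m ++ [j])) a b ∧ ¬ (a = j ∧ b = w)) := by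
  have e : i :: w :: (m ++ [j]) = i :: ((w :: m) ++ [j]) := by simp
  have e2 : (i :: (w :: m)) ++ [j] = [i] ++ w :: (m ++ [j]) := by simp
  have e3 : w :: (m ++ [j]) = (w :: m) ++ [j] := by simp
  rw [e, cyc_form, e2, nx_append]
  have e4 : [i] ++ [w] = [i, w] := rfl
  rw [e4, nx_two, cyc_form, e3]
  have hn : Nx ((w :: m) ++ [j]) a b → ¬ (a = j ∧ b = w) := by
    intro h
    have h1 := nx_init h
    rw [e3] at hl
    have h2 := (List.nodup_append.1 hl).2.2 a h1
    exact fun h3 => h2 j (by simp) h3.1
  tauto

/-- gluing of two cycles at `w` -/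
theorem cyc_cat {i j w : V} {m1 m2 : List V} (h1 : (i :: (m1 ++ [w])).Nodup)
    (h2 : (w :: (m2 ++ [j])).Nodup) (_hd : ∀ x, x ∈ i :: (m1 ++ [w]) → x ∈ w :: (m2 ++ [j]) → x = w)
    (a b : V) :
    Cyc (i :: (m1 ++ w :: (m2 ++ [j]))) a b ↔ (a = j ∧ b = i) ∨
      (Cyc (i :: (m1 ++ [w])) a b ∧ ¬ (a = w ∧ b = i)) ∨
      (Cyc (w :: (m2 ++ [j])) a b ∧ ¬ (a = j ∧ b = w)) := by
  have e : i :: (m1 ++ w :: (m2 ++ [j])) = i :: ((m1 ++ w :: m2) ++ [j]) := by simp
  have e2 : (i :: (m1 ++ w :: m2)) ++ [j] = (i :: m1) ++ w :: (m2 ++ [j]) := by simp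
  have e3 : w :: (m2 ++ [j]) = (w :: m2) ++ [j] := by simp
  rw [e, cyc_form, e2, nx_append, cyc_form, cyc_form, e3]
  have hn1 : Nx ((i :: m1) ++ [w]) a b → ¬ (a = w ∧ b = i) := by
    intro h
    have k1 := nx_init h
    have e4 : i :: (m1 ++ [w]) = (i :: m1) ++ [w] := by simp
    rw [e4] at h1
    have k2 := (List.nodup_append.1 h1).2.2 a k1
    exact fun h3 => k2 w (by simp) h3.1
  have hn2 : Nx ((w :: m2) ++ [j]) a b → ¬ (a = j ∧ b = w) := by
    intro h
    have k1 := nx_init h
    rw [e3] at h2
    have k2 := (List.nodup_append.1 h2).2.2 a k1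
    exact fun h3 => k2 j (by simp) h3.1
  tauto

end Pool.Agent.H13.DA
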