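import Pool.Agent.H13.DA.Cases
import Pool.Agent.H13.DA.Lst

/-!
# [H13 DA BDL] the boundary of a disc is a cycle

Notation: `(j,i,w) ∈ T`, `(i,j,x) ∉ T`, `T' = T \ tri j i w`.

`Bd T` in terms of the pieces. Directed edges of `T` = those of `T'` and `ji`, `iw`, `wj`
(`mem_tri`, `IsCx.uniq`), so in the cases of `disc_cases`:
 (A) `T = tri j i w`: `Bd T a b ↔ (a,b) ∈ {ji, iw, wj}`, list `[i, w, j]`;
 (B1) list of `T'` is `i :: (m ++ [w])`: list of `T` is `i :: (m ++ [w, j])` (`cyc_add`):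
      `Bd T = Bd T' - wi + wj + ji`; the list is nodup because `j ∉ verts T'` and all elements of
      the boundary list of `T'` are vertices of `T'` (`mem_cyc`, `Bd`);
 (B2) list of `T'` is `w :: (m ++ [j])`: list of `T` is `i :: w :: (m ++ [j])` (`cyc_add'`);
 (C) list of `T'` is `i :: (m ++ [j, w])`: list of `T` is `i :: (m ++ [j])` (`cyc_del`); length `≥ 3`:
      `m = []` would give `Bd T' i j`, but `(i,j,x) ∉ T`;
 (D) lists `i :: (m1 ++ [w])` of `X` and `w :: (m2 ++ [j])` of `Y`: list of `T` is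
      `i :: (m1 ++ w :: (m2 ++ [j]))` (`cyc_cat`); `Bd (X ∪ Y) = Bd X ∪ Bd Y` because `X`, `Y` share no
      edge (an edge has two ends, and they share only the vertex `w`).

`disc_list`: strong induction on `T.card`; pick a boundary edge `j → i`, apply `disc_cases`; the
lists of the pieces exist by induction and can be rotated into the required form: (B1) `Bd T' w i`,
so `Cyc l w i` and `cyc_split` gives `l ~r i :: (m ++ [w])`; (C) `Cyc l w i` gives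
`l ~r i :: (m' ++ [w])`, and `Cyc l j w` says that the predecessor of `w` is `j`, so `m' = m ++ [j]`
(`m' ≠ []` since otherwise the predecessor of `w` would be `i ≠ j`).
-/

set_option autoImplicit false

namespace Pool.Agent.H13.DA

open Relation

variable {V : Type*} [DecidableEq V] {T : Finset (V × V × V)}

omit [DecidableEq V] in
theorem IsBd.rot {l l' : List V} (h : IsBd T l) (hr : l ~r l') : IsBd T l' where
  nodup := hr.nodup_iff.1 h.nodup
  len := by rw [← hr.perm.length_eq]; exact h.len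
  iff := fun a b => (h.iff a b).trans (cyc_rot hr a b)

omit [DecidableEq V] in
theorem IsBd.unique {l l' : List V} (h : IsBd T l) (h' : IsBd T l') : l ~r l' :=
  rot_unique h.nodup h'.nodup fun a b => (h.iff a b).symm.trans (h'.iff a b)

omit [DecidableEq V] in
theorem IsBd.verts (_hT : IsCx T) {l : List V} (h : IsBd T l) {x : V} (hx : x ∈ l) :
    x ∈ verts T := by
  obtain ⟨b, hb⟩ := (mem_cyc hx).1
  obtain ⟨c, hc⟩ := ((h.iff x b).2 hb).1
  exact vert1 hc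

omit [DecidableEq V] in
/-- rotate a boundary list with the boundary edge `w → i` -/
theorem IsBd.form {l : List V} (h : IsBd T l) {w i : V} (hb : Bd T w i) :
    ∃ m, IsBd T (i :: (m ++ [w])) := by
  obtain ⟨m, hm⟩ := cyc_split ((h.iff w i).1 hb) (by have := h.len; omega)
  exact ⟨m, h.rot hm⟩

omit [DecidableEq V] in
/-- rotate a boundary list with the boundary edges `j → w → i` -/
theorem IsBd.form2 {l : List V} (h : IsBd T l) {w i j : V} (hb : Bd T w i) (hb' : Bd T j w)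
    (_hij : i ≠ j) : ∃ m, IsBd T (i :: (m ++ [j, w])) := by
  obtain ⟨m', hm'⟩ := h.form hb
  rcases List.eq_nil_or_concat m' with rfl | ⟨m, z, rfl⟩
  · have := hm'.len
    simp at this
  · have e : i :: (m.concat z ++ [w]) = i :: ((m ++ [z]) ++ [w]) := by simp
    rw [e] at hm'
    have h1 : Cyc (i :: ((m ++ [z]) ++ [w])) z w := by
      rw [cyc_form]
      left
      have e2 : (i :: (m ++ [z])) ++ [w] = (i :: m) ++ z :: [w] := by simp
      rw [e2, nx_append, nx_two]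
      exact Or.inr ⟨rfl, rfl⟩
    have h2 : Cyc (i :: ((m ++ [z]) ++ [w])) j w := (hm'.iff j w).1 hb'
    have h3 := cyc_unique' hm'.nodup h1 h2
    subst h3
    refine ⟨m, ?_⟩
    have e3 : i :: (m ++ [z, w]) = i :: ((m ++ [z]) ++ [w]) := by simp
    rw [e3]
    exact hm'

/-- the directed edge `ab` occurs in `T` -/
def Dir (T : Finset (V × V × V)) (a b : V) : Prop := ∃ c, (a, b, c) ∈ T

omit [DecidableEq V] in
theorem bd_dir {a b : V} : Bd T a b ↔ Dir T a b ∧ ¬ Dir T b a := by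
  unfold Bd Dir
  rw [not_exists]

theorem dir_iff (hT : IsCx T) {i j w : V} (h : (j, i, w) ∈ T) (a b : V) :
    Dir T a b ↔ Dir (T \ tri j i w) a b ∨ (a = j ∧ b = i) ∨ (a = i ∧ b = w) ∨ (a = w ∧ b = j) := by
  obtain ⟨h1, h2⟩ := rot3 hT h
  constructor
  · rintro ⟨c, hc⟩
    by_cases hm : (a, b, c) ∈ tri j i w
    · rw [mem_tri] at hm
      simp only [Prod.mk.injEq] at hm
      tauto
    · exact Or.inl ⟨c, Finset.mem_sdiff.2 ⟨hc, hm⟩⟩
  · rintro (⟨c, hc⟩ | ⟨rfl, rfl⟩ | ⟨rfl, rfl⟩ | ⟨rfl, rfl⟩)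
    · exact ⟨c, (Finset.mem_sdiff.1 hc).1⟩
    · exact ⟨_, h⟩
    · exact ⟨_, h1⟩
    · exact ⟨_, h2⟩

omit [DecidableEq V] in
theorem dir_ne (hT : IsCx T) {a b : V} (h : Dir T a b) : a ≠ b := by
  obtain ⟨c, hc⟩ := h
  exact hT.ne hc

theorem dir_gone (hT : IsCx T) {i j w : V} (h : (j, i, w) ∈ T) : ¬ Dir (T \ tri j i w) j i :=
  fun ⟨_, hc⟩ => not_mem_sdiff hT h hc

theorem dir_no {i j w a b : V} (hb : ∀ x, (a, b, x) ∉ T) : ¬ Dir (T \ tri j i w) a b :=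
  fun ⟨c, hc⟩ => hb c (Finset.mem_sdiff.1 hc).1

theorem bd_iff (hT : IsCx T) {i j w : V} (h : (j, i, w) ∈ T) (a b : V) :
    Bd T a b ↔ (Dir (T \ tri j i w) a b ∨ (a = j ∧ b = i) ∨ (a = i ∧ b = w) ∨ (a = w ∧ b = j)) ∧
      ¬ (Dir (T \ tri j i w) b a ∨ (b = j ∧ a = i) ∨ (b = i ∧ a = w) ∨ (b = w ∧ a = j)) := by
  rw [bd_dir, dir_iff hT h a b, dir_iff hT h b a]

theorem bdA {i j w : V} (h1 : j ≠ i) (h2 : i ≠ w) (h3 : w ≠ j) : IsBd (tri j i w) [i, w, j] where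
  nodup := by
    simp only [List.nodup_cons, List.mem_cons, List.not_mem_nil, or_false, not_or,
      not_false_eq_true, List.nodup_nil, and_true]
    exact ⟨⟨h2, h1.symm⟩, h3⟩
  len := by simp
  iff := by
    intro a b
    have hd : ∀ a b, Dir (tri j i w) a b ↔ (a = j ∧ b = i) ∨ (a = i ∧ b = w) ∨ (a = w ∧ b = j) := by
      intro a b
      unfold Dir
      simp only [mem_tri, Prod.mk.injEq]
      constructor
      · rintro ⟨c, hc⟩
        tauto
      · rintro (⟨rfl, rfl⟩ | ⟨rfl, rfl⟩ | ⟨rfl, rfl⟩)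
        · exact ⟨_, Or.inl ⟨rfl, rfl, rfl⟩⟩
        · exact ⟨_, Or.inr (Or.inl ⟨rfl, rfl, rfl⟩)⟩
        · exact ⟨_, Or.inr (Or.inr ⟨rfl, rfl, rfl⟩)⟩
    rw [bd_dir, hd, hd]
    have e : Cyc [i, w, j] a b ↔ (a = i ∧ b = w) ∨ (a = w ∧ b = j) ∨ (a = j ∧ b = i) := by
      simp [Cyc, Nx]
    rw [e]
    constructor
    · rintro ⟨h, _⟩
      tauto
    · intro h
      refine ⟨by tauto, ?_⟩
      rcases h with ⟨rfl, rfl⟩ | ⟨rfl, rfl⟩ | ⟨rfl, rfl⟩
      · rintro (⟨h, _⟩ | ⟨h, _⟩ | ⟨_, h⟩)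
        · exact h3 h
        · exact h2 h.symm
        · exact h1 h.symm
      · rintro (⟨_, h⟩ | ⟨h, _⟩ | ⟨h, _⟩)
        · exact h2 h.symm
        · exact h1 h
        · exact h3 h.symm
      · rintro (⟨h, _⟩ | ⟨_, h⟩ | ⟨h, _⟩)
        · exact h1 h.symm
        · exact h3 h.symm
        · exact h2 h

theorem bdB1 (hT : IsCx T) {i j w : V} {m : List V} (h : (j, i, w) ∈ T)
    (hb : ∀ x, (i, j, x) ∉ T) (hb' : ∀ x, (j, w, x) ∉ T) (hj : j ∉ verts (T \ tri j i w))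
    (hl : IsBd (T \ tri j i w) (i :: (m ++ [w]))) : IsBd T (i :: (m ++ [w, j])) := by
  obtain ⟨n1, n2, n3⟩ := cx_ne hT h
  have hT' := sdiff_tri_isCx hT h
  have hjl : j ∉ i :: (m ++ [w]) := fun hj' => hj (hl.verts hT' hj')
  have hwi : Dir (T \ tri j i w) w i :=
    (bd_dir.1 ((hl.iff w i).2 (cyc_last i w m))).1
  have d1 := dir_gone hT h
  have d2 : ¬ Dir (T \ tri j i w) i j := dir_no hb
  have d3 : ¬ Dir (T \ tri j i w) j w := dir_no hb'
  refine ⟨?_, ?_, ?_⟩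
  · have e : i :: (m ++ [w, j]) = (i :: (m ++ [w])) ++ [j] := by simp
    rw [e, List.nodup_append]
    refine ⟨hl.nodup, by simp, ?_⟩
    intro x hx y hy hxy
    simp only [List.mem_singleton] at hy
    subst hy hxy
    exact hjl hx
  · simp only [List.length_cons, List.length_append, List.length_nil]
    omega
  · intro a b
    rw [cyc_add hl.nodup hjl, ← hl.iff a b, bd_iff hT h, bd_dir]
    constructor
    · rintro ⟨k1 | ⟨rfl, rfl⟩ | ⟨rfl, rfl⟩ | ⟨rfl, rfl⟩, k2⟩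
      · exact Or.inr (Or.inr ⟨⟨k1, fun h' => k2 (Or.inl h')⟩,
          fun h' => k2 (Or.inr (Or.inr (Or.inl ⟨h'.2, h'.1⟩)))⟩)
      · exact Or.inr (Or.inl ⟨rfl, rfl⟩)
      · exact absurd (Or.inl hwi) k2
      · exact Or.inl ⟨rfl, rfl⟩
    · rintro (⟨rfl, rfl⟩ | ⟨rfl, rfl⟩ | ⟨⟨k1, k2⟩, k3⟩)
      · refine ⟨Or.inr (Or.inr (Or.inr ⟨rfl, rfl⟩)), ?_⟩
        rintro (k | ⟨_, k⟩ | ⟨k, _⟩ | ⟨k, _⟩)
        · exact d3 k
        · exact n2 k.symm
        · exact n1 k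
        · exact n3 k.symm
      · refine ⟨Or.inr (Or.inl ⟨rfl, rfl⟩), ?_⟩
        rintro (k | ⟨k, _⟩ | ⟨_, k⟩ | ⟨k, _⟩)
        · exact d2 k
        · exact n1 k.symm
        · exact n3 k.symm
        · exact n2 k
      · refine ⟨Or.inl k1, ?_⟩
        rintro (k | ⟨rfl, rfl⟩ | ⟨rfl, rfl⟩ | ⟨rfl, rfl⟩)
        · exact k2 k
        · exact d2 k1
        · exact k3 ⟨rfl, rfl⟩
        · exact d3 k1

theorem bdB2 (hT : IsCx T) {i j w : V} {m : List V} (h : (j, i, w) ∈ T)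
    (hb : ∀ x, (i, j, x) ∉ T) (hb' : ∀ x, (w, i, x) ∉ T) (hi : i ∉ verts (T \ tri j i w))
    (hl : IsBd (T \ tri j i w) (w :: (m ++ [j]))) : IsBd T (i :: w :: (m ++ [j])) := by
  obtain ⟨n1, n2, n3⟩ := cx_ne hT h
  have hT' := sdiff_tri_isCx hT h
  have hil : i ∉ w :: (m ++ [j]) := fun hi' => hi (hl.verts hT' hi')
  have hjw : Dir (T \ tri j i w) j w :=
    (bd_dir.1 ((hl.iff j w).2 (cyc_last w j m))).1
  have d1 := dir_gone hT h
  have d2 : ¬ Dir (T \ tri j i w) i j := dir_no hb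
  have d3 : ¬ Dir (T \ tri j i w) w i := dir_no hb'
  refine ⟨?_, ?_, ?_⟩
  · rw [List.nodup_cons]
    exact ⟨hil, hl.nodup⟩
  · simp only [List.length_cons, List.length_append, List.length_nil]
    omega
  · intro a b
    rw [cyc_add' hl.nodup hil, ← hl.iff a b, bd_iff hT h, bd_dir]
    constructor
    · rintro ⟨k1 | ⟨rfl, rfl⟩ | ⟨rfl, rfl⟩ | ⟨rfl, rfl⟩, k2⟩
      · exact Or.inr (Or.inr ⟨⟨k1, fun h' => k2 (Or.inl h')⟩,
          fun h' => k2 (Or.inr (Or.inr (Or.inr ⟨h'.2, h'.1⟩)))⟩)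
      · exact Or.inr (Or.inl ⟨rfl, rfl⟩)
      · exact Or.inl ⟨rfl, rfl⟩
      · exact absurd (Or.inl hjw) k2
    · rintro (⟨rfl, rfl⟩ | ⟨rfl, rfl⟩ | ⟨⟨k1, k2⟩, k3⟩)
      · refine ⟨Or.inr (Or.inr (Or.inl ⟨rfl, rfl⟩)), ?_⟩
        rintro (k | ⟨k, _⟩ | ⟨k, _⟩ | ⟨_, k⟩)
        · exact d3 k
        · exact n3 k
        · exact n2 k.symm
        · exact n1 k.symm
      · refine ⟨Or.inr (Or.inl ⟨rfl, rfl⟩), ?_⟩
        rintro (k | ⟨k, _⟩ | ⟨_, k⟩ | ⟨k, _⟩)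
        · exact d2 k
        · exact n1 k.symm
        · exact n3 k.symm
        · exact n2 k
      · refine ⟨Or.inl k1, ?_⟩
        rintro (k | ⟨rfl, rfl⟩ | ⟨rfl, rfl⟩ | ⟨rfl, rfl⟩)
        · exact k2 k
        · exact d2 k1
        · exact d3 k1
        · exact k3 ⟨rfl, rfl⟩

theorem bdC (hT : IsCx T) {i j w : V} {m : List V} (h : (j, i, w) ∈ T)
    (hb : ∀ x, (i, j, x) ∉ T)
    (hl : IsBd (T \ tri j i w) (i :: (m ++ [j, w]))) : IsBd T (i :: (m ++ [j])) := by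
  obtain ⟨n1, n2, n3⟩ := cx_ne hT h
  have e0 : i :: (m ++ [j, w]) = i :: ((m ++ [j]) ++ [w]) := by simp
  have hwi : Dir (T \ tri j i w) w i := by
    refine (bd_dir.1 ((hl.iff w i).2 ?_)).1
    rw [e0]
    exact cyc_last i w _
  have hjw : Dir (T \ tri j i w) j w := by
    refine (bd_dir.1 ((hl.iff j w).2 ?_)).1
    rw [e0, cyc_form]
    left
    have e2 : (i :: (m ++ [j])) ++ [w] = (i :: m) ++ j :: [w] := by simp
    rw [e2, nx_append, nx_two]
    exact Or.inr ⟨rfl, rfl⟩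
  have d1 := dir_gone hT h
  have d2 : ¬ Dir (T \ tri j i w) i j := dir_no hb
  refine ⟨?_, ?_, ?_⟩
  · have := hl.nodup
    have e : i :: (m ++ [j, w]) = (i :: (m ++ [j])) ++ [w] := by simp
    rw [e] at this
    exact (List.nodup_append.1 this).1
  · cases m with
    | nil =>
      exfalso
      apply d2
      refine (bd_dir.1 ((hl.iff i j).2 ?_)).1
      exact Or.inl ⟨rfl, rfl⟩
    | cons x m =>
      simp only [List.length_cons, List.length_append, List.length_nil]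
      omega
  · intro a b
    rw [cyc_del hl.nodup, ← hl.iff a b, bd_iff hT h, bd_dir]
    constructor
    · rintro ⟨k1 | ⟨rfl, rfl⟩ | ⟨rfl, rfl⟩ | ⟨rfl, rfl⟩, k2⟩
      · exact Or.inr ⟨⟨k1, fun h' => k2 (Or.inl h')⟩,
          fun h' => k2 (Or.inr (Or.inr (Or.inr ⟨h'.2, h'.1⟩))),
          fun h' => k2 (Or.inr (Or.inr (Or.inl ⟨h'.2, h'.1⟩)))⟩
      · exact Or.inl ⟨rfl, rfl⟩
      · exact absurd (Or.inl hwi) k2
      · exact absurd (Or.inl hjw) k2
    · rintro (⟨rfl, rfl⟩ | ⟨⟨k1, k2⟩, k3, k4⟩)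
      · refine ⟨Or.inr (Or.inl ⟨rfl, rfl⟩), ?_⟩
        rintro (k | ⟨k, _⟩ | ⟨_, k⟩ | ⟨k, _⟩)
        · exact d2 k
        · exact n1 k.symm
        · exact n3 k.symm
        · exact n2 k
      · refine ⟨Or.inl k1, ?_⟩
        rintro (k | ⟨rfl, rfl⟩ | ⟨rfl, rfl⟩ | ⟨rfl, rfl⟩)
        · exact k2 k
        · exact d2 k1
        · exact k4 ⟨rfl, rfl⟩
        · exact k3 ⟨rfl, rfl⟩

theorem bdD (hT : IsCx T) {i j w : V} {m1 m2 : List V} (h : (j, i, w) ∈ T)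
    (hb : ∀ x, (i, j, x) ∉ T) {X Y : Finset (V × V × V)} (hXY : T \ tri j i w = X ∪ Y)
    (hX : IsCx X) (hY : IsCx Y)
    (hw : verts X ∩ verts Y = {w}) (h1 : IsBd X (i :: (m1 ++ [w])))
    (h2 : IsBd Y (w :: (m2 ++ [j]))) : IsBd T (i :: (m1 ++ w :: (m2 ++ [j]))) := by
  obtain ⟨n1, n2, n3⟩ := cx_ne hT h
  have hw' : ∀ x, x ∈ verts X → x ∈ verts Y → x = w := by
    intro x hx hy
    have : x ∈ verts X ∩ verts Y := Finset.mem_inter.2 ⟨hx, hy⟩
    rw [hw] at this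
    exact Finset.mem_singleton.1 this
  have hdir : ∀ a b, Dir (T \ tri j i w) a b ↔ Dir X a b ∨ Dir Y a b := by
    intro a b
    rw [hXY]
    unfold Dir
    simp only [Finset.mem_union, exists_or]
  have hwi : Dir X w i := (bd_dir.1 ((h1.iff w i).2 (cyc_last i w m1))).1
  have hjw : Dir Y j w := (bd_dir.1 ((h2.iff j w).2 (cyc_last w j m2))).1
  have d2 : ¬ Dir (T \ tri j i w) i j := dir_no hb
  have dx : ∀ a b, Dir X a b → a ∈ verts X ∧ b ∈ verts X := by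
    rintro a b ⟨c, hc⟩
    exact ⟨vert1 hc, vert2 hX hc⟩
  have dy : ∀ a b, Dir Y a b → a ∈ verts Y ∧ b ∈ verts Y := by
    rintro a b ⟨c, hc⟩
    exact ⟨vert1 hc, vert2 hY hc⟩
  have hdisj : ∀ x, x ∈ i :: (m1 ++ [w]) → x ∈ w :: (m2 ++ [j]) → x = w :=
    fun x hx hy => hw' x (h1.verts hX hx) (h2.verts hY hy)
  refine ⟨?_, ?_, ?_⟩
  · have e : i :: (m1 ++ w :: (m2 ++ [j])) = (i :: m1) ++ (w :: (m2 ++ [j])) := by simp
    have e1 : i :: (m1 ++ [w]) = (i :: m1) ++ [w] := by simp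
    have hn := h1.nodup
    rw [e1, List.nodup_append] at hn
    rw [e, List.nodup_append]
    refine ⟨hn.1, h2.nodup, ?_⟩
    intro x hx y hy hxy
    subst hxy
    have := hdisj x (by rw [e1]; exact List.mem_append_left _ hx) hy
    subst this
    exact hn.2.2 x hx x (by simp) rfl
  · simp only [List.length_cons, List.length_append, List.length_nil]
    omega
  · intro a b
    rw [cyc_cat h1.nodup h2.nodup hdisj, ← h1.iff a b, ← h2.iff a b, bd_iff hT h, bd_dir, bd_dir,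
      hdir, hdir]
    constructor
    · rintro ⟨(k1 | k1) | ⟨rfl, rfl⟩ | ⟨rfl, rfl⟩ | ⟨rfl, rfl⟩, k2⟩
      · exact Or.inr (Or.inl ⟨⟨k1, fun h' => k2 (Or.inl (Or.inl h'))⟩,
          fun h' => k2 (Or.inr (Or.inr (Or.inl ⟨h'.2, h'.1⟩)))⟩)
      · exact Or.inr (Or.inr ⟨⟨k1, fun h' => k2 (Or.inl (Or.inr h'))⟩,
          fun h' => k2 (Or.inr (Or.inr (Or.inr ⟨h'.2, h'.1⟩)))⟩)
      · exact Or.inl ⟨rfl, rfl⟩
      · exact absurd (Or.inl (Or.inl hwi)) k2
      · exact absurd (Or.inl (Or.inr hjw)) k2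
    · rintro (⟨rfl, rfl⟩ | ⟨⟨k1, k2⟩, k3⟩ | ⟨⟨k1, k2⟩, k3⟩)
      · refine ⟨Or.inr (Or.inl ⟨rfl, rfl⟩), ?_⟩
        rintro (k | ⟨k, _⟩ | ⟨_, k⟩ | ⟨k, _⟩)
        · exact d2 ((hdir _ _).2 k)
        · exact n1 k.symm
        · exact n3 k.symm
        · exact n2 k
      · refine ⟨Or.inl (Or.inl k1), ?_⟩
        rintro ((k | k) | ⟨rfl, rfl⟩ | ⟨rfl, rfl⟩ | ⟨rfl, rfl⟩)
        · exact k2 k
        · have e1 := hw' a (dx _ _ k1).1 (dy _ _ k).2
          have e2 := hw' b (dx _ _ k1).2 (dy _ _ k).1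
          exact dir_ne hX k1 (e1.trans e2.symm)
        · exact d2 ((hdir _ _).2 (Or.inl k1))
        · exact k3 ⟨rfl, rfl⟩
        · exact n3 (hw' _ (dx _ _ k1).1 (dy _ _ hjw).1).symm
      · refine ⟨Or.inl (Or.inr k1), ?_⟩
        rintro ((k | k) | ⟨rfl, rfl⟩ | ⟨rfl, rfl⟩ | ⟨rfl, rfl⟩)
        · have e1 := hw' a (dx _ _ k).2 (dy _ _ k1).1
          have e2 := hw' b (dx _ _ k).1 (dy _ _ k1).2
          exact dir_ne hY k1 (e1.trans e2.symm)
        · exact k2 k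
        · exact d2 ((hdir _ _).2 (Or.inr k1))
        · exact n2 (hw' _ (dx _ _ hwi).2 (dy _ _ k1).2)
        · exact k3 ⟨rfl, rfl⟩

theorem disc_list_aux (n : ℕ) : ∀ T : Finset (V × V × V), T.card ≤ n → Disc T →
    ∃ l, IsBd T l := by
  induction n with
  | zero =>
    intro T hn hD
    obtain ⟨a, b, ⟨c, hc⟩, _⟩ := hD.bd
    have : T.card ≠ 0 := Finset.card_ne_zero_of_mem hc
    omega
  | succ n ih =>
    intro T hn hD
    obtain ⟨j, i, ⟨w, h⟩, hb⟩ := hD.bd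
    have hT := hD.cx
    obtain ⟨n1, n2, n3⟩ := cx_ne hT h
    have hT' := sdiff_tri_isCx hT h
    have hcard := card_sdiff_tri hT h
    rcases disc_cases hD h hb with h0 | ⟨h1, h2, h3, h4⟩ | ⟨h1, h2, h3, h4⟩ | ⟨h1, h2, h3⟩ |
      ⟨X, Y, h1, h2, h3, h4, h5, h6, h7⟩
    · exact ⟨_, by rw [h0]; exact bdA n1 n2 n3⟩
    · obtain ⟨l, hl⟩ := ih _ (by omega) h1
      obtain ⟨m, hm⟩ := hl.form h2
      exact ⟨_, bdB1 hT h hb h3 h4 hm⟩
    · obtain ⟨l, hl⟩ := ih _ (by omega) h1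
      obtain ⟨m, hm⟩ := hl.form h2
      exact ⟨_, bdB2 hT h hb h3 h4 hm⟩
    · obtain ⟨l, hl⟩ := ih _ (by omega) h1
      obtain ⟨m, hm⟩ := hl.form2 h2 h3 n1.symm
      exact ⟨_, bdC hT h hb hm⟩
    · have hXs : X.card ≤ n := by
        have : X.card ≤ (T \ tri j i w).card :=
          Finset.card_le_card (by rw [h1]; exact Finset.subset_union_left)
        omega
      have hYs : Y.card ≤ n := by
        have : Y.card ≤ (T \ tri j i w).card :=
          Finset.card_le_card (by rw [h1]; exact Finset.subset_union_right)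
        omega
      obtain ⟨l1, hl1⟩ := ih X hXs h3
      obtain ⟨l2, hl2⟩ := ih Y hYs h4
      obtain ⟨m1, hm1⟩ := hl1.form h5
      obtain ⟨m2, hm2⟩ := hl2.form h6
      exact ⟨_, bdD hT h hb h1 h3.cx h4.cx h7 hm1 hm2⟩

theorem disc_list (hD : Disc T) : ∃ l, IsBd T l := disc_list_aux T.card T le_rfl hD

end Pool.Agent.H13.DA
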