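import Pool.Agent.H13.DA.Defs

/-!
# [H13 DA CHI] Euler characteristic of a union of two complexes

* `mem_verts`, `mem_edges`: unfold (`Finset.mem_image`); for `IsCx T` all three entries of a triple
  are vertices (`vert2`, `vert3`).
* `edge_iff`: `s(a,b) ∈ edges T ↔ Adj T a b` (`Sym2.eq_iff`).
* `chi_union`: `verts (X ∪ Y) = verts X ∪ verts Y`, `edges (X ∪ Y) = edges X ∪ edges Y`
  (`Finset.image_union`), inclusion-exclusion (`Finset.card_union_add_card_inter`).
* `verts_tri`, `edges_tri`, `chi_tri`: a single triangle has 3 vertices, 3 edges, 3 triples.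
-/

set_option autoImplicit false

namespace Pool.Agent.H13.DA

open Relation

variable {V : Type*} {T : Finset (V × V × V)}

theorem mem_verts {v : V} : v ∈ verts T ↔ ∃ b c, (v, b, c) ∈ T := by
  simp only [verts, Finset.mem_image]
  constructor
  · rintro ⟨⟨a, b, c⟩, h, rfl⟩
    exact ⟨b, c, h⟩
  · rintro ⟨b, c, h⟩
    exact ⟨(v, b, c), h, rfl⟩

theorem vert1 {a b c : V} (h : (a, b, c) ∈ T) : a ∈ verts T := mem_verts.2 ⟨b, c, h⟩

theorem vert2 (hT : IsCx T) {a b c : V} (h : (a, b, c) ∈ T) : b ∈ verts T := vert1 (hT.rot h)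

theorem vert3 (hT : IsCx T) {a b c : V} (h : (a, b, c) ∈ T) : c ∈ verts T :=
  vert1 (hT.rot (hT.rot h))

theorem edge_iff {a b : V} : s(a, b) ∈ edges T ↔ Adj T a b := by
  simp only [edges, Finset.mem_image, Adj]
  constructor
  · rintro ⟨⟨x, y, z⟩, h, he⟩
    simp only [Sym2.eq_iff] at he
    rcases he with ⟨rfl, rfl⟩ | ⟨rfl, rfl⟩
    · exact Or.inl ⟨z, h⟩
    · exact Or.inr ⟨z, h⟩
  · rintro (⟨z, h⟩ | ⟨z, h⟩)
    · exact ⟨(a, b, z), h, rfl⟩
    · exact ⟨(b, a, z), h, Sym2.eq_swap⟩

theorem verts_mono {X : Finset (V × V × V)} (h : X ⊆ T) : verts X ⊆ verts T := by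
  intro v hv
  obtain ⟨b, c, h'⟩ := mem_verts.1 hv
  exact mem_verts.2 ⟨b, c, h h'⟩

theorem edges_mono {X : Finset (V × V × V)} (h : X ⊆ T) : edges X ⊆ edges T := by
  classical
  unfold edges
  exact Finset.image_subset_image h

theorem verts_union [DecidableEq V] (X Y : Finset (V × V × V)) :
    verts (X ∪ Y) = verts X ∪ verts Y := by
  ext v
  rw [Finset.mem_union, mem_verts, mem_verts, mem_verts]
  simp only [Finset.mem_union, exists_or]

theorem edges_union [DecidableEq V] (X Y : Finset (V × V × V)) :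
    edges (X ∪ Y) = edges X ∪ edges Y := by
  ext e
  induction e using Sym2.ind with
  | _ a b =>
    rw [Finset.mem_union, edge_iff, edge_iff, edge_iff]
    simp only [Adj, Finset.mem_union, exists_or]
    tauto

theorem chi_union [DecidableEq V] (X Y : Finset (V × V × V)) (h : Disjoint X Y) :
    chi (X ∪ Y) = chi X + chi Y - 3 * (verts X ∩ verts Y).card + 3 * (edges X ∩ edges Y).card := by
  have h1 := Finset.card_union_add_card_inter (verts X) (verts Y)
  have h2 := Finset.card_union_add_card_inter (edges X) (edges Y)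
  have h3 := Finset.card_union_of_disjoint h
  unfold chi
  rw [verts_union, edges_union, h3]
  push_cast
  have h1' : (((verts X ∪ verts Y).card : ℤ)) + (verts X ∩ verts Y).card =
      (verts X).card + (verts Y).card := by exact_mod_cast h1
  have h2' : (((edges X ∪ edges Y).card : ℤ)) + (edges X ∩ edges Y).card =
      (edges X).card + (edges Y).card := by exact_mod_cast h2
  linarith

theorem verts_tri [DecidableEq V] (a b c : V) : verts (tri a b c) = {a, b, c} := by
  ext v
  rw [mem_verts]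
  simp only [tri, Finset.mem_insert, Finset.mem_singleton, Prod.mk.injEq]
  constructor
  · rintro ⟨x, y, h⟩
    tauto
  · rintro (rfl | rfl | rfl)
    · exact ⟨b, c, Or.inl ⟨rfl, rfl, rfl⟩⟩
    · exact ⟨c, a, Or.inr (Or.inl ⟨rfl, rfl, rfl⟩)⟩
    · exact ⟨a, b, Or.inr (Or.inr ⟨rfl, rfl, rfl⟩)⟩

theorem edges_tri [DecidableEq V] (a b c : V) :
    edges (tri a b c) = {s(a, b), s(b, c), s(c, a)} := by
  classical
  ext e
  simp only [edges, tri, Finset.mem_image, Finset.mem_insert, Finset.mem_singleton]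
  constructor
  · rintro ⟨t, rfl | rfl | rfl, rfl⟩
    · exact Or.inl rfl
    · exact Or.inr (Or.inl rfl)
    · exact Or.inr (Or.inr rfl)
  · rintro (rfl | rfl | rfl)
    · exact ⟨_, Or.inl rfl, rfl⟩
    · exact ⟨_, Or.inr (Or.inl rfl), rfl⟩
    · exact ⟨_, Or.inr (Or.inr rfl), rfl⟩

theorem tri_card {a b c : V} (h1 : a ≠ b) (h2 : b ≠ c) (h3 : c ≠ a) : (tri a b c).card = 3 := by
  classical
  have e : tri a b c = {(a, b, c), (b, c, a), (c, a, b)} := by
    ext s
    simp [tri]
  rw [e, Finset.card_insert_of_notMem, Finset.card_insert_of_notMem, Finset.card_singleton]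
  · simp only [Finset.mem_singleton, Prod.mk.injEq, not_and]
    intro h; exact absurd h h2
  · simp only [Finset.mem_insert, Finset.mem_singleton, Prod.mk.injEq, not_or, not_and]
    exact ⟨fun h => absurd h h1, fun h => absurd h.symm h3⟩

theorem chi_tri {a b c : V} (h1 : a ≠ b) (h2 : b ≠ c) (h3 : c ≠ a) : chi (tri a b c) = 3 := by
  classical
  have e1 : (verts (tri a b c)).card = 3 := by
    rw [verts_tri, Finset.card_insert_of_notMem, Finset.card_insert_of_notMem,
      Finset.card_singleton]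
    · simpa using h2
    · simp only [Finset.mem_insert, Finset.mem_singleton, not_or]
      exact ⟨h1, h3.symm⟩
  have e2 : (edges (tri a b c)).card = 3 := by
    rw [edges_tri, Finset.card_insert_of_notMem, Finset.card_insert_of_notMem,
      Finset.card_singleton]
    · simp only [Finset.mem_singleton, Sym2.eq_iff, not_or, not_and]
      exact ⟨fun h => absurd h h2, fun h => absurd h.symm h1⟩
    · simp only [Finset.mem_insert, Finset.mem_singleton, Sym2.eq_iff, not_or, not_and]
      exact ⟨⟨fun h => absurd h h1, fun h => absurd h.symm h3⟩,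
        ⟨fun h => absurd h.symm h3, fun _ h => absurd h h2⟩⟩
  unfold chi
  rw [e1, e2, tri_card h1 h2 h3]
  norm_num

/-- in a closed complex every edge is covered by exactly two ordered pairs -/
theorem clos_card (hT : IsCx T) (hc : Clos T) : T.card = 2 * (edges T).card := by
  classical
  have h1 : T.card = ∑ e ∈ edges T, (T.filter (fun t => s(t.1, t.2.1) = e)).card := by
    apply Finset.card_eq_sum_card_fiberwise
    intro t ht
    simp only [edges, Finset.coe_image, Set.mem_image, Finset.mem_coe]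
    exact ⟨t, ht, rfl⟩
  rw [h1, Finset.sum_const_nat (m := 2), mul_comm]
  intro e he
  induction e using Sym2.ind with
  | _ a b =>
    have hab : ∃ c d, (a, b, c) ∈ T ∧ (b, a, d) ∈ T := by
      rcases edge_iff.1 he with ⟨c, h⟩ | ⟨c, h⟩
      · obtain ⟨d, hd⟩ := hc _ _ _ h
        exact ⟨c, d, h, hd⟩
      · obtain ⟨d, hd⟩ := hc _ _ _ h
        exact ⟨d, c, hd, h⟩
    obtain ⟨c, d, h, h'⟩ := hab
    have hne := hT.ne h
    have e1 : T.filter (fun t => s(t.1, t.2.1) = s(a, b)) = {(a, b, c), (b, a, d)} := by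
      ext ⟨x, y, z⟩
      simp only [Finset.mem_filter, Finset.mem_insert, Finset.mem_singleton, Sym2.eq_iff,
        Prod.mk.injEq]
      constructor
      · rintro ⟨hxyz, ⟨rfl, rfl⟩ | ⟨rfl, rfl⟩⟩
        · exact Or.inl ⟨rfl, rfl, hT.uniq hxyz h⟩
        · exact Or.inr ⟨rfl, rfl, hT.uniq hxyz h'⟩
      · rintro (⟨rfl, rfl, rfl⟩ | ⟨rfl, rfl, rfl⟩)
        · exact ⟨h, Or.inl ⟨rfl, rfl⟩⟩
        · exact ⟨h', Or.inr ⟨rfl, rfl⟩⟩
    rw [e1, Finset.card_insert_of_notMem, Finset.card_singleton]
    simp only [Finset.mem_singleton, Prod.mk.injEq, not_and]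
    intro h3
    exact absurd h3 hne

end Pool.Agent.H13.DA
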