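import Pool.Agent.H13.DA.Comp
import Pool.Agent.H13.DA.Chi

/-!
# [H13 DA CASES] removal of the triangle at a boundary edge; Euler inequality

Let `IsCx T`, `Conn T`, `(j,i,w) ∈ T` and `(i,j,x) ∉ T` for all `x` (so `ji` is a boundary edge);
`T' = T \ tri j i w`. By `del_cover` (the alternative `(i,j,x)` is impossible) every `s ∈ T'` is in
`comp T' (w,i,x)` or in `comp T' (j,w,y)`.

`struct` (no Euler characteristic): five cases.
 (A) neither `(w,i,x)` nor `(j,w,y)` is in `T`: `T' = ∅`, so `T = tri j i w` (`tri_sub`).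
 (B1) only `(w,i,x) ∈ T`: `T' = comp T' (w,i,x)`, `Conn T'` (`conn_of_comp`).
 (B2) only `(j,w,y) ∈ T`: the same.
 (C) both, in the same component: `Conn T'`.
 (D) both, in different components `X = comp T' (w,i,x)`, `Y = comp T' (j,w,y)`: `T' = X ∪ Y`,
     disjoint (`comp_disj`), and they share no edge (`comp_flip`: if `(a,b,c) ∈ X` and `(b,a,d) ∈ Y`
     then `(b,a,d) ∈ X`; if `(a,b,c) ∈ X` and `(a,b,d) ∈ Y` then `c = d` by `uniq`).

`euler_le` by strong induction on `T.card` (`T'.card < T.card`), with `chi_union` applied to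
`T = T' ∪ tri j i w`, `chi_tri = 3`, `verts_tri = {j,i,w}`, `edges_tri`:
 (A) `chi T = 3`.
 (B1) `edges T' ∩ edges tri = {iw}` (`ji` and `jw` are not edges of `T'`), and
      `verts T' ∩ verts tri` is `{w,i}` or `{w,i,j}`:
      `chi T = chi T' + 3 - 6 + 3 = chi T'` or `chi T' + 3 - 9 + 3 = chi T' - 3`.
 (C) `edges ∩ = {iw, jw}`, `verts ∩ = {i,j,w}`: `chi T = chi T' + 3 - 9 + 6 = chi T'`.
 (D) as in (C) `chi T = chi T'`, and `chi T' = chi X + chi Y - 3 |verts X ∩ verts Y|`,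
     `w ∈ verts X ∩ verts Y`: `chi T ≤ 3 + 3 - 3`.
In all cases the pieces are again `IsCx`, `Conn`, with boundary: `(w,i,x) ∈ T'` but `(i,w,z) ∉ T'`
(`uniq`: `z = j`, and `(i,w,j) ∈ tri j i w`), so `Bd T' w i`; the same for `Bd T' j w`.

`disc_cases`: if `chi T = 3` all these inequalities are equalities: in (B1) `j ∉ verts T'`
and `chi T' = 3`; in (D) `chi X = chi Y = 3` and `verts X ∩ verts Y = {w}`.
-/

set_option autoImplicit false

namespace Pool.Agent.H13.DA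

open Relation

variable {V : Type*} [DecidableEq V] {T : Finset (V × V × V)}

theorem not_mem_sdiff (hT : IsCx T) {a b c x : V} (h : (a, b, c) ∈ T) :
    (a, b, x) ∉ T \ tri a b c := by
  intro h'
  obtain ⟨h1, h2⟩ := Finset.mem_sdiff.1 h'
  have := hT.uniq h1 h
  subst this
  exact h2 (mem_tri.2 (Or.inl rfl))

theorem bd1 (hT : IsCx T) {i j w x : V} (h : (j, i, w) ∈ T) (hx : (w, i, x) ∈ T) :
    (w, i, x) ∈ T \ tri j i w ∧ Bd (T \ tri j i w) w i := by
  have h1 : (i, w, j) ∈ T := hT.rot h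
  rw [tri_eq]
  have h2 := flip_mem_sdiff hT h1 hx
  exact ⟨h2, ⟨x, h2⟩, fun c => not_mem_sdiff hT h1⟩

theorem bd2 (hT : IsCx T) {i j w x : V} (h : (j, i, w) ∈ T) (hx : (j, w, x) ∈ T) :
    (j, w, x) ∈ T \ tri j i w ∧ Bd (T \ tri j i w) j w := by
  have h1 : (w, j, i) ∈ T := hT.rot (hT.rot h)
  rw [tri_eq, tri_eq]
  have h2 := flip_mem_sdiff hT h1 hx
  exact ⟨h2, ⟨x, h2⟩, fun c => not_mem_sdiff hT h1⟩

theorem comp_edges {T : Finset (V × V × V)} (hT : IsCx T) {s t : V × V × V}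
    (h : ¬ ReflTransGen (Step T) s t) : edges (comp T s) ∩ edges (comp T t) = ∅ := by
  have hd := comp_disj hT h
  rw [Finset.disjoint_left] at hd
  rw [Finset.eq_empty_iff_forall_notMem]
  intro e
  induction e using Sym2.ind with
  | _ a b =>
    intro he
    rw [Finset.mem_inter, edge_iff, edge_iff] at he
    obtain ⟨h1, h2⟩ := he
    rcases h1 with ⟨c, h1⟩ | ⟨c, h1⟩
    · rcases h2 with ⟨d, h2⟩ | ⟨d, h2⟩
      · have := hT.uniq (mem_comp.1 h1).1 (mem_comp.1 h2).1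
        subst this
        exact hd h1 h2
      · exact hd (comp_flip hT s h1 (mem_comp.1 h2).1) h2
    · rcases h2 with ⟨d, h2⟩ | ⟨d, h2⟩
      · exact hd (comp_flip hT s h1 (mem_comp.1 h2).1) h2
      · have := hT.uniq (mem_comp.1 h1).1 (mem_comp.1 h2).1
        subst this
        exact hd h1 h2

theorem struct (hT : IsCx T) (hc : Conn T) {i j w : V} (h : (j, i, w) ∈ T)
    (hb : ∀ x, (i, j, x) ∉ T) :
    T = tri j i w ∨
    (Conn (T \ tri j i w) ∧ Bd (T \ tri j i w) w i ∧ (∀ x, (j, w, x) ∉ T)) ∨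
    (Conn (T \ tri j i w) ∧ Bd (T \ tri j i w) j w ∧ (∀ x, (w, i, x) ∉ T)) ∨
    (Conn (T \ tri j i w) ∧ Bd (T \ tri j i w) w i ∧ Bd (T \ tri j i w) j w) ∨
    (∃ X Y : Finset (V × V × V), T \ tri j i w = X ∪ Y ∧ Disjoint X Y ∧ IsCx X ∧ IsCx Y ∧
      Conn X ∧ Conn Y ∧ Bd X w i ∧ Bd Y j w ∧ edges X ∩ edges Y = ∅) := by
  have hT' := sdiff_tri_isCx hT h
  have cover : ∀ s ∈ T \ tri j i w,
      (∃ x, (w, i, x) ∈ T \ tri j i w ∧ s ∈ comp (T \ tri j i w) (w, i, x)) ∨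
      (∃ x, (j, w, x) ∈ T \ tri j i w ∧ s ∈ comp (T \ tri j i w) (j, w, x)) := by
    intro s hs
    rcases del_cover hT hc h hs with ⟨x, h1, _⟩ | h1 | h1
    · exact absurd (Finset.mem_sdiff.1 h1).1 (hb x)
    · exact Or.inl h1
    · exact Or.inr h1
  by_cases h1 : ∃ x, (w, i, x) ∈ T
  · obtain ⟨x, hx⟩ := h1
    obtain ⟨hx', hbx⟩ := bd1 hT h hx
    by_cases h2 : ∃ y, (j, w, y) ∈ T
    · obtain ⟨y, hy⟩ := h2
      obtain ⟨hy', hby⟩ := bd2 hT h hy
      have cover' : ∀ s ∈ T \ tri j i w, s ∈ comp (T \ tri j i w) (w, i, x) ∨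
          s ∈ comp (T \ tri j i w) (j, w, y) := by
        intro s hs
        rcases cover s hs with ⟨x', k1, k2⟩ | ⟨x', k1, k2⟩
        · have := hT'.uniq k1 hx'
          subst this
          exact Or.inl k2
        · have := hT'.uniq k1 hy'
          subst this
          exact Or.inr k2
      by_cases hr : ReflTransGen (Step (T \ tri j i w)) (w, i, x) (j, w, y)
      · refine Or.inr (Or.inr (Or.inr (Or.inl ⟨?_, hbx, hby⟩)))
        apply conn_of_comp hT' (t := (w, i, x))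
        intro s hs
        rcases cover' s hs with k | k
        · exact k
        · rw [comp_eq hT' hr]; exact k
      · refine Or.inr (Or.inr (Or.inr (Or.inr ⟨comp (T \ tri j i w) (w, i, x),
          comp (T \ tri j i w) (j, w, y), ?_, comp_disj hT' hr, comp_isCx hT' _,
          comp_isCx hT' _, comp_conn hT' _, comp_conn hT' _, ?_, ?_, comp_edges hT' hr⟩)))
        · ext s
          rw [Finset.mem_union]
          exact ⟨cover' s, fun k => k.elim (fun k => (mem_comp.1 k).1)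
            (fun k => (mem_comp.1 k).1)⟩
        · exact ⟨⟨x, mem_comp_self hx'⟩, fun c k => hbx.2 c (mem_comp.1 k).1⟩
        · exact ⟨⟨y, mem_comp_self hy'⟩, fun c k => hby.2 c (mem_comp.1 k).1⟩
    · refine Or.inr (Or.inl ⟨?_, hbx, fun y hy => h2 ⟨y, hy⟩⟩)
      apply conn_of_comp hT' (t := (w, i, x))
      intro s hs
      rcases cover s hs with ⟨x', k1, k2⟩ | ⟨x', k1, k2⟩
      · have := hT'.uniq k1 hx'
        subst this
        exact k2
      · exact absurd ⟨x', (Finset.mem_sdiff.1 k1).1⟩ h2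
  · by_cases h2 : ∃ y, (j, w, y) ∈ T
    · obtain ⟨y, hy⟩ := h2
      obtain ⟨hy', hby⟩ := bd2 hT h hy
      refine Or.inr (Or.inr (Or.inl ⟨?_, hby, fun y hy => h1 ⟨y, hy⟩⟩))
      apply conn_of_comp hT' (t := (j, w, y))
      intro s hs
      rcases cover s hs with ⟨x', k1, k2⟩ | ⟨x', k1, k2⟩
      · exact absurd ⟨x', (Finset.mem_sdiff.1 k1).1⟩ h1
      · have := hT'.uniq k1 hy'
        subst this
        exact k2
    · left
      apply Finset.Subset.antisymm _ (tri_sub hT h)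
      intro s hs
      by_contra hs'
      rcases cover s (Finset.mem_sdiff.2 ⟨hs, hs'⟩) with ⟨x', k1, _⟩ | ⟨x', k1, _⟩
      · exact h1 ⟨x', (Finset.mem_sdiff.1 k1).1⟩
      · exact h2 ⟨x', (Finset.mem_sdiff.1 k1).1⟩

theorem card_sdiff_tri (hT : IsCx T) {a b c : V} (h : (a, b, c) ∈ T) :
    (T \ tri a b c).card + 3 = T.card := by
  obtain ⟨h1, h2, h3⟩ := cx_ne hT h
  rw [← tri_card h1 h2 h3]
  exact Finset.card_sdiff_add_card_eq_card (tri_sub hT h)

theorem inter3 {α : Type*} [DecidableEq α] (S : Finset α) {a b c : α} (h1 : a ≠ b) (h2 : b ≠ c)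
    (h3 : c ≠ a) : ((S ∩ {a, b, c}).card : ℤ) =
      (if a ∈ S then 1 else 0) + (if b ∈ S then 1 else 0) + (if c ∈ S then 1 else 0) := by
  have e : S ∩ {a, b, c} = ({a, b, c} : Finset α).filter (fun x => x ∈ S) := by
    ext x
    simp only [Finset.mem_inter, Finset.mem_filter, and_comm]
  rw [e, Finset.card_filter, Finset.sum_insert, Finset.sum_insert, Finset.sum_singleton]
  · push_cast
    ring
  · simpa using h2
  · simp only [Finset.mem_insert, Finset.mem_singleton, not_or]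
    exact ⟨h1, h3.symm⟩

/-- the change of the Euler characteristic when one triangle is removed -/
theorem chi_del (hT : IsCx T) {a b c : V} (h : (a, b, c) ∈ T) :
    chi T = chi (T \ tri a b c) + 3
      - 3 * ((if a ∈ verts (T \ tri a b c) then 1 else 0) +
        (if b ∈ verts (T \ tri a b c) then 1 else 0) + (if c ∈ verts (T \ tri a b c) then 1 else 0))
      + 3 * ((if s(a, b) ∈ edges (T \ tri a b c) then 1 else 0) +
        (if s(b, c) ∈ edges (T \ tri a b c) then 1 else 0) +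
        (if s(c, a) ∈ edges (T \ tri a b c) then 1 else 0)) := by
  obtain ⟨h1, h2, h3⟩ := cx_ne hT h
  have e : T = (T \ tri a b c) ∪ tri a b c := (Finset.sdiff_union_of_subset (tri_sub hT h)).symm
  have e1 := chi_union (T \ tri a b c) (tri a b c) Finset.sdiff_disjoint
  rw [← e, chi_tri h1 h2 h3, verts_tri, edges_tri, inter3 _ h1 h2 h3, inter3] at e1
  · exact e1
  · simp only [ne_eq, Sym2.eq_iff, not_or, not_and]
    exact ⟨fun h => absurd h h1, fun h => absurd h.symm h3⟩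
  · simp only [ne_eq, Sym2.eq_iff, not_or, not_and]
    exact ⟨fun h => absurd h h2, fun h => absurd h.symm h1⟩
  · simp only [ne_eq, Sym2.eq_iff, not_or, not_and]
    exact ⟨fun h => absurd h h3, fun h => absurd h.symm h2⟩

theorem edge_gone (hT : IsCx T) {a b c : V} (h : (a, b, c) ∈ T) (hb : ∀ x, (b, a, x) ∉ T) :
    s(a, b) ∉ edges (T \ tri a b c) := by
  rw [edge_iff]
  rintro (⟨x, hx⟩ | ⟨x, hx⟩)
  · exact not_mem_sdiff hT h hx
  · exact hb x (Finset.mem_sdiff.1 hx).1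

theorem chi_B1 (hT : IsCx T) {i j w : V} (h : (j, i, w) ∈ T) (hb : ∀ x, (i, j, x) ∉ T)
    (h1 : Bd (T \ tri j i w) w i) (h2 : ∀ x, (j, w, x) ∉ T) :
    chi T = chi (T \ tri j i w) - 3 * (if j ∈ verts (T \ tri j i w) then 1 else 0) := by
  have hT' := sdiff_tri_isCx hT h
  obtain ⟨x, hx⟩ := h1.1
  have e1 : i ∈ verts (T \ tri j i w) := vert2 hT' hx
  have e2 : w ∈ verts (T \ tri j i w) := vert1 hx
  have e3 : s(j, i) ∉ edges (T \ tri j i w) := edge_gone hT h hb
  have e4 : s(i, w) ∈ edges (T \ tri j i w) := edge_iff.2 (Or.inr ⟨x, hx⟩)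
  have e5 : s(w, j) ∉ edges (T \ tri j i w) := by
    have h3 : (w, j, i) ∈ T := hT.rot (hT.rot h)
    have := edge_gone hT h3 h2
    rw [← tri_eq j i w |>.trans (tri_eq i w j)] at this
    exact this
  have e6 := chi_del hT h
  rw [if_pos e1, if_pos e2, if_neg e3, if_pos e4, if_neg e5] at e6
  linarith

theorem chi_B2 (hT : IsCx T) {i j w : V} (h : (j, i, w) ∈ T) (hb : ∀ x, (i, j, x) ∉ T)
    (h1 : Bd (T \ tri j i w) j w) (h2 : ∀ x, (w, i, x) ∉ T) :
    chi T = chi (T \ tri j i w) - 3 * (if i ∈ verts (T \ tri j i w) then 1 else 0) := by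
  have hT' := sdiff_tri_isCx hT h
  obtain ⟨x, hx⟩ := h1.1
  have e1 : j ∈ verts (T \ tri j i w) := vert1 hx
  have e2 : w ∈ verts (T \ tri j i w) := vert2 hT' hx
  have e3 : s(j, i) ∉ edges (T \ tri j i w) := edge_gone hT h hb
  have e4 : s(w, j) ∈ edges (T \ tri j i w) := edge_iff.2 (Or.inr ⟨x, hx⟩)
  have e5 : s(i, w) ∉ edges (T \ tri j i w) := by
    have h3 : (i, w, j) ∈ T := hT.rot h
    have := edge_gone hT h3 h2
    rw [← tri_eq j i w] at this
    exact this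
  have e6 := chi_del hT h
  rw [if_pos e1, if_pos e2, if_neg e3, if_pos e4, if_neg e5] at e6
  linarith

theorem chi_CD (hT : IsCx T) {i j w x y : V} (h : (j, i, w) ∈ T) (hb : ∀ x, (i, j, x) ∉ T)
    (hx : (w, i, x) ∈ T \ tri j i w) (hy : (j, w, y) ∈ T \ tri j i w) :
    chi T = chi (T \ tri j i w) := by
  have hT' := sdiff_tri_isCx hT h
  have e1 : i ∈ verts (T \ tri j i w) := vert2 hT' hx
  have e2 : w ∈ verts (T \ tri j i w) := vert1 hx
  have e2' : j ∈ verts (T \ tri j i w) := vert1 hy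
  have e3 : s(j, i) ∉ edges (T \ tri j i w) := edge_gone hT h hb
  have e4 : s(i, w) ∈ edges (T \ tri j i w) := edge_iff.2 (Or.inr ⟨x, hx⟩)
  have e5 : s(w, j) ∈ edges (T \ tri j i w) := edge_iff.2 (Or.inr ⟨y, hy⟩)
  have e6 := chi_del hT h
  rw [if_pos e1, if_pos e2, if_pos e2', if_neg e3, if_pos e4, if_pos e5] at e6
  linarith

theorem chi_D (hT : IsCx T) {i j w : V} (h : (j, i, w) ∈ T) (hb : ∀ x, (i, j, x) ∉ T)
    {X Y : Finset (V × V × V)} (hXY : T \ tri j i w = X ∪ Y) (hd : Disjoint X Y)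
    (h1 : Bd X w i) (h2 : Bd Y j w) (he : edges X ∩ edges Y = ∅) :
    chi T = chi X + chi Y - 3 * (verts X ∩ verts Y).card := by
  obtain ⟨x, hx⟩ := h1.1
  obtain ⟨y, hy⟩ := h2.1
  rw [chi_CD hT h hb (x := x) (y := y) (by rw [hXY]; exact Finset.mem_union_left _ hx)
    (by rw [hXY]; exact Finset.mem_union_right _ hy), hXY, chi_union X Y hd, he]
  simp

theorem euler_aux (n : ℕ) : ∀ T : Finset (V × V × V), T.card ≤ n → IsCx T → Conn T →
    (∃ a b, Bd T a b) → chi T ≤ 3 := by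
  induction n with
  | zero =>
    intro T hn _ _ hb
    obtain ⟨a, b, ⟨c, hc⟩, _⟩ := hb
    have : T.card ≠ 0 := Finset.card_ne_zero_of_mem hc
    omega
  | succ n ih =>
    intro T hn hT hc hb
    obtain ⟨j, i, ⟨w, h⟩, hb⟩ := hb
    have hT' := sdiff_tri_isCx hT h
    have hcard := card_sdiff_tri hT h
    rcases struct hT hc h hb with h0 | ⟨h1, h2, h3⟩ | ⟨h1, h2, h3⟩ | ⟨h1, h2, h3⟩ |
      ⟨X, Y, h1, h2, h3, h4, h5, h6, h7, h8, h9⟩
    · obtain ⟨k1, k2, k3⟩ := cx_ne hT h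
      rw [h0, chi_tri k1 k2 k3]
    · have k1 := ih _ (by omega) hT' h1 ⟨w, i, h2⟩
      have k2 := chi_B1 hT h hb h2 h3
      split_ifs at k2 <;> linarith
    · have k1 := ih _ (by omega) hT' h1 ⟨j, w, h2⟩
      have k2 := chi_B2 hT h hb h2 h3
      split_ifs at k2 <;> linarith
    · have k1 := ih _ (by omega) hT' h1 ⟨w, i, h2⟩
      obtain ⟨x, hx⟩ := h2.1
      obtain ⟨y, hy⟩ := h3.1
      have k2 := chi_CD hT h hb hx hy
      linarith
    · have hXs : X.card ≤ n := by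
        have : X.card ≤ (T \ tri j i w).card :=
          Finset.card_le_card (by rw [h1]; exact Finset.subset_union_left)
        omega
      have hYs : Y.card ≤ n := by
        have : Y.card ≤ (T \ tri j i w).card :=
          Finset.card_le_card (by rw [h1]; exact Finset.subset_union_right)
        omega
      have k1 := ih X hXs h3 h5 ⟨w, i, h7⟩
      have k2 := ih Y hYs h4 h6 ⟨j, w, h8⟩
      have k3 := chi_D hT h hb h1 h2 h7 h8 h9
      obtain ⟨x, hx⟩ := h7.1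
      obtain ⟨y, hy⟩ := h8.1
      have k4 : w ∈ verts X ∩ verts Y := Finset.mem_inter.2 ⟨vert1 hx, vert2 h4 hy⟩
      have k5 : 1 ≤ (verts X ∩ verts Y).card := Finset.card_pos.2 ⟨w, k4⟩
      have k6 : (1 : ℤ) ≤ (verts X ∩ verts Y).card := by exact_mod_cast k5
      linarith

theorem euler_le (hT : IsCx T) (hc : Conn T) (hb : ∃ a b, Bd T a b) : chi T ≤ 3 :=
  euler_aux T.card T le_rfl hT hc hb

theorem disc_cases (hD : Disc T) {i j w : V} (h : (j, i, w) ∈ T) (hb : ∀ x, (i, j, x) ∉ T) :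
    T = tri j i w ∨
    (Disc (T \ tri j i w) ∧ Bd (T \ tri j i w) w i ∧ (∀ x, (j, w, x) ∉ T) ∧
      j ∉ verts (T \ tri j i w)) ∨
    (Disc (T \ tri j i w) ∧ Bd (T \ tri j i w) j w ∧ (∀ x, (w, i, x) ∉ T) ∧
      i ∉ verts (T \ tri j i w)) ∨
    (Disc (T \ tri j i w) ∧ Bd (T \ tri j i w) w i ∧ Bd (T \ tri j i w) j w) ∨
    (∃ X Y : Finset (V × V × V), T \ tri j i w = X ∪ Y ∧ Disjoint X Y ∧ Disc X ∧ Disc Y ∧
      Bd X w i ∧ Bd Y j w ∧ verts X ∩ verts Y = {w}) := by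
  have hT := hD.cx
  have hT' := sdiff_tri_isCx hT h
  have hchi := hD.chi
  rcases struct hT hD.conn h hb with h0 | ⟨h1, h2, h3⟩ | ⟨h1, h2, h3⟩ | ⟨h1, h2, h3⟩ |
    ⟨X, Y, h1, h2, h3, h4, h5, h6, h7, h8, h9⟩
  · exact Or.inl h0
  · have k1 := euler_le hT' h1 ⟨w, i, h2⟩
    have k2 := chi_B1 hT h hb h2 h3
    right; left
    by_cases hj : j ∈ verts (T \ tri j i w)
    · rw [if_pos hj] at k2
      linarith
    · rw [if_neg hj] at k2
      exact ⟨⟨hT', h1, ⟨w, i, h2⟩, by linarith⟩, h2, h3, hj⟩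
  · have k1 := euler_le hT' h1 ⟨j, w, h2⟩
    have k2 := chi_B2 hT h hb h2 h3
    right; right; left
    by_cases hj : i ∈ verts (T \ tri j i w)
    · rw [if_pos hj] at k2
      linarith
    · rw [if_neg hj] at k2
      exact ⟨⟨hT', h1, ⟨j, w, h2⟩, by linarith⟩, h2, h3, hj⟩
  · obtain ⟨x, hx⟩ := h2.1
    obtain ⟨y, hy⟩ := h3.1
    have k2 := chi_CD hT h hb hx hy
    right; right; right; left
    exact ⟨⟨hT', h1, ⟨w, i, h2⟩, by rw [← k2]; exact hchi⟩, h2, h3⟩
  · have k1 := euler_le h3 h5 ⟨w, i, h7⟩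
    have k2 := euler_le h4 h6 ⟨j, w, h8⟩
    have k3 := chi_D hT h hb h1 h2 h7 h8 h9
    obtain ⟨x, hx⟩ := h7.1
    obtain ⟨y, hy⟩ := h8.1
    have k4 : w ∈ verts X ∩ verts Y := Finset.mem_inter.2 ⟨vert1 hx, vert2 h4 hy⟩
    have k5 : 1 ≤ (verts X ∩ verts Y).card := Finset.card_pos.2 ⟨w, k4⟩
    have k6 : (1 : ℤ) ≤ (verts X ∩ verts Y).card := by exact_mod_cast k5
    have k7 : ((verts X ∩ verts Y).card : ℤ) ≤ 1 := by linarith
    have k8 : (verts X ∩ verts Y).card ≤ 1 := by exact_mod_cast k7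
    right; right; right; right
    refine ⟨X, Y, h1, h2, ⟨h3, h5, ⟨w, i, h7⟩, by linarith⟩, ⟨h4, h6, ⟨j, w, h8⟩, by linarith⟩,
      h7, h8, ?_⟩
    apply Finset.Subset.antisymm
    · intro v hv
      rw [Finset.mem_singleton]
      exact Finset.card_le_one.1 k8 v hv w k4
    · intro v hv
      rw [Finset.mem_singleton] at hv
      rw [hv]; exact k4

end Pool.Agent.H13.DA
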