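import Pool.Agent.H13.DA.Alg

/-!
# [H13 DA COLA] basic facts about `HD` and prescriptions along lists
-/

set_option autoImplicit false

namespace Pool.Agent.H13.DA

open Relation

variable {V : Type*}

/-- the prescription `f` of type `t` along a list -/
def Pres (t : Fin 3) (f : V → V → ZMod 2) (c : V → C4) (l : List V) : Prop :=
  l.IsChain (fun x y => ell t (c x + c y) = f x y)

theorem pres_nil (t : Fin 3) (f : V → V → ZMod 2) (c : V → C4) : Pres t f c [] := by
  simp [Pres]

theorem pres_one (t : Fin 3) (f : V → V → ZMod 2) (c : V → C4) (x : V) : Pres t f c [x] := by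
  simp [Pres]

theorem pres_cc {t : Fin 3} {f : V → V → ZMod 2} {c : V → C4} {x y : V} {l : List V} :
    Pres t f c (x :: y :: l) ↔ ell t (c x + c y) = f x y ∧ Pres t f c (y :: l) := by
  simp [Pres]

theorem pres_split {t : Fin 3} {f : V → V → ZMod 2} {c : V → C4} {x : V} {u v : List V} :
    Pres t f c (u ++ x :: v) ↔ Pres t f c (u ++ [x]) ∧ Pres t f c (x :: v) := by
  unfold Pres
  exact List.isChain_split

theorem pres_left {t : Fin 3} {f : V → V → ZMod 2} {c : V → C4} {u v : List V}
    (h : Pres t f c (u ++ v)) : Pres t f c u := by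
  unfold Pres at *
  exact (List.isChain_append.1 h).1

theorem pres_right {t : Fin 3} {f : V → V → ZMod 2} {c : V → C4} {u v : List V}
    (h : Pres t f c (u ++ v)) : Pres t f c v := by
  unfold Pres at *
  exact (List.isChain_append.1 h).2.1

/-- change of colouring and prescription -/
theorem pres_congr {t : Fin 3} {f f' : V → V → ZMod 2} {c c' : V → C4} :
    ∀ {l : List V}, l.Nodup → (∀ x ∈ l, ∀ y ∈ l, x ≠ y → c' x + c' y = c x + c y) →
      (∀ x ∈ l, ∀ y ∈ l, f' x y = f x y) → Pres t f c l → Pres t f' c' l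
  | [], _, _, _, _ => pres_nil _ _ _
  | [x], _, _, _, _ => pres_one _ _ _ _
  | x :: y :: l, hn, h1, h2, h => by
    rw [pres_cc] at h ⊢
    have hxy : x ≠ y := by
      intro e
      subst e
      simp at hn
    refine ⟨?_, pres_congr (List.Nodup.of_cons hn) ?_ ?_ h.2⟩
    · rw [h1 x (by simp) y (by simp) hxy, h2 x (by simp) y (by simp)]
      exact h.1
    · intro a ha b hb
      exact h1 a (List.mem_cons_of_mem _ ha) b (List.mem_cons_of_mem _ hb)
    · intro a ha b hb
      exact h2 a (List.mem_cons_of_mem _ ha) b (List.mem_cons_of_mem _ hb)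

theorem hd_mono' {n : ℕ} {S : Set V} {E : V → V → Prop} {l : List V} (h : HD n S E l) {n' : ℕ}
    (hn : n ≤ n') : HD n' S E l := by
  induction n', hn using Nat.le_induction with
  | base => exact h
  | succ k _ ih =>
    unfold HD
    exact Or.inl ih

theorem hd_basic {n : ℕ} : ∀ {S : Set V} {E : V → V → Prop} {l : List V}, HD n S E l →
    l.Nodup ∧ (∀ x ∈ l, x ∈ S) ∧ (∀ x y, E x y → E y x) ∧
      (∀ x y, E x y → x ∈ S ∧ y ∈ S ∧ x ≠ y) := by
  induction n with
  | zero =>
    intro S E l h
    unfold HD at h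
    obtain ⟨a, b, hab, rfl, rfl, hE⟩ := h
    refine ⟨by simp [hab], by simp, ?_, ?_⟩
    · intro x y hxy
      rw [hE] at hxy ⊢
      rcases hxy with ⟨rfl, rfl⟩ | ⟨rfl, rfl⟩
      · exact Or.inr ⟨rfl, rfl⟩
      · exact Or.inl ⟨rfl, rfl⟩
    · intro x y hxy
      rw [hE] at hxy
      rcases hxy with ⟨rfl, rfl⟩ | ⟨rfl, rfl⟩
      · exact ⟨by simp, by simp, hab⟩
      · exact ⟨by simp, by simp, hab.symm⟩
  | succ n ih =>
    intro S E l h
    unfold HD at h
    rcases h with h | ⟨h1, _, h3, h4, h5, _⟩
    · exact ih h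
    · exact ⟨h1, h3, h4, h5⟩

theorem hd_rot {n : ℕ} : ∀ {S : Set V} {E : V → V → Prop} {l l' : List V}, HD n S E l → l ~r l' →
    HD n S E l' := by
  induction n with
  | zero =>
    intro S E l l' h hr
    unfold HD at h ⊢
    obtain ⟨a, b, hab, rfl, rfl, hE⟩ := h
    have h2 : l' = [a, b] ∨ l' = [b, a] := by
      obtain ⟨k, rfl⟩ := hr
      rw [← List.rotate_mod]
      have : k % 2 = 0 ∨ k % 2 = 1 := by omega
      rcases this with h | h
      · left; simp [h]
      · right; simp [h]
    rcases h2 with rfl | rfl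
    · exact ⟨a, b, hab, rfl, rfl, hE⟩
    · refine ⟨b, a, hab.symm, rfl, by ext x; simp [or_comm], ?_⟩
      intro x y
      rw [hE]
      tauto
  | succ n ih =>
    intro S E l l' h hr
    unfold HD at h ⊢
    rcases h with h | ⟨h1, h2, h3, h4, h5, h6⟩
    · exact Or.inl (ih h hr)
    · refine Or.inr ⟨hr.nodup_iff.1 h1, ?_, ?_, h4, h5, ?_⟩
      · rw [← hr.perm.length_eq]; exact h2
      · intro x hx
        exact h3 x (hr.mem_iff.2 hx)
      · intro i j m hm
        obtain ⟨w, a1, a2, a3, a4, a5⟩ := h6 i j m (hr.trans hm)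
        refine ⟨w, a1, a2, a3, a4, ?_⟩
        rcases a5 with ⟨b1, b2⟩ | b
        · left
          exact ⟨fun hw => b1 (hr.mem_iff.2 hw), b2⟩
        · right
          exact b

/-- splitting a nodup list at an element is unique -/
theorem split_unique {w : V} : ∀ {u v u' v' : List V}, (u ++ w :: v).Nodup →
    u ++ w :: v = u' ++ w :: v' → u = u' ∧ v = v' := by
  intro u
  induction u with
  | nil =>
    intro v u' v' hn h
    cases u' with
    | nil => simpa using h
    | cons x u' =>
      simp only [List.nil_append, List.cons_append, List.cons.injEq] at h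
      obtain ⟨rfl, h⟩ := h
      exfalso
      simp only [List.nil_append, List.nodup_cons] at hn
      apply hn.1
      rw [h]
      simp
  | cons x u ih =>
    intro v u' v' hn h
    cases u' with
    | nil =>
      simp only [List.nil_append, List.cons_append, List.cons.injEq] at h
      obtain ⟨rfl, h⟩ := h
      exfalso
      simp at hn
    | cons y u' =>
      simp only [List.cons_append, List.cons.injEq] at h
      obtain ⟨rfl, h⟩ := h
      obtain ⟨h1, h2⟩ := ih (List.Nodup.of_cons hn) h
      exact ⟨by rw [h1], h2⟩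

end Pool.Agent.H13.DA
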