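import Pool.Agent.H13.DA.ColA

/-!
# [H13 DA COLB] the statements Sigma and Pi; Sigma follows from Pi
-/

set_option autoImplicit false

namespace Pool.Agent.H13.DA

open Relation

variable {V : Type*}

/-- The boundary cycle of the disc consists of the path `s R t` (type `b`) and the path `t L s`
(type `a`); all bits on both paths can be prescribed. -/
def SigN (o : V → V → ZMod 2) (n : ℕ) : Prop :=
  ∀ (S : Set V) (E : V → V → Prop) (s t : V) (R L : List V) (a b : Fin 3) (f : V → V → ZMod 2),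
    a ≠ b → HD n S E (s :: (R ++ t :: L)) →
    ∃ c : V → C4, Good E o c ∧ Pres b f c (s :: (R ++ [t])) ∧ Pres a f c (t :: (L ++ [s]))

/-- The cutting statement. The boundary cycle is `P ++ A ++ B ++ Q` with `P = i :: P' = P'' ++ [a0]`,
`Q = Q' ++ [j] = b0 :: Q''`. -/
def PiN (o : V → V → ZMod 2) (n : ℕ) : Prop :=
  ∀ (S : Set V) (E : V → V → Prop) (i j a0 b0 : V) (P' P'' A B Q' Q'' : List V) (a b g : Fin 3)
    (f : V → V → ZMod 2), a ≠ b → b ≠ g → g ≠ a →
    i :: P' = P'' ++ [a0] → Q' ++ [j] = b0 :: Q'' →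
    HD n S E ((i :: P') ++ (A ++ (B ++ (Q' ++ [j])))) →
    (∀ v ∈ Q' ++ [j], v ≠ j → ¬ E v a0 ∧ ∀ x ∈ A, ¬ E v x) →
    (i ≠ a0 → ∃ x ∈ A, E j x) →
    (∀ y ∈ i :: P', y ≠ i → ¬ E j y) →
    ∃ (c : V → C4) (V1 : Set V), (∀ x ∈ i :: P', x ∈ V1) ∧ (∀ x ∈ A, x ∈ V1) ∧
      (∀ x ∈ B, x ∉ V1) ∧ (∀ x ∈ Q' ++ [j], x ∉ V1) ∧
      (∀ x y, E x y → x ∈ V1 → y ∉ V1 → ell g (c x + c y) = o x y) ∧
      Pres g f c (i :: P') ∧ Pres b f c (a0 :: A) ∧ Pres a f c (B ++ [b0]) ∧
      Pres g f c (Q' ++ [j]) ∧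
      Good (fun x y => E x y ∧ x ∈ V1 ∧ y ∈ V1) o c ∧
      Good (fun x y => E x y ∧ x ∉ V1 ∧ y ∉ V1) o c

theorem exists_third : ∀ a b : Fin 3, a ≠ b → ∃ g : Fin 3, b ≠ g ∧ g ≠ a := by decide

theorem sig_of_pi {o : V → V → ZMod 2} (ho : Ori o) {n : ℕ} (h : PiN o n) : SigN o n := by
  classical
  intro S E s t R L a b f hab hD
  obtain ⟨g, hbg, hga⟩ := exists_third a b hab
  -- `t :: L = B ++ [b0]`
  obtain ⟨B, b0, hB⟩ : ∃ (B : List V) (b0 : V), t :: L = B ++ [b0] := by
    rcases List.eq_nil_or_concat (t :: L) with h0 | ⟨B, b0, h0⟩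
    · exact absurd h0 (by simp)
    · exact ⟨B, b0, by simpa using h0⟩
  -- `s :: R = A' ++ [s']`
  obtain ⟨A', s', hA⟩ : ∃ (A' : List V) (s' : V), s :: R = A' ++ [s'] := by
    rcases List.eq_nil_or_concat (s :: R) with h0 | ⟨B, b0, h0⟩
    · exact absurd h0 (by simp)
    · exact ⟨B, b0, by simpa using h0⟩
  have hlist : s :: (R ++ t :: L) = (s :: []) ++ (R ++ (B ++ ([] ++ [b0]))) := by
    rw [hB]; simp
  have hD' := hD
  rw [hlist] at hD'
  obtain ⟨hnd, hmem, hsym, hirr⟩ := hd_basic hD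
  obtain ⟨c, V1, h1, h2, h3, h4, h5, h6, h7, h8, h9, h10, h11⟩ :=
    h S E s b0 s b0 [] [] R B [] [] a b g f hab hbg hga (by simp) (by simp) hD'
      (by
        intro v hv hv'
        simp only [List.nil_append, List.mem_singleton] at hv
        exact absurd hv hv')
      (fun h => absurd rfl h)
      (by
        intro y hy hy'
        simp only [List.mem_singleton] at hy
        exact absurd hy hy')
  have hs1 : s ∈ V1 := h1 s (by simp)
  have hb1 : b0 ∉ V1 := h4 b0 (by simp)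
  have hR1 : ∀ x ∈ s :: R, x ∈ V1 := by
    intro x hx
    rcases List.mem_cons.1 hx with rfl | hx
    · exact hs1
    · exact h2 x hx
  have hL1 : ∀ x ∈ t :: L, x ∉ V1 := by
    intro x hx
    rw [hB] at hx
    rcases List.mem_append.1 hx with hx | hx
    · exact h3 x hx
    · exact h4 x (by simpa using hx)
  have hs'1 : s' ∈ V1 := hR1 s' (by rw [hA]; simp)
  have ht1 : t ∉ V1 := hL1 t (by simp)
  obtain ⟨τ, hτa, hτb⟩ := ell_solve a b hab (f b0 s + ell a (c b0 + c s))
    (f s' t + ell b (c s' + c t))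
  let c' : V → C4 := fun x => if x ∈ V1 then c x else c x + τ
  have hc1 : ∀ x, x ∈ V1 → c' x = c x := fun x hx => by simp [c', hx]
  have hc2 : ∀ x, x ∉ V1 → c' x = c x + τ := fun x hx => by simp [c', hx]
  have hndR : (s :: R).Nodup := by
    have : s :: (R ++ t :: L) = (s :: R) ++ (t :: L) := by simp
    rw [this] at hnd
    exact (List.nodup_append.1 hnd).1
  have hndL : (t :: L).Nodup := by
    have : s :: (R ++ t :: L) = (s :: R) ++ (t :: L) := by simp
    rw [this] at hnd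
    exact (List.nodup_append.1 hnd).2.1
  refine ⟨c', ?_, ?_, ?_⟩
  · refine good_cross V1 g (ell g τ) ho hsym ?_ ?_ ?_
    · intro x y hE hx hy
      rw [hc1 x hx, hc2 y hy, ← add_assoc, ell_add, h5 x y hE hx hy]
    · refine good_shift 0 ?_ h10
      intro x y hxy
      rw [hc1 x hxy.2.1, hc1 y hxy.2.2]
      simp
    · refine good_shift τ ?_ h11
      intro x y hxy
      rw [hc2 x hxy.2.1, hc2 y hxy.2.2]
      simp
  · -- `s R t`
    have e1 : s :: (R ++ [t]) = A' ++ s' :: [t] := by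
      rw [← List.cons_append, hA]; simp
    rw [e1, pres_split]
    constructor
    · rw [← hA]
      refine pres_congr hndR ?_ (fun _ _ _ _ => rfl) h7
      intro x hx y hy _
      rw [hc1 x (hR1 x hx), hc1 y (hR1 y hy)]
    · rw [pres_cc]
      refine ⟨?_, pres_one _ _ _ _⟩
      rw [hc1 s' hs'1, hc2 t ht1, ← add_assoc, ell_add, hτb, add_comm (f s' t), ← add_assoc,
        z2_self, zero_add]
  · have e1 : t :: (L ++ [s]) = B ++ b0 :: [s] := by
      rw [← List.cons_append, hB]; simp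
    rw [e1, pres_split]
    constructor
    · rw [← hB]
      have h8' : Pres a f c (t :: L) := by rw [hB]; exact h8
      refine pres_congr hndL ?_ (fun _ _ _ _ => rfl) h8'
      intro x hx y hy _
      rw [hc2 x (hL1 x hx), hc2 y (hL1 y hy)]
      have := c4_self τ
      calc c x + τ + (c y + τ) = c x + c y + (τ + τ) := by abel
        _ = _ := by rw [this, add_zero]
    · rw [pres_cc]
      refine ⟨?_, pres_one _ _ _ _⟩
      have e2 : c b0 + τ + c s = c b0 + c s + τ := by abel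
      rw [hc1 s hs1, hc2 b0 hb1, e2, ell_add, hτa, add_comm (f b0 s), ← add_assoc,
        z2_self, zero_add]

end Pool.Agent.H13.DA
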