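import Pool.Agent.H13.DA.ColB

/-!
# [H13 DA COLC] proof of the statement Pi
-/

set_option autoImplicit false

namespace Pool.Agent.H13.DA

open Relation

variable {V : Type*}

theorem pi_zero {o : V → V → ZMod 2} : PiN o 0 := by
  classical
  intro S E i j a0 b0 P' P'' A B Q' Q'' a b g f hab hbg hga hP hQ hD _ _ _
  unfold HD at hD
  obtain ⟨x, y, hxy, hl, rfl, hE⟩ := hD
  -- the list has length two
  have hlen := congrArg List.length hl
  simp only [List.length_append, List.length_cons, List.length_nil] at hlen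
  have hP0 : P' = [] := List.length_eq_zero_iff.1 (by omega)
  have hA0 : A = [] := List.length_eq_zero_iff.1 (by omega)
  have hB0 : B = [] := List.length_eq_zero_iff.1 (by omega)
  have hQ0 : Q' = [] := List.length_eq_zero_iff.1 (by omega)
  subst hP0 hA0 hB0 hQ0
  simp only [List.nil_append, List.cons_append, List.cons.injEq, and_true] at hl
  obtain ⟨rfl, rfl⟩ := hl
  obtain ⟨τ, hτ, _⟩ := ell_solve g a hga (o i j) 0
  refine ⟨fun z => if z = i then 0 else τ, {i}, by simp, by simp, by simp, ?_, ?_,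
    pres_one _ _ _ _, pres_one _ _ _ _, ?_, pres_one _ _ _ _, ?_, ?_⟩
  · intro z hz
    simp only [List.nil_append, List.mem_singleton] at hz
    subst hz
    simp [hxy.symm]
  · intro z z' hz h1 h2
    simp only [Set.mem_singleton_iff] at h1 h2
    subst h1
    rw [hE] at hz
    rcases hz with ⟨_, rfl⟩ | ⟨h3, _⟩
    · simp only [if_true, if_neg h2, zero_add]
      exact hτ
    · exact absurd h3 hxy
  · simpa using pres_one _ _ _ _
  · intro δ u hu
    obtain ⟨z, hz, _⟩ := TransGen.head'_iff.1 hu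
    obtain ⟨⟨h1, h2, h3⟩, _⟩ := hz
    simp only [Set.mem_singleton_iff] at h2 h3
    subst h2 h3
    rw [hE] at h1
    rcases h1 with ⟨_, h1⟩ | ⟨h1, _⟩
    · exact hxy h1
    · exact hxy h1
  · intro δ u hu
    obtain ⟨z, hz, _⟩ := TransGen.head'_iff.1 hu
    obtain ⟨⟨h1, h2, h3⟩, _⟩ := hz
    simp only [Set.mem_singleton_iff] at h2 h3
    rw [hE] at h1
    rcases h1 with ⟨h1, _⟩ | ⟨_, h1⟩
    · exact h2 h1
    · exact h3 h1


/-- Mode J, the third vertex `w` is not on the boundary. -/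
theorem pi_JI {o : V → V → ZMod 2} {n : ℕ} (ih : PiN o n) {S : Set V} {E : V → V → Prop}
    {i j a0 b0 w : V} {P' P'' A B Q' Q'' : List V} {a b g : Fin 3} {f : V → V → ZMod 2}
    (hab : a ≠ b) (hbg : b ≠ g) (hga : g ≠ a) (hP : i :: P' = P'' ++ [a0])
    (hQ : Q' ++ [j] = b0 :: Q'')
    (hnd : ((i :: P') ++ (A ++ (B ++ (Q' ++ [j])))).Nodup)
    (hsym : ∀ x y, E x y → E y x) (hirr : ∀ x y, E x y → x ∈ S ∧ y ∈ S ∧ x ≠ y)
    (I1 : ∀ v ∈ Q' ++ [j], v ≠ j → ¬ E v a0 ∧ ∀ x ∈ A, ¬ E v x)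
    (hJ : ∃ x ∈ A, E j x) (I3 : ∀ y ∈ i :: P', y ≠ i → ¬ E j y)
    (hjw : E j w) (hwl : w ∉ (i :: P') ++ (A ++ (B ++ (Q' ++ [j]))))
    (hD : HD n S (fun x y => E x y ∧ ¬ (x = i ∧ y = j) ∧ ¬ (x = j ∧ y = i))
      (i :: ((P' ++ (A ++ (B ++ Q'))) ++ [j, w]))) :
    ∃ (c : V → C4) (V1 : Set V), (∀ x ∈ i :: P', x ∈ V1) ∧ (∀ x ∈ A, x ∈ V1) ∧
      (∀ x ∈ B, x ∉ V1) ∧ (∀ x ∈ Q' ++ [j], x ∉ V1) ∧
      (∀ x y, E x y → x ∈ V1 → y ∉ V1 → ell g (c x + c y) = o x y) ∧
      Pres g f c (i :: P') ∧ Pres b f c (a0 :: A) ∧ Pres a f c (B ++ [b0]) ∧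
      Pres g f c (Q' ++ [j]) ∧
      Good (fun x y => E x y ∧ x ∈ V1 ∧ y ∈ V1) o c ∧
      Good (fun x y => E x y ∧ x ∉ V1 ∧ y ∉ V1) o c := by
  classical
  have hil : i ∈ (i :: P') ++ (A ++ (B ++ (Q' ++ [j]))) := by simp
  have hjl : j ∈ (i :: P') ++ (A ++ (B ++ (Q' ++ [j]))) := by simp
  have hwi : w ≠ i := fun h => hwl (h ▸ hil)
  have hwj : w ≠ j := fun h => hwl (h ▸ hjl)
  have hij : i ≠ j := by
    intro h
    subst h
    simp at hnd
  have hAi : ∀ x ∈ A, x ≠ i := by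
    rintro x hx rfl
    simp only [List.cons_append, List.nodup_cons, List.mem_append] at hnd
    exact hnd.1 (Or.inr (Or.inl hx))
  -- rotate the boundary of the smaller disc
  have hrot : (i :: ((P' ++ (A ++ (B ++ Q'))) ++ [j, w])) ~r
      ((w :: (i :: P')) ++ (A ++ (B ++ (Q' ++ [j])))) := by
    have e1 : (i :: ((P' ++ (A ++ (B ++ Q'))) ++ [j, w])) =
        ((i :: P') ++ (A ++ (B ++ (Q' ++ [j])))) ++ [w] := by simp
    have e2 : (w :: (i :: P')) ++ (A ++ (B ++ (Q' ++ [j]))) =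
        [w] ++ ((i :: P') ++ (A ++ (B ++ (Q' ++ [j])))) := by simp
    rw [e1, e2]
    exact List.isRotated_append
  have hD' := hd_rot hD hrot
  let f' : V → V → ZMod 2 := fun x y => if x = w ∧ y = i then o i j + o w j else f x y
  have hf' : ∀ x ∈ (i :: P') ++ (A ++ (B ++ (Q' ++ [j]))), ∀ y, f' x y = f x y := by
    intro x hx y
    have : x ≠ w := fun h => hwl (h ▸ hx)
    simp [f', this]
  obtain ⟨c, V1, h1, h2, h3, h4, h5, h6, h7, h8, h9, h10, h11⟩ :=
    ih S _ w j a0 b0 (i :: P') (w :: P'') A B Q' Q'' a b g f' hab hbg hga (by rw [hP]; simp) hQ hD'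
      (by
        intro v hv hvj
        obtain ⟨k1, k2⟩ := I1 v hv hvj
        exact ⟨fun h => k1 h.1, fun x hx h => k2 x hx h.1⟩)
      (by
        intro _
        obtain ⟨x, hx, hjx⟩ := hJ
        refine ⟨x, hx, hjx, fun h => hij h.1.symm, fun h => hAi x hx h.2⟩)
      (by
        intro y hy hyw h
        rcases List.mem_cons.1 hy with rfl | hy
        · exact hyw rfl
        · by_cases hyi : y = i
          · subst hyi
            exact h.2.2 ⟨rfl, rfl⟩
          · exact I3 y hy hyi h.1)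
  have hiV : i ∈ V1 := h1 i (by simp)
  have hwV : w ∈ V1 := h1 w (by simp)
  have hjV : j ∉ V1 := h4 j (by simp)
  have h6' := pres_cc.1 h6
  refine ⟨c, V1, fun x hx => h1 x (List.mem_cons_of_mem _ hx), h2, h3, h4, ?_, ?_, ?_, ?_, ?_, ?_, ?_⟩
  · intro x y hE hx hy
    by_cases hxy : x = i ∧ y = j
    · obtain ⟨rfl, rfl⟩ := hxy
      have k1 := h5 w y ⟨hsym _ _ hjw, fun h => hwi h.1, fun h => hwj h.1⟩ hwV hjV
      have k2 : ell g (c w + c x) = o x y + o w y := by
        rw [h6'.1]; simp [f']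
      have e : c x + c y = (c w + c x) + (c w + c y) := by
        have := c4_self (c w)
        calc c x + c y = c x + c y + 0 := by rw [add_zero]
          _ = c x + c y + (c w + c w) := by rw [this]
          _ = _ := by abel
      rw [e, ell_add, k1, k2, add_assoc, z2_self, add_zero]
    · refine h5 x y ⟨hE, hxy, ?_⟩ hx hy
      rintro ⟨rfl, rfl⟩
      exact hjV hx
  · refine pres_congr ?_ (fun _ _ _ _ _ => rfl) ?_ h6'.2
    · exact (List.nodup_append.1 hnd).1
    · intro x hx y _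
      exact (hf' x (List.mem_append_left _ hx) y).symm
  · refine pres_congr ?_ (fun _ _ _ _ _ => rfl) ?_ h7
    · rw [hP, List.append_assoc] at hnd
      have := (List.nodup_append.1 hnd).2.1
      have e : [a0] ++ (A ++ (B ++ (Q' ++ [j]))) = (a0 :: A) ++ (B ++ (Q' ++ [j])) := by simp
      rw [e] at this
      exact (List.nodup_append.1 this).1
    · intro x hx y _
      refine (hf' x ?_ y).symm
      rw [hP]
      rcases List.mem_cons.1 hx with rfl | hx
      · simp
      · simp [hx]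
  · have e : Pres a f' c (B ++ [b0]) := h8
    refine pres_congr ?_ (fun _ _ _ _ _ => rfl) ?_ e
    · rw [hQ] at hnd
      have k1 := (List.nodup_append.1 hnd).2.1
      have k2 := (List.nodup_append.1 k1).2.1
      have e2 : B ++ b0 :: Q'' = (B ++ [b0]) ++ Q'' := by simp
      rw [e2] at k2
      exact (List.nodup_append.1 k2).1
    · intro x hx y _
      refine (hf' x ?_ y).symm
      rw [hQ]
      rcases List.mem_append.1 hx with hx | hx
      · simp [hx]
      · simp only [List.mem_singleton] at hx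
        simp [hx]
  · refine pres_congr ?_ (fun _ _ _ _ _ => rfl) ?_ h9
    · have k1 := (List.nodup_append.1 hnd).2.1
      have k2 := (List.nodup_append.1 k1).2.1
      exact (List.nodup_append.1 k2).2.1
    · intro x hx y _
      refine (hf' x ?_ y).symm
      exact List.mem_append_right _ (List.mem_append_right _ (List.mem_append_right _ hx))
  · refine good_mono ?_ h10
    rintro x y ⟨hE, hx, hy⟩
    refine ⟨⟨hE, ?_, ?_⟩, hx, hy⟩
    · rintro ⟨rfl, rfl⟩; exact hjV hy
    · rintro ⟨rfl, rfl⟩; exact hjV hx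
  · refine good_mono ?_ h11
    rintro x y ⟨hE, hx, hy⟩
    refine ⟨⟨hE, ?_, ?_⟩, hx, hy⟩
    · rintro ⟨rfl, rfl⟩; exact hx hiV
    · rintro ⟨rfl, rfl⟩; exact hy hiV

end Pool.Agent.H13.DA
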