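import Pool.Agent.H13.DA.ColC

/-!
# [H13 DA COLD] proof of the statement Pi, mode T, interior vertex
-/

set_option autoImplicit false

namespace Pool.Agent.H13.DA

open Relation

variable {V : Type*}

/-- Mode T, the third vertex `w` is not on the boundary. -/
theorem pi_TI {o : V → V → ZMod 2} {n : ℕ} (ih : PiN o n) {S : Set V} {E : V → V → Prop}
    {i j b0 w : V} {A B Q' Q'' : List V} {a b g : Fin 3} {f : V → V → ZMod 2}
    (hab : a ≠ b) (hbg : b ≠ g) (hga : g ≠ a)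
    (hQ : Q' ++ [j] = b0 :: Q'')
    (hnd : ([i] ++ (A ++ (B ++ (Q' ++ [j])))).Nodup)
    (I1 : ∀ v ∈ Q' ++ [j], v ≠ j → ¬ E v i ∧ ∀ x ∈ A, ¬ E v x)
    (hT : ¬ ∃ x ∈ A, E j x)
    (hiw : E i w) (hwl : w ∉ [i] ++ (A ++ (B ++ (Q' ++ [j]))))
    (hD : HD n S (fun x y => E x y ∧ ¬ (x = i ∧ y = j) ∧ ¬ (x = j ∧ y = i))
      (i :: ((A ++ (B ++ Q')) ++ [j, w]))) :
    ∃ (c : V → C4) (V1 : Set V), (∀ x ∈ [i], x ∈ V1) ∧ (∀ x ∈ A, x ∈ V1) ∧
      (∀ x ∈ B, x ∉ V1) ∧ (∀ x ∈ Q' ++ [j], x ∉ V1) ∧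
      (∀ x y, E x y → x ∈ V1 → y ∉ V1 → ell g (c x + c y) = o x y) ∧
      Pres g f c [i] ∧ Pres b f c (i :: A) ∧ Pres a f c (B ++ [b0]) ∧
      Pres g f c (Q' ++ [j]) ∧
      Good (fun x y => E x y ∧ x ∈ V1 ∧ y ∈ V1) o c ∧
      Good (fun x y => E x y ∧ x ∉ V1 ∧ y ∉ V1) o c := by
  classical
  have hil : i ∈ [i] ++ (A ++ (B ++ (Q' ++ [j]))) := by simp
  have hjl : j ∈ [i] ++ (A ++ (B ++ (Q' ++ [j]))) := by simp
  have hwi : w ≠ i := fun h => hwl (h ▸ hil)
  have hwj : w ≠ j := fun h => hwl (h ▸ hjl)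
  have hij : i ≠ j := by
    intro h
    subst h
    simp at hnd
  have hD' : HD n S (fun x y => E x y ∧ ¬ (x = i ∧ y = j) ∧ ¬ (x = j ∧ y = i))
      ([i] ++ (A ++ (B ++ ((Q' ++ [j]) ++ [w])))) := by
    have e1 : (i :: ((A ++ (B ++ Q')) ++ [j, w])) =
        [i] ++ (A ++ (B ++ ((Q' ++ [j]) ++ [w]))) := by simp
    rw [← e1]
    exact hD
  let f' : V → V → ZMod 2 := fun x y => if x = j ∧ y = w then o i j + o i w else f x y
  have hf' : ∀ x, ∀ y ∈ [i] ++ (A ++ (B ++ (Q' ++ [j]))), f' x y = f x y := by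
    intro x y hy
    have : y ≠ w := fun h => hwl (h ▸ hy)
    simp [f', this]
  obtain ⟨c, V1, h1, h2, h3, h4, h5, h6, h7, h8, h9, h10, h11⟩ :=
    ih S _ i w i b0 [] [] A B (Q' ++ [j]) (Q'' ++ [w]) a b g f' hab hbg hga (by simp)
      (by rw [hQ]; simp) hD'
      (by
        intro v hv hvw
        rcases List.mem_append.1 hv with hv | hv
        · by_cases hvj : v = j
          · subst hvj
            exact ⟨fun h => h.2.2 ⟨rfl, rfl⟩, fun x hx h => hT ⟨x, hx, h.1⟩⟩
          · obtain ⟨k1, k2⟩ := I1 v hv hvj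
            exact ⟨fun h => k1 h.1, fun x hx h => k2 x hx h.1⟩
        · exact absurd (by simpa using hv) hvw)
      (fun h => absurd rfl h)
      (by
        intro y hy hyi
        simp only [List.mem_singleton] at hy
        exact absurd hy hyi)
  have hiV : i ∈ V1 := h1 i (by simp)
  have hwV : w ∉ V1 := h4 w (by simp)
  have hjV : j ∉ V1 := h4 j (by simp)
  -- the last pair `(j, w)`
  have h9' : Pres g f' c (Q' ++ j :: [w]) := by
    have e : (Q' ++ [j]) ++ [w] = Q' ++ j :: [w] := by simp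
    rw [← e]
    exact h9
  have h9'' := pres_split.1 h9'
  have hjw := (pres_cc.1 h9''.2).1
  refine ⟨c, V1, h1, h2, h3, fun x hx => h4 x (List.mem_append_left _ hx), ?_, pres_one _ _ _ _,
    ?_, ?_, ?_, ?_, ?_⟩
  · intro x y hE hx hy
    by_cases hxy : x = i ∧ y = j
    · obtain ⟨rfl, rfl⟩ := hxy
      have k1 := h5 x w ⟨hiw, fun h => hwj h.2, fun h => hwi h.2⟩ hiV hwV
      have k2 : ell g (c y + c w) = o x y + o x w := by
        rw [hjw]; simp [f']
      have e : c x + c y = (c y + c w) + (c x + c w) := by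
        have := c4_self (c w)
        calc c x + c y = c x + c y + 0 := by rw [add_zero]
          _ = c x + c y + (c w + c w) := by rw [this]
          _ = _ := by abel
      rw [e, ell_add, k1, k2, add_assoc, z2_self, add_zero]
    · refine h5 x y ⟨hE, hxy, ?_⟩ hx hy
      rintro ⟨rfl, rfl⟩
      exact hjV hx
  · refine pres_congr ?_ (fun _ _ _ _ _ => rfl) ?_ h7
    · have e : [i] ++ (A ++ (B ++ (Q' ++ [j]))) = (i :: A) ++ (B ++ (Q' ++ [j])) := by simp
      rw [e] at hnd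
      exact (List.nodup_append.1 hnd).1
    · intro x _ y hy
      refine (hf' x y ?_).symm
      rcases List.mem_cons.1 hy with rfl | hy
      · simp
      · simp [hy]
  · refine pres_congr ?_ (fun _ _ _ _ _ => rfl) ?_ h8
    · rw [hQ] at hnd
      have k1 := (List.nodup_append.1 hnd).2.1
      have k2 := (List.nodup_append.1 k1).2.1
      have e2 : B ++ b0 :: Q'' = (B ++ [b0]) ++ Q'' := by simp
      rw [e2] at k2
      exact (List.nodup_append.1 k2).1
    · intro x _ y hy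
      refine (hf' x y ?_).symm
      rw [hQ]
      rcases List.mem_append.1 hy with hy | hy
      · simp [hy]
      · simp only [List.mem_singleton] at hy
        simp [hy]
  · refine pres_congr ?_ (fun _ _ _ _ _ => rfl) ?_ h9''.1
    · have k1 := (List.nodup_append.1 hnd).2.1
      have k2 := (List.nodup_append.1 k1).2.1
      exact (List.nodup_append.1 k2).2.1
    · intro x _ y hy
      refine (hf' x y ?_).symm
      exact List.mem_append_right _ (List.mem_append_right _ (List.mem_append_right _ hy))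
  · refine good_mono ?_ h10
    rintro x y ⟨hE, hx, hy⟩
    refine ⟨⟨hE, ?_, ?_⟩, hx, hy⟩
    · rintro ⟨rfl, rfl⟩; exact hjV hy
    · rintro ⟨rfl, rfl⟩; exact hjV hx
  · refine good_mono ?_ h11
    rintro x y ⟨hE, hx, hy⟩
    refine ⟨⟨hE, ?_, ?_⟩, hx, hy⟩
    · rintro ⟨rfl, rfl⟩; exact hx hiV
    · rintro ⟨rfl, rfl⟩; exact hy hiV

end Pool.Agent.H13.DA
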