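import Pool.Agent.H13.DA.ColD

/-!
# [H13 DA COLE] proof of the statement Pi, mode J, vertex on the boundary
-/

set_option autoImplicit false

namespace Pool.Agent.H13.DA

open Relation

variable {V : Type*}

/-- Mode J, the third vertex `w` is in `A = A1 ++ w :: A2`. -/
theorem pi_JB {o : V → V → ZMod 2} {n : ℕ} (ih : PiN o n) (hs : SigN o n) {S S1 S2 : Set V}
    {E E1 E2 : V → V → Prop}
    {i j a0 b0 w : V} {P' P'' A1 A2 B Q' Q'' : List V} {a b g : Fin 3} {f : V → V → ZMod 2}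
    (hab : a ≠ b) (hbg : b ≠ g) (hga : g ≠ a) (hP : i :: P' = P'' ++ [a0])
    (hQ : Q' ++ [j] = b0 :: Q'')
    (hnd : ((i :: P') ++ ((A1 ++ w :: A2) ++ (B ++ (Q' ++ [j])))).Nodup)
    (hsym : ∀ x y, E x y → E y x)
    (I1 : ∀ v ∈ Q' ++ [j], v ≠ j → ¬ E v a0 ∧ ∀ x ∈ A1 ++ w :: A2, ¬ E v x)
    (hjw : E j w) (hS : S = S1 ∪ S2) (hS12 : S1 ∩ S2 = {w})
    (hE : ∀ x y, E x y ↔ E1 x y ∨ E2 x y ∨ (x = i ∧ y = j) ∨ (x = j ∧ y = i))
    (hD1 : HD n S1 E1 (i :: ((P' ++ A1) ++ [w])))
    (hD2 : HD n S2 E2 (w :: ((A2 ++ (B ++ Q')) ++ [j]))) :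
    ∃ (c : V → C4) (V1 : Set V), (∀ x ∈ i :: P', x ∈ V1) ∧ (∀ x ∈ A1 ++ w :: A2, x ∈ V1) ∧
      (∀ x ∈ B, x ∉ V1) ∧ (∀ x ∈ Q' ++ [j], x ∉ V1) ∧
      (∀ x y, E x y → x ∈ V1 → y ∉ V1 → ell g (c x + c y) = o x y) ∧
      Pres g f c (i :: P') ∧ Pres b f c (a0 :: (A1 ++ w :: A2)) ∧ Pres a f c (B ++ [b0]) ∧
      Pres g f c (Q' ++ [j]) ∧
      Good (fun x y => E x y ∧ x ∈ V1 ∧ y ∈ V1) o c ∧
      Good (fun x y => E x y ∧ x ∉ V1 ∧ y ∉ V1) o c := by
  classical
  obtain ⟨_, hm1, hsy1, hir1⟩ := hd_basic hD1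
  obtain ⟨hnd2, hm2, hsy2, hir2⟩ := hd_basic hD2
  have hw12 : ∀ x, x ∈ S1 → x ∈ S2 → x = w := by
    intro x h1 h2
    have : x ∈ S1 ∩ S2 := ⟨h1, h2⟩
    rw [hS12] at this
    exact this
  have hwS : w ∈ S1 ∩ S2 := by rw [hS12]; rfl
  have hiS : i ∈ S1 := hm1 i (by simp)
  have hjS : j ∈ S2 := hm2 j (by simp)
  have hwj : w ≠ j := by
    rintro rfl
    simp at hnd2
  have hij : i ≠ j := by
    intro h
    subst h
    simp at hnd
  have hwi : w ≠ i := by
    rintro rfl
    simp at hnd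
  have hiS2 : i ∉ S2 := fun h => hwi (hw12 i hiS h).symm
  have hjS1 : j ∉ S1 := fun h => hwj (hw12 j h hjS).symm
  -- Sigma for the first disc
  let f1 : V → V → ZMod 2 := fun x y => if x = w ∧ y = i then o i j + o w j else f x y
  have hf1 : ∀ x y, x ≠ w → f1 x y = f x y := by
    intro x y hx
    simp [f1, hx]
  have hrot1 : (i :: ((P' ++ A1) ++ [w])) ~r (a0 :: (A1 ++ w :: P'')) := by
    have e1 : i :: ((P' ++ A1) ++ [w]) = P'' ++ (a0 :: (A1 ++ [w])) := by
      have : i :: ((P' ++ A1) ++ [w]) = (i :: P') ++ (A1 ++ [w]) := by simp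
      rw [this, hP]; simp
    have e2 : a0 :: (A1 ++ w :: P'') = (a0 :: (A1 ++ [w])) ++ P'' := by simp
    rw [e1, e2]
    exact List.isRotated_append
  obtain ⟨c1, hg1, hr1, hl1⟩ := hs S1 E1 a0 w A1 P'' g b f1 hbg.symm (hd_rot hD1 hrot1)
  -- Pi for the second disc
  have hD2' : HD n S2 E2 ([w] ++ (A2 ++ (B ++ (Q' ++ [j])))) := by
    have e : [w] ++ (A2 ++ (B ++ (Q' ++ [j]))) = w :: ((A2 ++ (B ++ Q')) ++ [j]) := by simp
    rw [e]; exact hD2
  obtain ⟨c2, U, u1, u2, u3, u4, u5, _, u7, u8, u9, u10, u11⟩ :=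
    ih S2 E2 w j w b0 [] [] A2 B Q' Q'' a b g f hab hbg hga (by simp) hQ hD2'
      (by
        intro v hv hvj
        obtain ⟨_, k2⟩ := I1 v hv hvj
        exact ⟨fun h => k2 w (by simp) ((hE _ _).2 (Or.inr (Or.inl h))),
          fun x hx h => k2 x (by simp [hx]) ((hE _ _).2 (Or.inr (Or.inl h)))⟩)
      (fun h => absurd rfl h)
      (by
        intro y hy hyi
        simp only [List.mem_singleton] at hy
        exact absurd hy hyi)
  have hwU : w ∈ U := u1 w (by simp)
  have hjU : j ∉ U := u4 j (by simp)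
  let τ := c1 w + c2 w
  let c : V → C4 := fun x => if x ∈ S1 then c1 x + τ else c2 x
  have hc1 : ∀ x, x ∈ S1 → c x = c1 x + τ := fun x hx => by simp [c, hx]
  have hc2 : ∀ x, x ∈ S2 → c x = c2 x := by
    intro x hx
    by_cases h : x ∈ S1
    · have := hw12 x h hx
      subst this
      rw [hc1 x h]
      have e := c4_self (c1 x)
      calc c1 x + (c1 x + c2 x) = (c1 x + c1 x) + c2 x := by abel
        _ = _ := by rw [e, zero_add]
    · simp [c, h]
  have hc1s : ∀ x y, x ∈ S1 → y ∈ S1 → c x + c y = c1 x + c1 y := by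
    intro x y hx hy
    rw [hc1 x hx, hc1 y hy]
    have := c4_self τ
    calc c1 x + τ + (c1 y + τ) = c1 x + c1 y + (τ + τ) := by abel
      _ = _ := by rw [this, add_zero]
  let V1 : Set V := {x | x ∈ S1 ∨ (x ∈ S2 ∧ x ∈ U)}
  have hV1 : ∀ x, x ∈ S1 → x ∈ V1 := fun x hx => Or.inl hx
  have hV2 : ∀ x, x ∈ S2 → (x ∈ V1 ↔ x ∈ U) := by
    intro x hx
    constructor
    · rintro (h | h)
      · rw [hw12 x h hx]; exact hwU
      · exact h.2
    · intro h
      exact Or.inr ⟨hx, h⟩
  have hjV : j ∉ V1 := fun h => hjU ((hV2 j hjS).1 h)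
  have hmP : ∀ x ∈ i :: P', x ∈ S1 := by
    intro x hx
    apply hm1
    rcases List.mem_cons.1 hx with rfl | hx
    · simp
    · simp [hx]
  have ha0 : a0 ∈ S1 := hmP a0 (by rw [hP]; simp)
  have hmA1 : ∀ x ∈ A1, x ∈ S1 := fun x hx => hm1 x (by simp [hx])
  have hmA2 : ∀ x ∈ A2, x ∈ S2 := fun x hx => hm2 x (by simp [hx])
  have hmB : ∀ x ∈ B, x ∈ S2 := fun x hx => hm2 x (by simp [hx])
  have hmQ : ∀ x ∈ Q' ++ [j], x ∈ S2 := by
    intro x hx
    apply hm2
    simp only [List.mem_append, List.mem_singleton] at hx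
    rcases hx with hx | hx
    · simp [hx]
    · simp [hx]
  have hb0 : b0 ∈ S2 := hmQ b0 (by rw [hQ]; simp)
  refine ⟨c, V1, fun x hx => hV1 x (hmP x hx), ?_, ?_, ?_, ?_, ?_, ?_, ?_, ?_, ?_, ?_⟩
  · intro x hx
    simp only [List.mem_append, List.mem_cons] at hx
    rcases hx with hx | rfl | hx
    · exact hV1 x (hmA1 x hx)
    · exact hV1 x hwS.1
    · exact (hV2 x (hmA2 x hx)).2 (u2 x hx)
  · intro x hx h
    exact u3 x hx ((hV2 x (hmB x hx)).1 h)
  · intro x hx h
    exact u4 x hx ((hV2 x (hmQ x hx)).1 h)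
  · intro x y hxy hx hy
    rcases (hE x y).1 hxy with h | h | ⟨rfl, rfl⟩ | ⟨rfl, rfl⟩
    · exact absurd (hV1 y (hir1 _ _ h).2.1) hy
    · obtain ⟨k1, k2, _⟩ := hir2 _ _ h
      rw [hc2 x k1, hc2 y k2]
      exact u5 x y h ((hV2 x k1).1 hx) (fun h' => hy ((hV2 y k2).2 h'))
    · -- the edge `ij`
      have hEwj : E2 w y := by
        rcases (hE w y).1 (hsym _ _ hjw) with h | h | ⟨h, _⟩ | ⟨h, _⟩
        · exact absurd (hir1 _ _ h).2.1 hjS1
        · exact h
        · exact absurd h hwi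
        · exact absurd h hwj
      have k1 : ell g (c w + c y) = o w y := by
        rw [hc2 w hwS.2, hc2 y hjS]
        exact u5 w y hEwj hwU hjU
      have k2 : ell g (c w + c x) = o x y + o w y := by
        rw [hc1s w x hwS.1 hiS]
        have e : w :: (P'' ++ [a0]) = w :: x :: P' := by rw [hP]
        rw [e] at hl1
        rw [(pres_cc.1 hl1).1]
        simp [f1]
      have e : c x + c y = (c w + c x) + (c w + c y) := by
        have := c4_self (c w)
        calc c x + c y = c x + c y + 0 := by rw [add_zero]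
          _ = c x + c y + (c w + c w) := by rw [this]
          _ = _ := by abel
      rw [e, ell_add, k1, k2, add_assoc, z2_self, add_zero]
    · exact absurd hx hjV
  · -- `P`
    have e : w :: (P'' ++ [a0]) = w :: i :: P' := by rw [hP]
    rw [e] at hl1
    refine pres_congr (List.nodup_append.1 hnd).1 ?_ ?_ (pres_cc.1 hl1).2
    · intro x hx y hy _
      exact hc1s x y (hmP x hx) (hmP y hy)
    · intro x hx y _
      refine (hf1 x y ?_).symm
      rintro rfl
      have k := (List.nodup_append.1 hnd).2.2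
      exact k x hx x (by simp) rfl
  · -- `A`
    have e1 : a0 :: (A1 ++ w :: A2) = (a0 :: A1) ++ w :: A2 := by simp
    have hndA : ((a0 :: A1) ++ w :: A2).Nodup := by
      rw [hP, List.append_assoc] at hnd
      have k := (List.nodup_append.1 hnd).2.1
      have e : [a0] ++ ((A1 ++ w :: A2) ++ (B ++ (Q' ++ [j]))) =
        ((a0 :: A1) ++ w :: A2) ++ (B ++ (Q' ++ [j])) := by simp
      rw [e] at k
      exact (List.nodup_append.1 k).1
    rw [e1, pres_split]
    constructor
    · have hndA' : (a0 :: A1 ++ [w]).Nodup := by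
        have e : (a0 :: A1) ++ w :: A2 = (a0 :: A1 ++ [w]) ++ A2 := by simp
        rw [e] at hndA
        exact (List.nodup_append.1 hndA).1
      have hr1' : Pres b f1 c1 (a0 :: A1 ++ [w]) := by simpa using hr1
      -- `f1 = f` except for the pair `(w, i)`, but `i` only occurs as `a0`
      have hmem : ∀ x ∈ a0 :: A1 ++ [w], x ∈ S1 := by
        intro x hx
        simp only [List.mem_append, List.mem_cons, List.not_mem_nil, or_false,
          List.mem_singleton] at hx
        rcases hx with (rfl | hx) | rfl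
        · exact ha0
        · exact hmA1 x hx
        · exact hwS.1
      -- restrict first to pairs whose first entry is not `w`
      have key : ∀ (l : List V), (l ++ [w]).Nodup → (∀ x ∈ l ++ [w], x ∈ S1) →
          Pres b f1 c1 (l ++ [w]) → Pres b f c (l ++ [w]) := by
        intro l
        induction l with
        | nil => intro _ _ _; exact pres_one _ _ _ _
        | cons x l ihl =>
          intro hn hm hp
          cases l with
          | nil =>
            simp only [List.cons_append, List.nil_append] at hp hn hm ⊢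
            rw [pres_cc] at hp ⊢
            refine ⟨?_, pres_one _ _ _ _⟩
            rw [hc1s x w (hm x (by simp)) hwS.1, hp.1]
            apply hf1
            rintro rfl
            simp at hn
          | cons y l =>
            simp only [List.cons_append] at hp hn hm ⊢
            rw [pres_cc] at hp ⊢
            refine ⟨?_, ?_⟩
            · rw [hc1s x y (hm x (by simp)) (hm y (by simp)), hp.1]
              apply hf1
              rintro rfl
              simp at hn
            · have := ihl (List.Nodup.of_cons hn)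
                (fun z hz => hm z (List.mem_cons_of_mem _ hz)) hp.2
              simpa using this
      exact key (a0 :: A1) hndA' hmem hr1'
    · refine pres_congr (List.nodup_append.1 hndA).2.1 ?_ (fun _ _ _ _ => rfl) u7
      intro x hx y hy _
      have hm : ∀ z ∈ w :: A2, z ∈ S2 := by
        intro z hz
        rcases List.mem_cons.1 hz with rfl | hz
        · exact hwS.2
        · exact hmA2 z hz
      rw [hc2 x (hm x hx), hc2 y (hm y hy)]
  · -- `B`
    have hndB : (B ++ [b0]).Nodup := by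
      rw [hQ] at hnd
      have k1 := (List.nodup_append.1 hnd).2.1
      have k2 := (List.nodup_append.1 k1).2.1
      have e2 : B ++ b0 :: Q'' = (B ++ [b0]) ++ Q'' := by simp
      rw [e2] at k2
      exact (List.nodup_append.1 k2).1
    have hm : ∀ z ∈ B ++ [b0], z ∈ S2 := by
      intro z hz
      rcases List.mem_append.1 hz with hz | hz
      · exact hmB z hz
      · simp only [List.mem_singleton] at hz
        subst hz
        exact hb0
    refine pres_congr hndB ?_ (fun _ _ _ _ => rfl) u8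
    intro x hx y hy _
    rw [hc2 x (hm x hx), hc2 y (hm y hy)]
  · -- `Q`
    have hndQ : (Q' ++ [j]).Nodup := by
      have k1 := (List.nodup_append.1 hnd).2.1
      have k2 := (List.nodup_append.1 k1).2.1
      exact (List.nodup_append.1 k2).2.1
    refine pres_congr hndQ ?_ (fun _ _ _ _ => rfl) u9
    intro x hx y hy _
    rw [hc2 x (hmQ x hx), hc2 y (hmQ y hy)]
  · -- inside `V1`
    have g1 : Good E1 o c := good_shift τ (fun x y h => ⟨hc1 x (hir1 _ _ h).1,
      hc1 y (hir1 _ _ h).2.1⟩) hg1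
    have g2 : Good (fun x y => E2 x y ∧ x ∈ U ∧ y ∈ U) o c :=
      good_shift 0 (fun x y h => ⟨by rw [hc2 x (hir2 _ _ h.1).1, add_zero],
        by rw [hc2 y (hir2 _ _ h.1).2.1, add_zero]⟩) u10
    refine good_mono ?_ (good_cut hw12 (fun x y h => ⟨(hir1 _ _ h).1, (hir1 _ _ h).2.1⟩)
      (fun x y h => ⟨(hir2 _ _ h.1).1, (hir2 _ _ h.1).2.1⟩) g1 g2)
    rintro x y ⟨hxy, hx, hy⟩
    rcases (hE x y).1 hxy with h | h | ⟨rfl, rfl⟩ | ⟨rfl, rfl⟩
    · exact Or.inl h
    · obtain ⟨k1, k2, _⟩ := hir2 _ _ h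
      exact Or.inr ⟨h, (hV2 x k1).1 hx, (hV2 y k2).1 hy⟩
    · exact absurd hy hjV
    · exact absurd hx hjV
  · -- outside `V1`
    have g2 : Good (fun x y => E2 x y ∧ x ∉ U ∧ y ∉ U) o c :=
      good_shift 0 (fun x y h => ⟨by rw [hc2 x (hir2 _ _ h.1).1, add_zero],
        by rw [hc2 y (hir2 _ _ h.1).2.1, add_zero]⟩) u11
    refine good_mono ?_ g2
    rintro x y ⟨hxy, hx, hy⟩
    rcases (hE x y).1 hxy with h | h | ⟨rfl, rfl⟩ | ⟨rfl, rfl⟩
    · exact absurd (hV1 x (hir1 _ _ h).1) hx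
    · obtain ⟨k1, k2, _⟩ := hir2 _ _ h
      exact ⟨h, fun h' => hx ((hV2 x k1).2 h'), fun h' => hy ((hV2 y k2).2 h')⟩
    · exact absurd (hV1 x hiS) hx
    · exact absurd (hV1 y hiS) hy

end Pool.Agent.H13.DA
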