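import Pool.Agent.H13.DA.ColE

/-!
# [H13 DA COLF] proof of the statement Pi, mode T, vertex on the boundary
-/

set_option autoImplicit false

namespace Pool.Agent.H13.DA

open Relation

variable {V : Type*}

/-- Mode T, the third vertex `w` is in `B = B1 ++ w :: B2`. -/
theorem pi_TB {o : V → V → ZMod 2} {n : ℕ} (ih : PiN o n) (hs : SigN o n) {S1 S2 : Set V}
    {E E1 E2 : V → V → Prop}
    {i j b0 w : V} {A B1 B2 Q' Q'' : List V} {a b g : Fin 3} {f : V → V → ZMod 2}
    (hab : a ≠ b) (hbg : b ≠ g) (hga : g ≠ a)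
    (hQ : Q' ++ [j] = b0 :: Q'')
    (hnd : ([i] ++ (A ++ ((B1 ++ w :: B2) ++ (Q' ++ [j])))).Nodup)
    (hiw : E i w) (hS12 : S1 ∩ S2 = {w})
    (hE : ∀ x y, E x y ↔ E1 x y ∨ E2 x y ∨ (x = i ∧ y = j) ∨ (x = j ∧ y = i))
    (hD1 : HD n S1 E1 (i :: ((A ++ B1) ++ [w])))
    (hD2 : HD n S2 E2 (w :: ((B2 ++ Q') ++ [j]))) :
    ∃ (c : V → C4) (V1 : Set V), (∀ x ∈ [i], x ∈ V1) ∧ (∀ x ∈ A, x ∈ V1) ∧
      (∀ x ∈ B1 ++ w :: B2, x ∉ V1) ∧ (∀ x ∈ Q' ++ [j], x ∉ V1) ∧
      (∀ x y, E x y → x ∈ V1 → y ∉ V1 → ell g (c x + c y) = o x y) ∧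
      Pres g f c [i] ∧ Pres b f c (i :: A) ∧ Pres a f c ((B1 ++ w :: B2) ++ [b0]) ∧
      Pres g f c (Q' ++ [j]) ∧
      Good (fun x y => E x y ∧ x ∈ V1 ∧ y ∈ V1) o c ∧
      Good (fun x y => E x y ∧ x ∉ V1 ∧ y ∉ V1) o c := by
  classical
  obtain ⟨hnd1, hm1, hsy1, hir1⟩ := hd_basic hD1
  obtain ⟨hnd2, hm2, hsy2, hir2⟩ := hd_basic hD2
  have hw12 : ∀ x, x ∈ S1 → x ∈ S2 → x = w := by
    intro x h1 h2
    have : x ∈ S1 ∩ S2 := ⟨h1, h2⟩
    rw [hS12] at this
    exact this
  have hwS : w ∈ S1 ∩ S2 := by rw [hS12]; rfl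
  have hiS : i ∈ S1 := hm1 i (by simp)
  have hjS : j ∈ S2 := hm2 j (by simp)
  have hwj : w ≠ j := by
    rintro rfl
    simp at hnd2
  have hij : i ≠ j := by
    intro h
    subst h
    simp at hnd
  have hwi : w ≠ i := by
    rintro rfl
    simp at hnd1
  have hiS2 : i ∉ S2 := fun h => hwi (hw12 i hiS h).symm
  have hjS1 : j ∉ S1 := fun h => hwj (hw12 j h hjS).symm
  -- Sigma for the second disc
  let f2 : V → V → ZMod 2 := fun x y => if x = j ∧ y = w then o i j + o i w else f x y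
  have hf2 : ∀ x y, y ≠ w → f2 x y = f x y := by
    intro x y hy
    simp [f2, hy]
  have hrot2 : (w :: ((B2 ++ Q') ++ [j])) ~r (b0 :: (Q'' ++ w :: B2)) := by
    have e1 : w :: ((B2 ++ Q') ++ [j]) = (w :: B2) ++ (b0 :: Q'') := by
      rw [← hQ]; simp
    have e2 : b0 :: (Q'' ++ w :: B2) = (b0 :: Q'') ++ (w :: B2) := by simp
    rw [e1, e2]
    exact List.isRotated_append
  obtain ⟨c2, hg2, hr2, hl2⟩ := hs S2 E2 b0 w Q'' B2 a g f2 hga.symm (hd_rot hD2 hrot2)
  -- Pi for the first disc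
  have hD1' : HD n S1 E1 ([i] ++ (A ++ (B1 ++ ([] ++ [w])))) := by
    have e : [i] ++ (A ++ (B1 ++ ([] ++ [w]))) = i :: ((A ++ B1) ++ [w]) := by simp
    rw [e]; exact hD1
  obtain ⟨c1, U, u1, u2, u3, u4, u5, _, u7, u8, u9, u10, u11⟩ :=
    ih S1 E1 i w i w [] [] A B1 [] [] a b g f hab hbg hga (by simp) (by simp) hD1'
      (by
        intro v hv hvw
        simp only [List.nil_append, List.mem_singleton] at hv
        exact absurd hv hvw)
      (fun h => absurd rfl h)
      (by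
        intro y hy hyi
        simp only [List.mem_singleton] at hy
        exact absurd hy hyi)
  have hiU : i ∈ U := u1 i (by simp)
  have hwU : w ∉ U := u4 w (by simp)
  let τ := c1 w + c2 w
  let c : V → C4 := fun x => if x ∈ S1 then c1 x else c2 x + τ
  have hc1 : ∀ x, x ∈ S1 → c x = c1 x := fun x hx => by simp [c, hx]
  have hc2 : ∀ x, x ∈ S2 → c x = c2 x + τ := by
    intro x hx
    by_cases h : x ∈ S1
    · have := hw12 x h hx
      subst this
      rw [hc1 x h]
      have e := c4_self (c2 x)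
      calc c1 x = c1 x + 0 := by rw [add_zero]
        _ = c1 x + (c2 x + c2 x) := by rw [e]
        _ = c2 x + (c1 x + c2 x) := by abel
    · simp [c, h]
  have hc2s : ∀ x y, x ∈ S2 → y ∈ S2 → c x + c y = c2 x + c2 y := by
    intro x y hx hy
    rw [hc2 x hx, hc2 y hy]
    have := c4_self τ
    calc c2 x + τ + (c2 y + τ) = c2 x + c2 y + (τ + τ) := by abel
      _ = _ := by rw [this, add_zero]
  have hc1s : ∀ x y, x ∈ S1 → y ∈ S1 → c x + c y = c1 x + c1 y := by
    intro x y hx hy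
    rw [hc1 x hx, hc1 y hy]
  let V1 : Set V := {x | x ∈ S1 ∧ x ∈ U}
  have hV1 : ∀ x, x ∈ S1 → (x ∈ V1 ↔ x ∈ U) := fun x hx => ⟨fun h => h.2, fun h => ⟨hx, h⟩⟩
  have hV2 : ∀ x, x ∈ S2 → x ∉ V1 := by
    intro x hx h
    have := hw12 x h.1 hx
    subst this
    exact hwU h.2
  have hiV : i ∈ V1 := ⟨hiS, hiU⟩
  have hjV : j ∉ V1 := hV2 j hjS
  have hmA : ∀ x ∈ A, x ∈ S1 := fun x hx => hm1 x (by simp [hx])
  have hmB1 : ∀ x ∈ B1, x ∈ S1 := fun x hx => hm1 x (by simp [hx])
  have hmB2 : ∀ x ∈ B2, x ∈ S2 := fun x hx => hm2 x (by simp [hx])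
  have hmQ : ∀ x ∈ Q' ++ [j], x ∈ S2 := by
    intro x hx
    apply hm2
    simp only [List.mem_append, List.mem_singleton] at hx
    rcases hx with hx | hx
    · simp [hx]
    · simp [hx]
  have hb0 : b0 ∈ S2 := hmQ b0 (by rw [hQ]; simp)
  refine ⟨c, V1, ?_, ?_, ?_, ?_, ?_, pres_one _ _ _ _, ?_, ?_, ?_, ?_, ?_⟩
  · intro x hx
    simp only [List.mem_singleton] at hx
    subst hx
    exact hiV
  · intro x hx
    exact ⟨hmA x hx, u2 x hx⟩
  · intro x hx
    simp only [List.mem_append, List.mem_cons] at hx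
    rcases hx with hx | rfl | hx
    · exact fun h => u3 x hx h.2
    · exact hV2 x hwS.2
    · exact hV2 x (hmB2 x hx)
  · intro x hx
    exact hV2 x (hmQ x hx)
  · intro x y hxy hx hy
    rcases (hE x y).1 hxy with h | h | ⟨rfl, rfl⟩ | ⟨rfl, rfl⟩
    · obtain ⟨k1, k2, _⟩ := hir1 _ _ h
      rw [hc1 x k1, hc1 y k2]
      exact u5 x y h hx.2 (fun h' => hy ⟨k2, h'⟩)
    · exact absurd hx (hV2 x (hir2 _ _ h).1)
    · -- the edge `ij`
      have hEiw : E1 x w := by
        rcases (hE x w).1 hiw with h | h | ⟨_, h⟩ | ⟨_, h⟩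
        · exact h
        · exact absurd (hir2 _ _ h).1 hiS2
        · exact absurd h hwj
        · exact absurd h hwi
      have k1 : ell g (c x + c w) = o x w := by
        rw [hc1s x w hiS hwS.1]
        exact u5 x w hEiw hiU hwU
      have k2 : ell g (c y + c w) = o x y + o x w := by
        rw [hc2s y w hjS hwS.2]
        have e : b0 :: (Q'' ++ [w]) = Q' ++ y :: [w] := by
          have : b0 :: (Q'' ++ [w]) = (b0 :: Q'') ++ [w] := by simp
          rw [this, ← hQ]; simp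
        rw [e, pres_split] at hr2
        rw [(pres_cc.1 hr2.2).1]
        simp [f2]
      have e : c x + c y = (c y + c w) + (c x + c w) := by
        have := c4_self (c w)
        calc c x + c y = c x + c y + 0 := by rw [add_zero]
          _ = c x + c y + (c w + c w) := by rw [this]
          _ = _ := by abel
      rw [e, ell_add, k1, k2, add_assoc, z2_self, add_zero]
    · exact absurd hx hjV
  · -- `A`
    have hndA : (i :: A).Nodup := by
      have e : [i] ++ (A ++ ((B1 ++ w :: B2) ++ (Q' ++ [j]))) =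
        (i :: A) ++ ((B1 ++ w :: B2) ++ (Q' ++ [j])) := by simp
      rw [e] at hnd
      exact (List.nodup_append.1 hnd).1
    have hm : ∀ z ∈ i :: A, z ∈ S1 := by
      intro z hz
      rcases List.mem_cons.1 hz with rfl | hz
      · exact hiS
      · exact hmA z hz
    refine pres_congr hndA ?_ (fun _ _ _ _ => rfl) u7
    intro x hx y hy _
    exact hc1s x y (hm x hx) (hm y hy)
  · -- `B`
    have hndB : ((B1 ++ w :: B2) ++ [b0]).Nodup := by
      rw [hQ] at hnd
      have k1 := (List.nodup_append.1 hnd).2.1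
      have k2 := (List.nodup_append.1 k1).2.1
      have e2 : (B1 ++ w :: B2) ++ b0 :: Q'' = ((B1 ++ w :: B2) ++ [b0]) ++ Q'' := by simp
      rw [e2] at k2
      exact (List.nodup_append.1 k2).1
    have e3 : (B1 ++ w :: B2) ++ [b0] = B1 ++ w :: (B2 ++ [b0]) := by simp
    rw [e3] at hndB ⊢
    rw [pres_split]
    constructor
    · have hn1 : (B1 ++ [w]).Nodup := by
        have e : B1 ++ w :: (B2 ++ [b0]) = (B1 ++ [w]) ++ (B2 ++ [b0]) := by simp
        rw [e] at hndB
        exact (List.nodup_append.1 hndB).1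
      have hm : ∀ z ∈ B1 ++ [w], z ∈ S1 := by
        intro z hz
        rcases List.mem_append.1 hz with hz | hz
        · exact hmB1 z hz
        · simp only [List.mem_singleton] at hz
          subst hz
          exact hwS.1
      refine pres_congr hn1 ?_ (fun _ _ _ _ => rfl) u8
      intro x hx y hy _
      exact hc1s x y (hm x hx) (hm y hy)
    · have hn2 := (List.nodup_append.1 hndB).2.1
      have hm : ∀ z ∈ B2 ++ [b0], z ∈ S2 := by
        intro z hz
        rcases List.mem_append.1 hz with hz | hz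
        · exact hmB2 z hz
        · simp only [List.mem_singleton] at hz
          subst hz
          exact hb0
      -- treat the first pair separately
      obtain ⟨y, l, hyl⟩ : ∃ (y : V) (l : List V), B2 ++ [b0] = y :: l := by
        cases B2 with
        | nil => exact ⟨b0, [], rfl⟩
        | cons y l => exact ⟨y, l ++ [b0], rfl⟩
      rw [hyl] at hl2 hn2 hm ⊢
      rw [pres_cc] at hl2 ⊢
      have hyw : y ≠ w := by
        rintro rfl
        simp at hn2
      refine ⟨?_, ?_⟩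
      · rw [hc2s w y hwS.2 (hm y (by simp)), hl2.1, hf2 w y hyw]
      · refine pres_congr (List.Nodup.of_cons hn2) ?_ ?_ hl2.2
        · intro x hx z hz _
          exact hc2s x z (hm x hx) (hm z hz)
        · intro x _ z hz
          refine (hf2 x z ?_).symm
          rintro rfl
          exact (List.nodup_cons.1 hn2).1 hz
  · -- `Q`
    have hndQ : (Q' ++ [j]).Nodup := by
      have k1 := (List.nodup_append.1 hnd).2.1
      have k2 := (List.nodup_append.1 k1).2.1
      exact (List.nodup_append.1 k2).2.1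
    have hwQ : w ∉ Q' ++ [j] := by
      intro h
      have k1 := (List.nodup_append.1 hnd).2.1
      have k2 := (List.nodup_append.1 k1).2.1
      exact (List.nodup_append.1 k2).2.2 w (by simp) w h rfl
    have hr2' : Pres g f2 c2 (Q' ++ [j]) := by
      have e : b0 :: (Q'' ++ [w]) = (Q' ++ [j]) ++ [w] := by
        rw [hQ]; simp
      rw [e] at hr2
      exact pres_left hr2
    refine pres_congr hndQ ?_ ?_ hr2'
    · intro x hx y hy _
      exact hc2s x y (hmQ x hx) (hmQ y hy)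
    · intro x _ y hy
      refine (hf2 x y ?_).symm
      rintro rfl
      exact hwQ hy
  · -- inside `V1`
    have g1 : Good (fun x y => E1 x y ∧ x ∈ U ∧ y ∈ U) o c :=
      good_shift 0 (fun x y h => ⟨by rw [hc1 x (hir1 _ _ h.1).1, add_zero],
        by rw [hc1 y (hir1 _ _ h.1).2.1, add_zero]⟩) u10
    refine good_mono ?_ g1
    rintro x y ⟨hxy, hx, hy⟩
    rcases (hE x y).1 hxy with h | h | ⟨rfl, rfl⟩ | ⟨rfl, rfl⟩
    · exact ⟨h, hx.2, hy.2⟩
    · exact absurd hx (hV2 x (hir2 _ _ h).1)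
    · exact absurd hy hjV
    · exact absurd hx hjV
  · -- outside `V1`
    have g1 : Good (fun x y => E1 x y ∧ x ∉ U ∧ y ∉ U) o c :=
      good_shift 0 (fun x y h => ⟨by rw [hc1 x (hir1 _ _ h.1).1, add_zero],
        by rw [hc1 y (hir1 _ _ h.1).2.1, add_zero]⟩) u11
    have g2 : Good E2 o c := good_shift τ (fun x y h => ⟨hc2 x (hir2 _ _ h).1,
      hc2 y (hir2 _ _ h).2.1⟩) hg2
    refine good_mono ?_ (good_cut hw12 (fun x y h => ⟨(hir1 _ _ h.1).1, (hir1 _ _ h.1).2.1⟩)
      (fun x y h => ⟨(hir2 _ _ h).1, (hir2 _ _ h).2.1⟩) g1 g2)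
    rintro x y ⟨hxy, hx, hy⟩
    rcases (hE x y).1 hxy with h | h | ⟨rfl, rfl⟩ | ⟨rfl, rfl⟩
    · obtain ⟨k1, k2, _⟩ := hir1 _ _ h
      exact Or.inl ⟨h, fun h' => hx ⟨k1, h'⟩, fun h' => hy ⟨k2, h'⟩⟩
    · exact Or.inr h
    · exact absurd hiV hx
    · exact absurd hiV hy

end Pool.Agent.H13.DA
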