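import Pool.Agent.H13.DA.ColF

/-!
# [H13 DA COLG] every triangulated disc has a good colouring
-/

set_option autoImplicit false

namespace Pool.Agent.H13.DA

open Relation

variable {V : Type*}

/-- position of an element in an appended list -/
theorem split_mem {w : V} {l l' m1 m2 : List V} (hn : (l ++ l').Nodup)
    (h : l ++ l' = m1 ++ w :: m2) (hw : w ∈ l) : ∃ l2, l = m1 ++ w :: l2 ∧ m2 = l2 ++ l' := by
  obtain ⟨u, v, rfl⟩ := List.append_of_mem hw
  have e : (u ++ w :: v) ++ l' = u ++ w :: (v ++ l') := by simp
  rw [e] at h hn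
  obtain ⟨h1, h2⟩ := split_unique hn h
  exact ⟨v, by rw [← h1], h2.symm⟩

theorem split_mem' {w : V} {l l' m1 m2 : List V} (hn : (l ++ l').Nodup)
    (h : l ++ l' = m1 ++ w :: m2) (hw : w ∈ l') : ∃ l1, l' = l1 ++ w :: m2 ∧ m1 = l ++ l1 := by
  obtain ⟨u, v, rfl⟩ := List.append_of_mem hw
  have e : l ++ (u ++ w :: v) = (l ++ u) ++ w :: v := by simp
  rw [e] at h hn
  obtain ⟨h1, h2⟩ := split_unique hn h
  exact ⟨u, by rw [← h2], h1.symm⟩

theorem pi_all {o : V → V → ZMod 2} (ho : Ori o) (n : ℕ) : PiN o n := by
  induction n with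
  | zero => exact pi_zero
  | succ n ih =>
    have hs := sig_of_pi ho ih
    intro S E i j a0 b0 P' P'' A B Q' Q'' a b g f hab hbg hga hP hQ hD I1 I2 I3
    obtain ⟨hnd, hmem, hsym, hirr⟩ := hd_basic hD
    unfold HD at hD
    rcases hD with hD | ⟨_, _, _, _, _, hroot⟩
    · exact ih S E i j a0 b0 P' P'' A B Q' Q'' a b g f hab hbg hga hP hQ hD I1 I2 I3
    · have hform : (i :: P') ++ (A ++ (B ++ (Q' ++ [j]))) =
          i :: ((P' ++ (A ++ (B ++ Q'))) ++ [j]) := by simp
      obtain ⟨w, hEij, hEiw, hEjw, _, hcase⟩ := hroot i j (P' ++ (A ++ (B ++ Q')))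
        (by rw [hform])
      have hij : i ≠ j := (hirr _ _ hEij).2.2
      have hiw : i ≠ w := (hirr _ _ hEiw).2.2
      have hjw : j ≠ w := (hirr _ _ hEjw).2.2
      by_cases hJ : ∃ x ∈ A, E j x
      · -- mode J
        rcases hcase with ⟨hwl, hD'⟩ | ⟨m1, m2, S1, S2, E1, E2, hm, hS, hS12, hE, hD1, hD2⟩
        · exact pi_JI ih hab hbg hga hP hQ hnd hsym hirr I1 hJ I3 hEjw hwl hD'
        · obtain ⟨_, hm1, _, hir1⟩ := hd_basic hD1
          obtain ⟨_, hm2, _, hir2⟩ := hd_basic hD2
          have hnd' : (P' ++ (A ++ (B ++ Q'))).Nodup := by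
            rw [hform] at hnd
            exact (List.nodup_append.1 (List.Nodup.of_cons hnd)).1
          have hw12 : ∀ x, x ∈ S1 → x ∈ S2 → x = w := by
            intro x h1 h2
            have : x ∈ S1 ∩ S2 := ⟨h1, h2⟩
            rw [hS12] at this
            exact this
          have hwm : w ∈ P' ++ (A ++ (B ++ Q')) := by rw [hm]; simp
          have hwP : w ∉ P' := by
            intro h
            exact I3 w (List.mem_cons_of_mem _ h) hiw.symm hEjw
          have hwAB : w ∈ A ++ (B ++ Q') := (List.mem_append.1 hwm).resolve_left hwP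
          obtain ⟨l1, hl1, hl1'⟩ := split_mem' hnd' hm hwAB
          have hndA : (A ++ (B ++ Q')).Nodup := (List.nodup_append.1 hnd').2.1
          have hwA : w ∈ A := by
            by_contra hwA
            have hwB : w ∈ B ++ Q' := (List.mem_append.1 hwAB).resolve_left hwA
            obtain ⟨l2, _, hl2'⟩ := split_mem' hndA hl1 hwB
            obtain ⟨x, hxA, hjx⟩ := hJ
            have hx1 : x ∈ S1 := by
              apply hm1
              rw [hl1', hl2']
              simp [hxA]
            have hj2 : j ∈ S2 := hm2 j (by simp)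
            have hxi : x ≠ i := by
              rintro rfl
              simp only [List.cons_append, List.nodup_cons, List.mem_append] at hnd
              exact hnd.1 (Or.inr (Or.inl hxA))
            rcases (hE j x).1 hjx with h | h | ⟨h, _⟩ | ⟨_, h⟩
            · exact hjw (hw12 j (hir1 _ _ h).1 hj2)
            · exact hwA ((hw12 x hx1 (hir2 _ _ h).2.1) ▸ hxA)
            · exact hij h.symm
            · exact hxi h
          obtain ⟨A2, hA, hm2'⟩ := split_mem hndA hl1 hwA
          subst hA hm2' hl1'
          exact pi_JB ih hs hab hbg hga hP hQ hnd hsym I1 hEjw hS hS12 hE hD1 hD2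
      · -- mode T
        have hia : i = a0 := by
          by_contra h
          exact hJ (I2 h)
        subst hia
        have hP' : P' = [] := by
          rcases P' with _ | ⟨x, P'⟩
          · rfl
          · exfalso
            have hn : (i :: x :: P').Nodup := (List.nodup_append.1 hnd).1
            have h1 : i ∈ x :: P' := by
              have h2 : (i :: x :: P').getLast? = some i := by rw [hP]; simp
              have h3 : (x :: P').getLast? = some i := by
                rw [List.getLast?_cons_cons] at h2; exact h2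
              exact List.mem_of_getLast? h3
            exact (List.nodup_cons.1 hn).1 h1
        subst hP'
        rcases hcase with ⟨hwl, hD'⟩ | ⟨m1, m2, S1, S2, E1, E2, hm, hS, hS12, hE, hD1, hD2⟩
        · exact pi_TI ih hab hbg hga hQ hnd I1 hJ hEiw hwl hD'
        · have hnd' : (A ++ (B ++ Q')).Nodup := by
            rw [hform] at hnd
            exact (List.nodup_append.1 (List.Nodup.of_cons hnd)).1
          rw [List.nil_append] at hm
          have hwm : w ∈ A ++ (B ++ Q') := by rw [hm]; simp
          have hwA : w ∉ A := fun h => hJ ⟨w, h, hEjw⟩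
          have hwB : w ∈ B ++ Q' := (List.mem_append.1 hwm).resolve_left hwA
          have hwQ : w ∉ Q' := by
            intro h
            exact (I1 w (List.mem_append_left _ h) hjw.symm).1 (hsym _ _ hEiw)
          have hwB' : w ∈ B := (List.mem_append.1 hwB).resolve_right hwQ
          obtain ⟨l1, hl1, hl1'⟩ := split_mem' hnd' hm hwB
          obtain ⟨B2, hB, hm2'⟩ := split_mem (List.nodup_append.1 hnd').2.1 hl1 hwB'
          subst hB hm2' hl1'
          exact pi_TB ih hs hab hbg hga hQ hnd hEiw hS12 hE hD1 hD2

theorem sig_all {o : V → V → ZMod 2} (ho : Ori o) (n : ℕ) : SigN o n := sig_of_pi ho (pi_all ho n)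

theorem good_of_HD {o : V → V → ZMod 2} (ho : Ori o) {n : ℕ} {S : Set V} {E : V → V → Prop}
    {l : List V} (h : HD n S E l) : ∃ c : V → C4, Good E o c := by
  have hl : 2 ≤ l.length := by
    clear ho
    induction n generalizing S E l with
    | zero =>
      unfold HD at h
      obtain ⟨a, b, _, rfl, _⟩ := h
      simp
    | succ n ih =>
      unfold HD at h
      rcases h with h | ⟨_, h, _⟩
      · exact ih h
      · omega
  match l, h, hl with
  | s :: t :: L, h, _ =>
    obtain ⟨c, hc, _⟩ := sig_all ho n S E s t [] L 0 1 (fun _ _ => 0) (by decide) h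
    exact ⟨c, hc⟩

end Pool.Agent.H13.DA
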