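import Pool.Agent.H13.DA.Defs

/-!
# [H13 DA COMP] strong components of a triangle complex, removal of one triangle

* `rot3`, `tri_mem`: `(a,b,c) ∈ T` gives all three rotations (`IsCx.rot` twice); `tri a b c ⊆ T`.
* `conn_symm`: `ReflTransGen (Step T)` is symmetric for `IsCx T`: a rotation step `(a,b,c) → (b,c,a)`
  is undone by two rotation steps, a flip `(a,b,c) → (b,a,d)` by the flip back.
* `comp_isCx`, `comp_conn`, `mem_comp_self`, `comp_flip`, `sdiff_comp_isCx`: the component
  `comp T t` is closed under rotations and flips; `comp_conn`: a path of `T` that starts in `comp T t`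
  stays in `comp T t` (induction on `ReflTransGen`), so it is a path for `Step (comp T t)`.
* `sdiff_tri_isCx`: `T \ tri a b c` is closed under rotations.
* `del_cover`: show for every `s` reachable from `(a,b,c)` in `T`: `s ∈ tri a b c` or `s` is in one of
  the three components (induction on the path). Base: `(a,b,c) ∈ tri`. Step `s → s'`. If
  `s ∈ tri a b c`: a rotation stays in `tri`; a flip leads to `(b,a,x)`, `(c,b,x)` or `(a,c,x)`, which
  is not in `tri a b c` (`a,b,c` are distinct by `IsCx.ne` and `rot`), so `s'` is in its own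
  component. If `s ∈ comp T' r` (`T' = T \ tri a b c`): either `s' ∈ T'`, then `s' ∈ comp T' r`, or
  `s' ∈ tri a b c`.
* `comp_sub`: `comp (T \ tri a b c) t ⊆ T \ tri a b c`.
* `comp_union`: if `T = comp T s ∪ comp T t` and the two components are different then they are
  disjoint (equivalence classes): `comp_disj`.
-/

set_option autoImplicit false

namespace Pool.Agent.H13.DA

open Relation

variable {V : Type*} {T : Finset (V × V × V)}

theorem rot3 (hT : IsCx T) {a b c : V} (h : (a, b, c) ∈ T) : (b, c, a) ∈ T ∧ (c, a, b) ∈ T :=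
  ⟨hT.rot h, hT.rot (hT.rot h)⟩

theorem mem_tri {a b c : V} {s : V × V × V} :
    s ∈ tri a b c ↔ s = (a, b, c) ∨ s = (b, c, a) ∨ s = (c, a, b) := by
  simp [tri]

theorem tri_sub (hT : IsCx T) {a b c : V} (h : (a, b, c) ∈ T) : tri a b c ⊆ T := by
  intro s hs
  rcases mem_tri.1 hs with rfl | rfl | rfl
  · exact h
  · exact (rot3 hT h).1
  · exact (rot3 hT h).2

theorem cx_ne (hT : IsCx T) {a b c : V} (h : (a, b, c) ∈ T) : a ≠ b ∧ b ≠ c ∧ c ≠ a :=
  ⟨hT.ne h, hT.ne (rot3 hT h).1, hT.ne (rot3 hT h).2⟩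

theorem step_mem (hT : IsCx T) {s t : V × V × V} (h : Step T s t) : s ∈ T ∧ t ∈ T := by
  cases h with
  | rot h => exact ⟨h, hT.rot h⟩
  | flip h h' => exact ⟨h, h'⟩

theorem reach_mem (hT : IsCx T) {s t : V × V × V} (h : ReflTransGen (Step T) s t) (hs : s ∈ T) :
    t ∈ T := by
  induction h with
  | refl => exact hs
  | tail _ h _ => exact (step_mem hT h).2

theorem conn_symm (hT : IsCx T) {s t : V × V × V} (h : ReflTransGen (Step T) s t) :
    ReflTransGen (Step T) t s := by
  induction h with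
  | refl => exact ReflTransGen.refl
  | tail _ h ih =>
    refine ReflTransGen.trans ?_ ih
    cases h with
    | rot h =>
      exact (ReflTransGen.single (Step.rot (hT.rot h))).tail (Step.rot (hT.rot (hT.rot h)))
    | flip h h' => exact ReflTransGen.single (Step.flip h' h)

theorem mem_comp {s t : V × V × V} : s ∈ comp T t ↔ s ∈ T ∧ ReflTransGen (Step T) t s := by
  simp [comp]

theorem mem_comp_self {t : V × V × V} (ht : t ∈ T) : t ∈ comp T t :=
  mem_comp.2 ⟨ht, ReflTransGen.refl⟩

theorem comp_isCx (hT : IsCx T) (t : V × V × V) : IsCx (comp T t) where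
  rot := by
    intro a b c h
    obtain ⟨h1, h2⟩ := mem_comp.1 h
    exact mem_comp.2 ⟨hT.rot h1, h2.tail (Step.rot h1)⟩
  ne := fun h => hT.ne (mem_comp.1 h).1
  uniq := fun h h' => hT.uniq (mem_comp.1 h).1 (mem_comp.1 h').1

theorem comp_flip (_hT : IsCx T) (t : V × V × V) {a b c d : V} (h : (a, b, c) ∈ comp T t)
    (h' : (b, a, d) ∈ T) : (b, a, d) ∈ comp T t := by
  obtain ⟨h1, h2⟩ := mem_comp.1 h
  exact mem_comp.2 ⟨h', h2.tail (Step.flip h1 h')⟩

theorem comp_path (hT : IsCx T) (t : V × V × V) {s s' : V × V × V} (hs : s ∈ comp T t)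
    (h : ReflTransGen (Step T) s s') : ReflTransGen (Step (comp T t)) s s' ∧ s' ∈ comp T t := by
  induction h with
  | refl => exact ⟨ReflTransGen.refl, hs⟩
  | tail _ h ih =>
    obtain ⟨ih1, ih2⟩ := ih
    cases h with
    | rot h =>
      exact ⟨ih1.tail (Step.rot ih2), (comp_isCx hT t).rot ih2⟩
    | flip h h' =>
      have h3 := comp_flip hT t ih2 h'
      exact ⟨ih1.tail (Step.flip ih2 h3), h3⟩

theorem comp_conn (hT : IsCx T) (t : V × V × V) : Conn (comp T t) := by
  intro s hs s' hs'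
  refine (comp_path hT t hs ?_).1
  exact (conn_symm hT (mem_comp.1 hs).2).trans (mem_comp.1 hs').2

theorem comp_eq (hT : IsCx T) {s t : V × V × V} (h : ReflTransGen (Step T) s t) :
    comp T s = comp T t := by
  ext x
  rw [mem_comp, mem_comp]
  exact ⟨fun hx => ⟨hx.1, (conn_symm hT h).trans hx.2⟩, fun hx => ⟨hx.1, h.trans hx.2⟩⟩

theorem comp_disj (hT : IsCx T) {s t : V × V × V} (h : ¬ ReflTransGen (Step T) s t) :
    Disjoint (comp T s) (comp T t) := by
  rw [Finset.disjoint_left]
  intro x hx hx'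
  exact h ((mem_comp.1 hx).2.trans (conn_symm hT (mem_comp.1 hx').2))

theorem conn_of_comp (hT : IsCx T) {t : V × V × V} (h : ∀ s ∈ T, s ∈ comp T t) : Conn T := by
  intro s hs s' hs'
  exact (conn_symm hT (mem_comp.1 (h s hs)).2).trans (mem_comp.1 (h s' hs')).2

theorem sdiff_comp_isCx [DecidableEq V] (hT : IsCx T) (t : V × V × V) : IsCx (T \ comp T t) where
  rot := by
    intro a b c h
    rw [Finset.mem_sdiff] at h ⊢
    refine ⟨hT.rot h.1, fun h' => h.2 ?_⟩
    exact (comp_isCx hT t).rot ((comp_isCx hT t).rot h')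
  ne := fun h => hT.ne (Finset.mem_sdiff.1 h).1
  uniq := fun h h' => hT.uniq (Finset.mem_sdiff.1 h).1 (Finset.mem_sdiff.1 h').1

theorem tri_rot {a b c x y z : V} (h : (x, y, z) ∈ tri a b c) : (y, z, x) ∈ tri a b c := by
  rw [mem_tri] at h ⊢
  simp only [Prod.mk.injEq] at h ⊢
  tauto

theorem sdiff_tri_isCx [DecidableEq V] (hT : IsCx T) {a b c : V} (_h : (a, b, c) ∈ T) :
    IsCx (T \ tri a b c) where
  rot := by
    intro x y z h
    rw [Finset.mem_sdiff] at h ⊢
    exact ⟨hT.rot h.1, fun h' => h.2 (tri_rot (tri_rot h'))⟩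
  ne := fun h => hT.ne (Finset.mem_sdiff.1 h).1
  uniq := fun h h' => hT.uniq (Finset.mem_sdiff.1 h).1 (Finset.mem_sdiff.1 h').1

theorem tri_isCx (hT : IsCx T) {a b c : V} (h : (a, b, c) ∈ T) : IsCx (tri a b c) where
  rot := fun h => tri_rot h
  ne := fun h' => hT.ne (tri_sub hT h h')
  uniq := fun h1 h2 => hT.uniq (tri_sub hT h h1) (tri_sub hT h h2)

/-- a flip of an edge of the removed triangle is still there -/
theorem flip_mem_sdiff [DecidableEq V] (hT : IsCx T) {a b c x : V} (h : (a, b, c) ∈ T)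
    (hx : (b, a, x) ∈ T) : (b, a, x) ∈ T \ tri a b c := by
  rw [Finset.mem_sdiff]
  refine ⟨hx, fun h' => ?_⟩
  obtain ⟨h1, h2, h3⟩ := cx_ne hT h
  rw [mem_tri] at h'
  simp only [Prod.mk.injEq] at h'
  rcases h' with ⟨e, _⟩ | ⟨_, e, _⟩ | ⟨e, _⟩
  · exact h1 e.symm
  · exact h3 e.symm
  · exact h2 e

theorem tri_eq (a b c : V) : tri a b c = tri b c a := by
  ext s
  rw [mem_tri, mem_tri]
  tauto

theorem del_cover [DecidableEq V] (hT : IsCx T) (hc : Conn T) {a b c : V} (h : (a, b, c) ∈ T)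
    {s : V × V × V} (hs : s ∈ T \ tri a b c) :
    (∃ x, (b, a, x) ∈ T \ tri a b c ∧ s ∈ comp (T \ tri a b c) (b, a, x)) ∨
    (∃ x, (c, b, x) ∈ T \ tri a b c ∧ s ∈ comp (T \ tri a b c) (c, b, x)) ∨
    (∃ x, (a, c, x) ∈ T \ tri a b c ∧ s ∈ comp (T \ tri a b c) (a, c, x)) := by
  have hT' := sdiff_tri_isCx hT h
  have key : ∀ s, ReflTransGen (Step T) (a, b, c) s → s ∈ tri a b c ∨
      ((∃ x, (b, a, x) ∈ T \ tri a b c ∧ s ∈ comp (T \ tri a b c) (b, a, x)) ∨
      (∃ x, (c, b, x) ∈ T \ tri a b c ∧ s ∈ comp (T \ tri a b c) (c, b, x)) ∨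
      (∃ x, (a, c, x) ∈ T \ tri a b c ∧ s ∈ comp (T \ tri a b c) (a, c, x))) := by
    intro s hs
    induction hs with
    | refl => exact Or.inl (mem_tri.2 (Or.inl rfl))
    | @tail s' s'' _ hstep ih =>
      by_cases hs'' : s'' ∈ tri a b c
      · exact Or.inl hs''
      · right
        have hs2 : s'' ∈ T \ tri a b c := Finset.mem_sdiff.2 ⟨(step_mem hT hstep).2, hs''⟩
        rcases ih with ih | ih
        · -- `s'` in the triangle: the step is a flip
          cases hstep with
          | rot h' => exact absurd (tri_rot ih) hs''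
          | @flip p q r x h' h'' =>
            rw [mem_tri] at ih
            simp only [Prod.mk.injEq] at ih
            rcases ih with ⟨rfl, rfl, rfl⟩ | ⟨rfl, rfl, rfl⟩ | ⟨rfl, rfl, rfl⟩
            · exact Or.inl ⟨x, hs2, mem_comp_self hs2⟩
            · exact Or.inr (Or.inl ⟨x, hs2, mem_comp_self hs2⟩)
            · exact Or.inr (Or.inr ⟨x, hs2, mem_comp_self hs2⟩)
        · -- `s'` in one of the components
          have hgen : ∀ r, s' ∈ comp (T \ tri a b c) r → s'' ∈ comp (T \ tri a b c) r := by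
            intro r hr
            cases hstep with
            | rot h' => exact (comp_isCx hT' r).rot hr
            | flip h' h'' => exact comp_flip hT' r hr hs2
          rcases ih with ⟨x, h1, h2⟩ | ⟨x, h1, h2⟩ | ⟨x, h1, h2⟩
          · exact Or.inl ⟨x, h1, hgen _ h2⟩
          · exact Or.inr (Or.inl ⟨x, h1, hgen _ h2⟩)
          · exact Or.inr (Or.inr ⟨x, h1, hgen _ h2⟩)
  obtain ⟨h1, h2⟩ := Finset.mem_sdiff.1 hs
  exact (key s (hc _ h _ h1)).resolve_left h2

end Pool.Agent.H13.DA
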