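import Mathlib

/-!
# Acyclic dichromatic number of planar oriented graphs: definitions

`C4` is the set of the four colours. `o x y = 1` means that the edge `xy` points from `x` to `y`
(`o x y + o y x = 1`). `Good E o c`: the directed graph on the edges `E` has no closed directed walk
all whose arcs have the same colour sum `δ` (`δ = 0`: monochromatic, `δ ≠ 0`: alternating between two
colours).

`IsCx T`: finite oriented triangle complex, a set of ordered triples closed under rotation.
-/

set_option autoImplicit false

namespace Pool.Agent.H13.DA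

open Relation

/-- the four colours -/
abbrev C4 := ZMod 2 × ZMod 2

/-- the three nonzero linear functionals on the colours -/
def ell (t : Fin 3) (x : C4) : ZMod 2 :=
  if t = 0 then x.1 else if t = 1 then x.2 else x.1 + x.2

/-- no closed directed walk all whose arcs have the same colour sum -/
def Good {V : Type*} (E : V → V → Prop) (o : V → V → ZMod 2) (c : V → C4) : Prop :=
  ∀ (δ : C4) (u : V), ¬ TransGen (fun x y => E x y ∧ o x y = 1 ∧ c x + c y = δ) u u

/-- orientation bits -/
def Ori {V : Type*} (o : V → V → ZMod 2) : Prop := ∀ x y, x ≠ y → o x y + o y x = 1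

/-- `HD n S E l`: `(S, E)` is a triangulated disc with vertex set `S`, edge relation `E`, boundary
cycle `l` and at most `n` triangles (a single edge `ab` counts as a disc with boundary `[a, b]`).
For every boundary edge `ij` there is a third vertex `w` of the triangle at `ij`; either `w` is not
on the boundary and removing the edge `ij` gives a disc, or removing `ij` leaves two discs that
share only `w`. -/
def HD {V : Type*} : ℕ → Set V → (V → V → Prop) → List V → Prop
  | 0, S, E, l => ∃ a b, a ≠ b ∧ l = [a, b] ∧ S = {a, b} ∧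
      ∀ x y, E x y ↔ (x = a ∧ y = b) ∨ (x = b ∧ y = a)
  | n + 1, S, E, l => HD n S E l ∨ (l.Nodup ∧ 3 ≤ l.length ∧ (∀ x ∈ l, x ∈ S) ∧
      (∀ x y, E x y → E y x) ∧ (∀ x y, E x y → x ∈ S ∧ y ∈ S ∧ x ≠ y) ∧
      ∀ i j m, l ~r (i :: (m ++ [j])) →
        ∃ w, E i j ∧ E i w ∧ E j w ∧ w ∈ S ∧
          ((w ∉ l ∧ HD n S (fun x y => E x y ∧ ¬ (x = i ∧ y = j) ∧ ¬ (x = j ∧ y = i))
              (i :: (m ++ [j, w])))
          ∨ ∃ m1 m2 S1 S2 E1 E2, m = m1 ++ w :: m2 ∧ S = S1 ∪ S2 ∧ S1 ∩ S2 = {w} ∧
              (∀ x y, E x y ↔ E1 x y ∨ E2 x y ∨ (x = i ∧ y = j) ∨ (x = j ∧ y = i)) ∧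
              HD n S1 E1 (i :: (m1 ++ [w])) ∧ HD n S2 E2 (w :: (m2 ++ [j]))))

section cx

variable {V : Type*}

/-- A finite oriented triangle complex: a finite set of ordered triples, closed under rotation,
with `a ≠ b` for `(a, b, c) ∈ T`, in which every ordered pair starts at most one triple. -/
structure IsCx (T : Finset (V × V × V)) : Prop where
  rot : ∀ {a b c}, (a, b, c) ∈ T → (b, c, a) ∈ T
  ne : ∀ {a b c}, (a, b, c) ∈ T → a ≠ b
  uniq : ∀ {a b c d}, (a, b, c) ∈ T → (a, b, d) ∈ T → c = d

/-- a rotation of a triple or a flip across its first edge -/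
inductive Step (T : Finset (V × V × V)) : V × V × V → V × V × V → Prop
  | rot {a b c : V} : (a, b, c) ∈ T → Step T (a, b, c) (b, c, a)
  | flip {a b c d : V} : (a, b, c) ∈ T → (b, a, d) ∈ T → Step T (a, b, c) (b, a, d)

/-- strong connectivity: any two triangles are joined by a chain of triangles sharing edges -/
def Conn (T : Finset (V × V × V)) : Prop := ∀ s ∈ T, ∀ t ∈ T, ReflTransGen (Step T) s t

/-- no boundary -/
def Clos (T : Finset (V × V × V)) : Prop := ∀ a b c, (a, b, c) ∈ T → ∃ d, (b, a, d) ∈ T

/-- the directed edge `ab` is on the boundary -/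
def Bd (T : Finset (V × V × V)) (a b : V) : Prop := (∃ c, (a, b, c) ∈ T) ∧ ∀ c, (b, a, c) ∉ T

/-- adjacency in the 1-skeleton -/
def Adj (T : Finset (V × V × V)) (a b : V) : Prop := (∃ c, (a, b, c) ∈ T) ∨ ∃ c, (b, a, c) ∈ T

/-- `a` is followed by `b` in the list -/
def Nx : List V → V → V → Prop
  | [], _, _ => False
  | [_], _, _ => False
  | x :: y :: l, a, b => (a = x ∧ b = y) ∨ Nx (y :: l) a b

/-- `a` is followed by `b` in the cyclic list -/
def Cyc : List V → V → V → Prop
  | [], _, _ => False
  | x :: l, a, b => Nx (x :: (l ++ [x])) a b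

/-- `l` is the boundary cycle of `T` -/
structure IsBd (T : Finset (V × V × V)) (l : List V) : Prop where
  nodup : l.Nodup
  len : 3 ≤ l.length
  iff : ∀ a b, Bd T a b ↔ Cyc l a b

open Classical in
/-- the three rotations of a triple -/
noncomputable def tri (a b c : V) : Finset (V × V × V) := {(a, b, c), (b, c, a), (c, a, b)}

open Classical in
/-- the strong component of `t` -/
noncomputable def comp (T : Finset (V × V × V)) (t : V × V × V) : Finset (V × V × V) :=
  T.filter (fun s => ReflTransGen (Step T) t s)

open Classical in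
/-- the vertices -/
noncomputable def verts (T : Finset (V × V × V)) : Finset V := T.image (fun t => t.1)

open Classical in
/-- the edges -/
noncomputable def edges (T : Finset (V × V × V)) : Finset (Sym2 V) :=
  T.image (fun t => s(t.1, t.2.1))

/-- three times the Euler characteristic -/
noncomputable def chi (T : Finset (V × V × V)) : ℤ :=
  3 * (verts T).card - 3 * (edges T).card + T.card

/-- a strongly connected complex with boundary and Euler characteristic one -/
structure Disc (T : Finset (V × V × V)) : Prop where
  cx : IsCx T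
  conn : Conn T
  bd : ∃ a b, Bd T a b
  chi : chi T = 3

end cx

end Pool.Agent.H13.DA
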