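import Pool.Agent.H13.DA.RotA

/-!
# [H13 DA ROTC] strong components of the triangulated surface = components of the graph

`lab R w` is the connected component of `G` to which the vertex `w` of the triangulation belongs
(for a face: the component of the tail of any of its darts; `faceStep` keeps the component, as
`(faceStep d).fst = d.snd` is adjacent to `d.fst`; for `SameCycle` use `Int` powers, or show it for
`faceStep` and its inverse; `Equiv.Perm.SameCycle` induction).

* `lab_adj`: the first two entries of a triple of `RT R` have the same label (look at the nine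
  patterns), hence all three; so a step does not change the label of the first entry (`lab_step`).
* connectivity. Write `t ~ t'` for `ReflTransGen (Step (RT R)) t t'` (symmetric by `conn_symm`,
  `rt_cx`). Every triple is `~` to its rotations. `A d ~ B (d,false)` (flip over `v (d,false)`),
  `B r ~ C r` (flip over `r (ps r)`: `B r` rotated is `(ps r, r, h)`), `C r ~ C (ps r)` (flip over
  `(ps r) f`), `A d ~ A d.symm`. So everything is `~` to some `A d` (`B r`, `C r` with `r = (d, b)` go
  to `C (d,false)` and `A d`), `A d ~ A (faceStep d)` and `A d ~ A d.symm`, hence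
  `A d ~ A (next d)` (`next d = faceStep d.symm`), hence `A d ~ A d'` if
  `d.fst = d'.fst` (`R.cyclic`), hence along walks for all `d, d'` with `G.Reachable d.fst d'.fst`
  (induction on the walk: first dart of the walk, its reverse).
-/

set_option autoImplicit false

namespace Pool.Agent.H13.DA

open Relation SimpleGraph Pool.Agent.H29.Tor

variable {V : Type*} {G : SimpleGraph V}

theorem fs_comp (R : RotationSystem G) (d : G.Dart) :
    G.connectedComponentMk (R.faceStep d).fst = G.connectedComponentMk d.fst := by
  rw [fs_fst]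
  exact (ConnectedComponent.connectedComponentMk_eq_of_adj d.adj).symm

theorem face_comp (R : RotationSystem G) (d d' : G.Dart)
    (h : (Equiv.Perm.SameCycle.setoid R.faceStep).r d d') :
    G.connectedComponentMk d.fst = G.connectedComponentMk d'.fst := by
  obtain ⟨i, hi⟩ := (show R.faceStep.SameCycle d d' from h)
  have key : ∀ i : ℤ, ∀ d : G.Dart,
      G.connectedComponentMk ((R.faceStep ^ i) d).fst = G.connectedComponentMk d.fst := by
    intro i
    induction i using Int.induction_on with
    | zero => intro d; simp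
    | succ n ih =>
      intro d
      rw [zpow_add_one, Equiv.Perm.mul_apply, ih, fs_comp]
    | pred n ih =>
      intro d
      rw [zpow_sub_one, Equiv.Perm.mul_apply, ih]
      have := fs_comp R (R.faceStep⁻¹ d)
      rw [← this]
      simp
  rw [← hi, key]

/-- the component of `G` of a vertex of the triangulation -/
def lab (R : RotationSystem G) : Wt R → G.ConnectedComponent
  | Sum.inl v => G.connectedComponentMk v
  | Sum.inr (Sum.inl r) => G.connectedComponentMk r.1.fst
  | Sum.inr (Sum.inr q) =>
      Quotient.lift (fun d : G.Dart => G.connectedComponentMk d.fst) (face_comp R) q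

theorem lab_vx (R : RotationSystem G) (v : V) : lab R (vx R v) = G.connectedComponentMk v := rfl

theorem lab_rx (R : RotationSystem G) (r : Rg G) :
    lab R (rx R r) = G.connectedComponentMk r.1.fst := rfl

theorem lab_fx (R : RotationSystem G) (d : G.Dart) :
    lab R (fx R d) = G.connectedComponentMk d.fst := rfl

theorem ps_false (R : RotationSystem G) (d : G.Dart) : ps R (d, false) = (d, true) := by
  simp [ps]

theorem ps_true (R : RotationSystem G) (d : G.Dart) : ps R (d, true) = (R.faceStep d, false) := by
  simp [ps]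

theorem ps_comp (R : RotationSystem G) (r : Rg G) :
    G.connectedComponentMk (ps R r).1.fst = G.connectedComponentMk r.1.fst := by
  obtain ⟨d, b⟩ := r
  cases b
  · rw [ps_false]
  · rw [ps_true]
    exact fs_comp R d

theorem lab_base (R : RotationSystem G) (x : G.Dart ⊕ (Rg G ⊕ Rg G)) :
    lab R (base R x).1 = lab R (base R x).2.1 ∧ lab R (base R x).2.1 = lab R (base R x).2.2 := by
  rcases x with d | r | r
  · have h := (ConnectedComponent.connectedComponentMk_eq_of_adj d.adj)
    exact ⟨h, h.symm⟩
  · have h := (ConnectedComponent.connectedComponentMk_eq_of_adj r.1.adj)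
    exact ⟨h, h.symm.trans (ps_comp R r).symm⟩
  · exact ⟨(ps_comp R r).symm, ps_comp R r⟩

theorem lab_adj [Finite V] (R : RotationSystem G) {a b c : Wt R} (h : (a, b, c) ∈ RT R) :
    lab R a = lab R b := by
  obtain ⟨⟨x, k⟩, hx⟩ := (mem_RT R).1 h
  obtain ⟨h1, h2⟩ := lab_base R x
  unfold tm at hx
  simp only at hx
  generalize base R x = t at h1 h2 hx
  obtain ⟨p, q, r⟩ := t
  simp only at h1 h2
  fin_cases k
  · have hx' : (p, q, r) = (a, b, c) := hx
    simp only [Prod.mk.injEq] at hx'
    obtain ⟨rfl, rfl, rfl⟩ := hx'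
    exact h1
  · have hx' : (q, r, p) = (a, b, c) := hx
    simp only [Prod.mk.injEq] at hx'
    obtain ⟨rfl, rfl, rfl⟩ := hx'
    exact h2
  · have hx' : (r, p, q) = (a, b, c) := hx
    simp only [Prod.mk.injEq] at hx'
    obtain ⟨rfl, rfl, rfl⟩ := hx'
    exact (h1.trans h2).symm

theorem lab_step [Finite V] (R : RotationSystem G) {s t : Wt R × Wt R × Wt R}
    (h : ReflTransGen (Step (RT R)) s t) : lab R s.1 = lab R t.1 := by
  induction h with
  | refl => rfl
  | tail _ h ih =>
    rw [ih]
    cases h with
    | rot h => exact lab_adj R h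
    | flip h _ => exact lab_adj R h

theorem mem_base [Finite V] (R : RotationSystem G) (x : G.Dart ⊕ (Rg G ⊕ Rg G)) :
    base R x ∈ RT R := (mem_RT R).2 ⟨(x, 0), rfl⟩

theorem rt_edge [Finite V] (R : RotationSystem G) (d : G.Dart) :
    (vx R d.fst, vx R d.snd, rx R (d, false)) ∈ RT R := mem_base R (Sum.inl d)

theorem rt_B [Finite V] (R : RotationSystem G) (r : Rg G) :
    (rx R r, vx R r.1.snd, rx R (ps R r)) ∈ RT R := mem_base R (Sum.inr (Sum.inl r))

theorem rt_C [Finite V] (R : RotationSystem G) (r : Rg G) :
    (rx R r, rx R (ps R r), fx R r.1) ∈ RT R := mem_base R (Sum.inr (Sum.inr r))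

section paths

variable [Finite V] (R : RotationSystem G)

theorem pr1 {a b c : Wt R} (h : (a, b, c) ∈ RT R) :
    ReflTransGen (Step (RT R)) (a, b, c) (b, c, a) := ReflTransGen.single (Step.rot h)

theorem pr2 {a b c : Wt R} (h : (a, b, c) ∈ RT R) :
    ReflTransGen (Step (RT R)) (a, b, c) (c, a, b) :=
  (pr1 R h).tail (Step.rot ((rt_cx R).rot h))

/-- flip over the second edge -/
theorem pfl {a b c d : Wt R} (h : (a, b, c) ∈ RT R) (h' : (c, b, d) ∈ RT R) :
    ReflTransGen (Step (RT R)) (a, b, c) (c, b, d) :=
  (pr1 R h).tail (Step.flip ((rt_cx R).rot h) h')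

theorem psym {s t : Wt R × Wt R × Wt R} (h : ReflTransGen (Step (RT R)) s t) :
    ReflTransGen (Step (RT R)) t s := conn_symm (rt_cx R) h

theorem AB (d : G.Dart) : ReflTransGen (Step (RT R)) (vx R d.fst, vx R d.snd, rx R (d, false))
    (rx R (d, false), vx R d.snd, rx R (ps R (d, false))) :=
  pfl R (rt_edge R d) (rt_B R (d, false))

theorem BC (r : Rg G) : ReflTransGen (Step (RT R)) (rx R r, vx R r.1.snd, rx R (ps R r))
    (rx R r, rx R (ps R r), fx R r.1) := by
  have h := rt_B R r
  exact (pr2 R h).tail (Step.flip ((rt_cx R).rot ((rt_cx R).rot h)) (rt_C R r))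

omit [Finite V] in
theorem fx_ps (r : Rg G) : fx R (ps R r).1 = fx R r.1 := by
  obtain ⟨d, b⟩ := r
  cases b
  · rw [ps_false]
  · rw [ps_true]
    exact fx_fs R d

theorem CC (r : Rg G) : ReflTransGen (Step (RT R)) (rx R r, rx R (ps R r), fx R r.1)
    (rx R (ps R r), rx R (ps R (ps R r)), fx R (ps R r).1) := by
  have h := rt_C R r
  have h' := rt_C R (ps R r)
  have h2 : (fx R r.1, rx R (ps R r), rx R (ps R (ps R r))) ∈ RT R := by
    rw [← fx_ps]
    exact (rt_cx R).rot ((rt_cx R).rot h')
  refine (pfl R h h2).trans ?_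
  rw [← fx_ps]
  exact psym R (pr2 R h')

theorem Crot (d : G.Dart) (b : Bool) : ReflTransGen (Step (RT R))
    (rx R (d, b), rx R (ps R (d, b)), fx R d)
    (vx R d.fst, vx R d.snd, rx R (d, false)) := by
  have h0 : ReflTransGen (Step (RT R)) (rx R (d, false), rx R (ps R (d, false)), fx R d)
      (vx R d.fst, vx R d.snd, rx R (d, false)) :=
    (psym R (BC R (d, false))).trans (psym R (AB R d))
  cases b
  · exact h0
  · have h1 := CC R (d, false)
    rw [ps_false] at h1 h0
    exact (psym R h1).trans h0

theorem Asymm (d : G.Dart) : ReflTransGen (Step (RT R))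
    (vx R d.fst, vx R d.snd, rx R (d, false))
    (vx R d.symm.fst, vx R d.symm.snd, rx R (d.symm, false)) :=
  ReflTransGen.single (Step.flip (rt_edge R d) (rt_edge R d.symm))

theorem Aface (d : G.Dart) : ReflTransGen (Step (RT R))
    (vx R d.fst, vx R d.snd, rx R (d, false))
    (vx R (R.faceStep d).fst, vx R (R.faceStep d).snd, rx R (R.faceStep d, false)) := by
  have h1 := psym R (Crot R d true)
  have h2 := CC R (d, true)
  rw [ps_true] at h2
  have h3 := Crot R (R.faceStep d) false
  rw [ps_true] at h1
  exact (h1.trans h2).trans h3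

theorem Anext (d : G.Dart) : ReflTransGen (Step (RT R))
    (vx R d.fst, vx R d.snd, rx R (d, false))
    (vx R (R.next d).fst, vx R (R.next d).snd, rx R (R.next d, false)) := by
  have h1 := Asymm R d
  have h2 := Aface R d.symm
  have e : R.faceStep d.symm = R.next d := by
    unfold RotationSystem.faceStep
    rw [Equiv.Perm.mul_apply]
    congr 1
  rw [e] at h2
  exact h1.trans h2

theorem Apow (n : ℕ) (d : G.Dart) : ReflTransGen (Step (RT R))
    (vx R d.fst, vx R d.snd, rx R (d, false))
    (vx R ((R.next ^ n) d).fst, vx R ((R.next ^ n) d).snd, rx R ((R.next ^ n) d, false)) := by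
  induction n with
  | zero => exact ReflTransGen.refl
  | succ n ih =>
    rw [pow_succ', Equiv.Perm.mul_apply]
    exact ih.trans (Anext R _)

theorem Asame (d d' : G.Dart) (h : d.fst = d'.fst) : ReflTransGen (Step (RT R))
    (vx R d.fst, vx R d.snd, rx R (d, false))
    (vx R d'.fst, vx R d'.snd, rx R (d', false)) := by
  obtain ⟨n, hn⟩ := R.cyclic d d' h
  rw [← hn]
  exact Apow R n d

end paths

/-- every triple is joined to a triple `A d` -/
theorem rt_toA [Finite V] (R : RotationSystem G) {s : Wt R × Wt R × Wt R} (hs : s ∈ RT R) :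
    ∃ d : G.Dart, ReflTransGen (Step (RT R)) s (vx R d.fst, vx R d.snd, rx R (d, false)) := by
  obtain ⟨⟨x, k⟩, rfl⟩ := (mem_RT R).1 hs
  have h1 : ReflTransGen (Step (RT R)) (tm R (x, k)) (base R x) := by
    have hb := mem_base R x
    apply psym
    unfold tm
    simp only
    generalize base R x = t at hb ⊢
    obtain ⟨p, q, r⟩ := t
    fin_cases k
    · exact ReflTransGen.refl
    · exact pr1 R hb
    · exact pr2 R hb
  have h2 : ∃ d : G.Dart,
      ReflTransGen (Step (RT R)) (base R x) (vx R d.fst, vx R d.snd, rx R (d, false)) := by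
    rcases x with d | ⟨d, b⟩ | ⟨d, b⟩
    · exact ⟨d, ReflTransGen.refl⟩
    · exact ⟨d, (BC R (d, b)).trans (Crot R d b)⟩
    · exact ⟨d, Crot R d b⟩
  obtain ⟨d, h2⟩ := h2
  exact ⟨d, h1.trans h2⟩

theorem rt_AA [Finite V] (R : RotationSystem G) (d d' : G.Dart) (h : G.Reachable d.fst d'.fst) :
    ReflTransGen (Step (RT R)) (vx R d.fst, vx R d.snd, rx R (d, false))
      (vx R d'.fst, vx R d'.snd, rx R (d', false)) := by
  obtain ⟨p⟩ := h
  have key : ∀ (u v : V) (p : G.Walk u v) (d d' : G.Dart), d.fst = u → d'.fst = v →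
      ReflTransGen (Step (RT R)) (vx R d.fst, vx R d.snd, rx R (d, false))
        (vx R d'.fst, vx R d'.snd, rx R (d', false)) := by
    intro u v p
    induction p with
    | nil =>
      intro d d' h1 h2
      exact Asame R d d' (h1.trans h2.symm)
    | @cons u w v h p ih =>
      intro d d' h1 h2
      have e1 := Asame R d ⟨(u, w), h⟩ h1
      have e2 := Asymm R (⟨(u, w), h⟩ : G.Dart)
      exact (e1.trans e2).trans (ih _ _ rfl h2)
  exact key _ _ p d d' rfl rfl

theorem rt_label [Finite V] (R : RotationSystem G) : ∀ s ∈ RT R, ∀ t ∈ RT R,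
    lab R s.1 = lab R t.1 ↔ ReflTransGen (Step (RT R)) s t := by
  intro s hs t ht
  constructor
  · intro h
    obtain ⟨d, hd⟩ := rt_toA R hs
    obtain ⟨d', hd'⟩ := rt_toA R ht
    have h1 := lab_step R hd
    have h2 := lab_step R hd'
    have h3 : G.connectedComponentMk d.fst = G.connectedComponentMk d'.fst := by
      rw [h1, h2] at h
      exact h
    exact (hd.trans (rt_AA R d d' (ConnectedComponent.exact h3))).trans (psym R hd')
  · exact lab_step R

end Pool.Agent.H13.DA
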