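import Pool.Agent.H13.DA.Cases

/-!
# [H13 DA SPH] closed complexes

`T` closed, strongly connected, `(a,b,c) ∈ T`, `T' = T \ tri a b c`, `(b,a,x) ∈ T` (so in `T'`,
`flip_mem_sdiff`), `X = comp T' (b,a,x)`, `Y = T \ X` (contains `tri a b c`).
* `X`: `IsCx`, `Conn`, boundary `ba`: `(a,b,c) ∉ X`. So `chi X ≤ 3` (`euler_le`).
* `Y`: `IsCx` (rotations), boundary `ab`: `(b,a,x) ∈ X`, `uniq`. `Conn Y`: every `s ∈ Y` outside
  `tri a b c` is by `del_cover` in `comp T' (c,b,y)` or in `comp T' (a,c,y)`; this component is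
  different from `X` (as `s ∉ X`), hence disjoint from `X` and contained in `Y`, and it is connected to
  `tri a b c` by a flip. So `chi Y ≤ 3`.
* shared edges: if `s(p,q)` is an edge of `X` and of `Y`, then `(p,q,r) ∈ X`, `(q,p,r') ∈ Y` or
  conversely (`uniq` and disjointness), and `(q,p,r') ∈ tri a b c` (otherwise it is in `T'`, and in
  `X` by `comp_flip`). So `edges X ∩ edges Y ⊆ {ab, bc, ca}`, and it contains `ab`.
* If all three edges are shared then `(c,b,·), (a,c,·) ∈ X`, so `T' = X` by `del_cover`. Then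
  `T = X ∪ tri a b c`, `chi T = chi X + 3 - 9 + 9 = chi X + 3` (`chi_union`, `verts_tri`,
  `edges_tri`).
* Otherwise one or two edges are shared and the number of shared vertices is at least the number of
  shared edges plus one; `chi T ≤ 3 + 3 - 3 (k+1) + 3 k = 3`.
So `chi T ≤ 6` (`clos_le`) and if `chi T = 6` then `T' = X` is a disc (`clos_del`).

`sphere_comp`: for `t ∈ T` put `X = comp T t`, `Y = T \ X`. No shared edges, so
`chi T ≤ chi X + chi Y` (`chi_union`), `chi X ≤ 6`. First show by strong induction on the cardinality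
`chi T ≤ 6 * (T.image f).card` for all closed `T` with labels `f` (`sphere_sum`): `Y` is closed,
`f` distinguishes its components, `T.image f = {f t} ∪ Y.image f` with `f t ∉ Y.image f`. Then
`6 * (T.image f).card ≤ chi T ≤ chi X + 6 * ((T.image f).card - 1)`, so `chi X ≥ 6`.
-/

set_option autoImplicit false

namespace Pool.Agent.H13.DA

open Relation

variable {V : Type*} [DecidableEq V] {T : Finset (V × V × V)}

omit [DecidableEq V] in
theorem step_mono {X Y : Finset (V × V × V)} (h : X ⊆ Y) {s t : V × V × V}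
    (hs : ReflTransGen (Step X) s t) : ReflTransGen (Step Y) s t := by
  induction hs with
  | refl => exact ReflTransGen.refl
  | tail _ h' ih =>
    refine ih.tail ?_
    cases h' with
    | rot h1 => exact Step.rot (h h1)
    | flip h1 h2 => exact Step.flip (h h1) (h h2)

theorem sdiff_isCx {X : Finset (V × V × V)} (hT : IsCx T) (hX : IsCx X) : IsCx (T \ X) where
  rot := by
    intro a b c h
    rw [Finset.mem_sdiff] at h ⊢
    exact ⟨hT.rot h.1, fun h' => h.2 (hX.rot (hX.rot h'))⟩
  ne := fun h => hT.ne (Finset.mem_sdiff.1 h).1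
  uniq := fun h h' => hT.uniq (Finset.mem_sdiff.1 h).1 (Finset.mem_sdiff.1 h').1

omit [DecidableEq V] in
theorem tri_of_mem {a b c x y z : V} (h : (x, y, z) ∈ tri a b c) : tri a b c = tri x y z := by
  rw [mem_tri] at h
  simp only [Prod.mk.injEq] at h
  rcases h with ⟨rfl, rfl, rfl⟩ | ⟨rfl, rfl, rfl⟩ | ⟨rfl, rfl, rfl⟩
  · rfl
  · exact tri_eq _ _ _
  · rw [tri_eq, tri_eq]

theorem clos_main (hT : IsCx T) (hc : Conn T) (hcl : Clos T) {a b c : V} (h : (a, b, c) ∈ T) :
    chi T ≤ 3 ∨ (Conn (T \ tri a b c) ∧ (∃ x y, Bd (T \ tri a b c) x y) ∧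
      chi T = chi (T \ tri a b c) + 3) := by
  obtain ⟨n1, n2, n3⟩ := cx_ne hT h
  obtain ⟨h', h''⟩ := rot3 hT h
  have hT' := sdiff_tri_isCx hT h
  obtain ⟨x, hx0⟩ := hcl _ _ _ h
  obtain ⟨y, hy0⟩ := hcl _ _ _ h'
  obtain ⟨z, hz0⟩ := hcl _ _ _ h''
  have hx := flip_mem_sdiff hT h hx0
  have hy : (c, b, y) ∈ T \ tri a b c := by
    rw [tri_eq]; exact flip_mem_sdiff hT h' hy0
  have hz : (a, c, z) ∈ T \ tri a b c := by
    rw [tri_eq, tri_eq]; exact flip_mem_sdiff hT h'' hz0
  have g1 : ∀ r, (a, b, r) ∉ T \ tri a b c := fun r => not_mem_sdiff hT h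
  have g2 : ∀ r, (b, c, r) ∉ T \ tri a b c := by
    intro r; rw [tri_eq]; exact not_mem_sdiff hT h'
  have g3 : ∀ r, (c, a, r) ∉ T \ tri a b c := by
    intro r; rw [tri_eq, tri_eq]; exact not_mem_sdiff hT h''
  by_cases hall : ∀ s ∈ T \ tri a b c, s ∈ comp (T \ tri a b c) (b, a, x)
  · right
    refine ⟨conn_of_comp hT' hall, ⟨b, a, ⟨x, hx⟩, g1⟩, ?_⟩
    have e := chi_del hT h
    rw [if_pos (vert2 hT' hx), if_pos (vert1 hx), if_pos (vert1 hy),
      if_pos (edge_iff.2 (Or.inr ⟨x, hx⟩)), if_pos (edge_iff.2 (Or.inr ⟨y, hy⟩)),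
      if_pos (edge_iff.2 (Or.inr ⟨z, hz⟩))] at e
    linarith
  · left
    obtain ⟨X, hX⟩ : ∃ X, X = comp (T \ tri a b c) (b, a, x) := ⟨_, rfl⟩
    rw [← hX] at hall
    have hXcx : IsCx X := by rw [hX]; exact comp_isCx hT' _
    have hXconn : Conn X := by rw [hX]; exact comp_conn hT' _
    have hXT' : X ⊆ T \ tri a b c := by
      rw [hX]; intro s hs; exact (mem_comp.1 hs).1
    have hXT : X ⊆ T := hXT'.trans Finset.sdiff_subset
    have hxX : (b, a, x) ∈ X := by rw [hX]; exact mem_comp_self hx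
    have hflip : ∀ {p q r s : V}, (p, q, r) ∈ X → (q, p, s) ∈ T \ tri a b c → (q, p, s) ∈ X := by
      intro p q r s h1 h2
      rw [hX] at h1 ⊢
      exact comp_flip hT' _ h1 h2
    have hYcx : IsCx (T \ X) := sdiff_isCx hT hXcx
    have htriY : tri a b c ⊆ T \ X := by
      intro s hs
      exact Finset.mem_sdiff.2 ⟨tri_sub hT h hs, fun hs' => (Finset.mem_sdiff.1 (hXT' hs')).2 hs⟩
    have m1 : (a, b, c) ∈ T \ X := htriY (mem_tri.2 (Or.inl rfl))
    have m2 : (b, c, a) ∈ T \ X := htriY (mem_tri.2 (Or.inr (Or.inl rfl)))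
    have m3 : (c, a, b) ∈ T \ X := htriY (mem_tri.2 (Or.inr (Or.inr rfl)))
    -- another component is connected to the triangle inside `Y`
    have hother : ∀ t s, t ∈ T \ tri a b c → s ∈ comp (T \ tri a b c) t → s ∉ X →
        ReflTransGen (Step (T \ X)) t s := by
      intro t s ht hs hsX
      have hsub : comp (T \ tri a b c) t ⊆ T \ X := by
        intro r hr
        refine Finset.mem_sdiff.2 ⟨(Finset.mem_sdiff.1 (mem_comp.1 hr).1).1, fun hrX => hsX ?_⟩
        rw [hX, mem_comp] at hrX ⊢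
        refine ⟨(mem_comp.1 hs).1, ?_⟩
        exact (hrX.2.trans (conn_symm hT' (mem_comp.1 hr).2)).trans (mem_comp.1 hs).2
      exact step_mono hsub (comp_conn hT' t t (mem_comp_self ht) s hs)
    have hYconn : Conn (T \ X) := by
      apply conn_of_comp hYcx (t := (a, b, c))
      intro s hs
      refine mem_comp.2 ⟨hs, ?_⟩
      by_cases hst : s ∈ tri a b c
      · rcases mem_tri.1 hst with rfl | rfl | rfl
        · exact ReflTransGen.refl
        · exact ReflTransGen.single (Step.rot m1)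
        · exact (ReflTransGen.single (Step.rot m1)).tail (Step.rot m2)
      · obtain ⟨hsT, hsX⟩ := Finset.mem_sdiff.1 hs
        rcases del_cover hT hc h (Finset.mem_sdiff.2 ⟨hsT, hst⟩) with ⟨x', k1, k2⟩ |
          ⟨y', k1, k2⟩ | ⟨z', k1, k2⟩
        · exfalso
          have := hT'.uniq k1 hx
          subst this
          rw [← hX] at k2
          exact hsX k2
        · have k3 := hother _ _ k1 k2 hsX
          have k4 : (c, b, y') ∈ T \ X := by
            refine Finset.mem_sdiff.2 ⟨(Finset.mem_sdiff.1 k1).1, fun k => hsX ?_⟩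
            rw [hX, mem_comp] at k ⊢
            exact ⟨(mem_comp.1 k2).1, k.2.trans (mem_comp.1 k2).2⟩
          exact ((ReflTransGen.single (Step.rot m1)).tail (Step.flip m2 k4)).trans k3
        · have k3 := hother _ _ k1 k2 hsX
          have k4 : (a, c, z') ∈ T \ X := by
            refine Finset.mem_sdiff.2 ⟨(Finset.mem_sdiff.1 k1).1, fun k => hsX ?_⟩
            rw [hX, mem_comp] at k ⊢
            exact ⟨(mem_comp.1 k2).1, k.2.trans (mem_comp.1 k2).2⟩
          exact (((ReflTransGen.single (Step.rot m1)).tail (Step.rot m2)).tail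
            (Step.flip m3 k4)).trans k3
    have hYbd : Bd (T \ X) a b := by
      refine ⟨⟨c, m1⟩, fun r hr => ?_⟩
      obtain ⟨hr1, hr2⟩ := Finset.mem_sdiff.1 hr
      have := hT.uniq hr1 hx0
      subst this
      exact hr2 hxX
    have hXbd : Bd X b a := ⟨⟨x, hxX⟩, fun r hr => g1 r (hXT' hr)⟩
    have c1 := euler_le hXcx hXconn ⟨b, a, hXbd⟩
    have c2 := euler_le hYcx hYconn ⟨a, b, hYbd⟩
    have hdisj : Disjoint X (T \ X) := Finset.disjoint_sdiff
    have hun : X ∪ (T \ X) = T := Finset.union_sdiff_of_subset hXT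
    have c3 := chi_union X (T \ X) hdisj
    rw [hun] at c3
    -- shared edges
    have hE : edges X ∩ edges (T \ X) = edges X ∩ {s(a, b), s(b, c), s(c, a)} := by
      ext e
      induction e using Sym2.ind with
      | _ p q =>
        rw [Finset.mem_inter, Finset.mem_inter, ← edges_tri]
        constructor
        · rintro ⟨k1, k2⟩
          refine ⟨k1, ?_⟩
          rw [edge_iff] at k1 k2 ⊢
          have key : ∀ {p q r r' : V}, (p, q, r) ∈ X → (q, p, r') ∈ T \ X →
              (q, p, r') ∈ tri a b c := by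
            intro p q r r' l1 l2
            by_contra l3
            obtain ⟨l4, l5⟩ := Finset.mem_sdiff.1 l2
            exact l5 (hflip l1 (Finset.mem_sdiff.2 ⟨l4, l3⟩))
          have key2 : ∀ {p q r r' : V}, (p, q, r) ∈ X → (p, q, r') ∈ T \ X → False := by
            intro p q r r' l1 l2
            obtain ⟨l4, l5⟩ := Finset.mem_sdiff.1 l2
            have := hT.uniq (hXT l1) l4
            subst this
            exact l5 l1
          rcases k1 with ⟨r, k1⟩ | ⟨r, k1⟩
          · rcases k2 with ⟨r', k2⟩ | ⟨r', k2⟩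
            · exact (key2 k1 k2).elim
            · exact Or.inr ⟨r', key k1 k2⟩
          · rcases k2 with ⟨r', k2⟩ | ⟨r', k2⟩
            · exact Or.inl ⟨r', key k1 k2⟩
            · exact (key2 k1 k2).elim
        · rintro ⟨k1, k2⟩
          exact ⟨k1, edges_mono htriY k2⟩
    have hV : verts X ∩ {a, b, c} ⊆ verts X ∩ verts (T \ X) := by
      intro v hv
      rw [Finset.mem_inter] at hv ⊢
      refine ⟨hv.1, ?_⟩
      rw [← verts_tri] at hv
      exact verts_mono htriY hv.2
    have hVc := Finset.card_le_card hV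
    have hVc' : ((verts X ∩ {a, b, c}).card : ℤ) ≤ (verts X ∩ verts (T \ X)).card := by
      exact_mod_cast hVc
    rw [inter3 _ n1 n2 n3, if_pos (vert2 hXcx hxX), if_pos (vert1 hxX)] at hVc'
    have hEc : ((edges X ∩ edges (T \ X)).card : ℤ) =
        1 + (if s(b, c) ∈ edges X then 1 else 0) + (if s(c, a) ∈ edges X then 1 else 0) := by
      rw [hE, inter3, if_pos (edge_iff.2 (Or.inr ⟨x, hxX⟩))]
      · simp only [ne_eq, Sym2.eq_iff, not_or, not_and]
        exact ⟨fun h => absurd h n1, fun h => absurd h.symm n3⟩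
      · simp only [ne_eq, Sym2.eq_iff, not_or, not_and]
        exact ⟨fun h => absurd h n2, fun h => absurd h.symm n1⟩
      · simp only [ne_eq, Sym2.eq_iff, not_or, not_and]
        exact ⟨fun h => absurd h n3, fun h => absurd h.symm n2⟩
    have hbc : s(b, c) ∈ edges X → ∃ r, (c, b, r) ∈ X := by
      intro k
      rcases edge_iff.1 k with ⟨r, k⟩ | k
      · exact absurd (hXT' k) (g2 r)
      · exact k
    have hca : s(c, a) ∈ edges X → ∃ r, (a, c, r) ∈ X := by
      intro k
      rcases edge_iff.1 k with ⟨r, k⟩ | k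
      · exact absurd (hXT' k) (g3 r)
      · exact k
    by_cases e1 : s(b, c) ∈ edges X
    · obtain ⟨r1, hr1⟩ := hbc e1
      by_cases e2 : s(c, a) ∈ edges X
      · exfalso
        obtain ⟨r2, hr2⟩ := hca e2
        apply hall
        intro s hs
        rcases del_cover hT hc h hs with ⟨x', k1, k2⟩ | ⟨y', k1, k2⟩ | ⟨z', k1, k2⟩
        · have := hT'.uniq k1 hx
          subst this
          rw [hX]; exact k2
        · have := hT'.uniq k1 (hXT' hr1)
          subst this
          rw [hX, mem_comp] at hr1 ⊢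
          exact ⟨(mem_comp.1 k2).1, hr1.2.trans (mem_comp.1 k2).2⟩
        · have := hT'.uniq k1 (hXT' hr2)
          subst this
          rw [hX, mem_comp] at hr2 ⊢
          exact ⟨(mem_comp.1 k2).1, hr2.2.trans (mem_comp.1 k2).2⟩
      · rw [if_pos e1, if_neg e2] at hEc
        rw [if_pos (vert1 hr1)] at hVc'
        linarith
    · by_cases e2 : s(c, a) ∈ edges X
      · obtain ⟨r2, hr2⟩ := hca e2
        rw [if_neg e1, if_pos e2] at hEc
        rw [if_pos (vert2 hXcx hr2)] at hVc'
        linarith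
      · rw [if_neg e1, if_neg e2] at hEc
        have : (0 : ℤ) ≤ if c ∈ verts X then 1 else 0 := by split_ifs <;> norm_num
        linarith

theorem clos_le (hT : IsCx T) (hc : Conn T) (hcl : Clos T) : chi T ≤ 6 := by
  rcases T.eq_empty_or_nonempty with rfl | ⟨⟨a, b, c⟩, h⟩
  · simp [chi, verts, edges]
  · rcases clos_main hT hc hcl h with h1 | ⟨h1, h2, h3⟩
    · linarith
    · have := euler_le (sdiff_tri_isCx hT h) h1 h2
      linarith

theorem clos_del (hT : IsCx T) (hc : Conn T) (hcl : Clos T) (h6 : chi T = 6) {a b c : V}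
    (h : (a, b, c) ∈ T) : Disc (T \ tri a b c) := by
  rcases clos_main hT hc hcl h with h1 | ⟨h1, h2, h3⟩
  · linarith
  · exact ⟨sdiff_tri_isCx hT h, h1, h2, by linarith⟩

/-- all edges survive the removal of one triangle -/
theorem clos_adj (hT : IsCx T) (hcl : Clos T) {a b c : V} (h : (a, b, c) ∈ T) {x y : V}
    (hxy : Adj T x y) : Adj (T \ tri a b c) x y := by
  have key : ∀ {x y z : V}, (x, y, z) ∈ T → Adj (T \ tri a b c) x y := by
    intro x y z hz
    by_cases hm : (x, y, z) ∈ tri a b c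
    · obtain ⟨d, hd⟩ := hcl _ _ _ hz
      rw [tri_of_mem hm]
      exact Or.inr ⟨d, flip_mem_sdiff hT hz hd⟩
    · exact Or.inl ⟨z, Finset.mem_sdiff.2 ⟨hz, hm⟩⟩
  rcases hxy with ⟨z, hz⟩ | ⟨z, hz⟩
  · exact key hz
  · exact (key hz).symm

omit [DecidableEq V] in
theorem comp_clos (hT : IsCx T) (hcl : Clos T) (t : V × V × V) : Clos (comp T t) := by
  intro a b c h
  obtain ⟨d, hd⟩ := hcl _ _ _ (mem_comp.1 h).1
  exact ⟨d, comp_flip hT t h hd⟩

/-- splitting off one component -/
theorem split_comp {ι : Type*} [DecidableEq ι] (f : V × V × V → ι) (hT : IsCx T) (hcl : Clos T)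
    (hf : ∀ s ∈ T, ∀ t ∈ T, f s = f t ↔ ReflTransGen (Step T) s t) {t : V × V × V} (ht : t ∈ T) :
    chi T ≤ chi (comp T t) + chi (T \ comp T t) ∧ chi (comp T t) ≤ 6 ∧
      IsCx (T \ comp T t) ∧ Clos (T \ comp T t) ∧
      (∀ s ∈ T \ comp T t, ∀ s' ∈ T \ comp T t,
        f s = f s' ↔ ReflTransGen (Step (T \ comp T t)) s s') ∧
      1 + ((T \ comp T t).image f).card ≤ (T.image f).card := by
  have hXT : comp T t ⊆ T := fun s hs => (mem_comp.1 hs).1
  have hXcx := comp_isCx hT t
  refine ⟨?_, clos_le hXcx (comp_conn hT t) (comp_clos hT hcl t), sdiff_isCx hT hXcx, ?_, ?_, ?_⟩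
  · have hdisj : Disjoint (comp T t) (T \ comp T t) := Finset.disjoint_sdiff
    have hun : comp T t ∪ (T \ comp T t) = T := Finset.union_sdiff_of_subset hXT
    have c3 := chi_union _ _ hdisj
    rw [hun] at c3
    have hE : edges (comp T t) ∩ edges (T \ comp T t) = ∅ := by
      rw [Finset.eq_empty_iff_forall_notMem]
      intro e
      induction e using Sym2.ind with
      | _ p q =>
        rw [Finset.mem_inter, edge_iff, edge_iff]
        have key : ∀ {p q r r' : V}, (p, q, r) ∈ comp T t → (q, p, r') ∈ T \ comp T t →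
            False := by
          intro p q r r' l1 l2
          obtain ⟨l4, l5⟩ := Finset.mem_sdiff.1 l2
          exact l5 (comp_flip hT t l1 l4)
        have key2 : ∀ {p q r r' : V}, (p, q, r) ∈ comp T t → (p, q, r') ∈ T \ comp T t →
            False := by
          intro p q r r' l1 l2
          obtain ⟨l4, l5⟩ := Finset.mem_sdiff.1 l2
          have := hT.uniq (hXT l1) l4
          subst this
          exact l5 l1
        rintro ⟨⟨r, k1⟩ | ⟨r, k1⟩, ⟨r', k2⟩ | ⟨r', k2⟩⟩
        · exact key2 k1 k2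
        · exact key k1 k2
        · exact key k1 k2
        · exact key2 k1 k2
    rw [hE, Finset.card_empty] at c3
    have : (0 : ℤ) ≤ ((verts (comp T t) ∩ verts (T \ comp T t)).card : ℤ) := by positivity
    push_cast at c3
    linarith
  · intro a b c h
    obtain ⟨h1, h2⟩ := Finset.mem_sdiff.1 h
    obtain ⟨d, hd⟩ := hcl _ _ _ h1
    exact ⟨d, Finset.mem_sdiff.2 ⟨hd, fun h3 => h2 (comp_flip hT t h3 h1)⟩⟩
  · intro s hs s' hs'
    obtain ⟨h1, h2⟩ := Finset.mem_sdiff.1 hs
    obtain ⟨h1', h2'⟩ := Finset.mem_sdiff.1 hs'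
    constructor
    · intro h
      have h3 := (hf s h1 s' h1').1 h
      have h4 := (comp_path hT s (mem_comp_self h1) h3).1
      refine step_mono ?_ h4
      intro r hr
      refine Finset.mem_sdiff.2 ⟨(mem_comp.1 hr).1, fun hr' => h2 ?_⟩
      exact mem_comp.2 ⟨h1, (mem_comp.1 hr').2.trans (conn_symm hT (mem_comp.1 hr).2)⟩
    · intro h
      exact (hf s h1 s' h1').2 (step_mono Finset.sdiff_subset h)
  · have h1 : f t ∉ (T \ comp T t).image f := by
      intro h
      obtain ⟨y, hy, hy'⟩ := Finset.mem_image.1 h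
      obtain ⟨h1, h2⟩ := Finset.mem_sdiff.1 hy
      exact h2 (mem_comp.2 ⟨h1, (hf t ht y h1).1 hy'.symm⟩)
    have h2 : insert (f t) ((T \ comp T t).image f) ⊆ T.image f := by
      intro z hz
      rcases Finset.mem_insert.1 hz with rfl | hz
      · exact Finset.mem_image_of_mem f ht
      · exact Finset.image_subset_image Finset.sdiff_subset hz
    have h3 := Finset.card_le_card h2
    rw [Finset.card_insert_of_notMem h1] at h3
    omega

theorem sphere_sum {ι : Type*} [DecidableEq ι] (f : V × V × V → ι) (n : ℕ) :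
    ∀ T : Finset (V × V × V), T.card ≤ n → IsCx T → Clos T →
      (∀ s ∈ T, ∀ t ∈ T, f s = f t ↔ ReflTransGen (Step T) s t) →
      chi T ≤ 6 * ((T.image f).card : ℤ) := by
  induction n with
  | zero =>
    intro T hn _ _ _
    have : T = ∅ := Finset.card_eq_zero.1 (by omega)
    subst this
    simp [chi, verts, edges]
  | succ n ih =>
    intro T hn hT hcl hf
    rcases T.eq_empty_or_nonempty with rfl | ⟨t, ht⟩
    · simp [chi, verts, edges]
    · obtain ⟨h1, h2, h3, h4, h5, h6⟩ := split_comp f hT hcl hf ht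
      have hcard : (T \ comp T t).card ≤ n := by
        have : (T \ comp T t).card < T.card := by
          apply Finset.card_lt_card
          refine ⟨Finset.sdiff_subset, fun h => ?_⟩
          exact (Finset.mem_sdiff.1 (h ht)).2 (mem_comp_self ht)
        omega
      have h7 := ih _ hcard h3 h4 h5
      have h6' : (1 : ℤ) + ((T \ comp T t).image f).card ≤ (T.image f).card := by
        exact_mod_cast h6
      linarith

theorem sphere_comp {ι : Type*} [DecidableEq ι] (f : V × V × V → ι) (hT : IsCx T) (hcl : Clos T)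
    (hf : ∀ s ∈ T, ∀ t ∈ T, f s = f t ↔ ReflTransGen (Step T) s t)
    (h : 6 * ((T.image f).card : ℤ) ≤ chi T) : ∀ t ∈ T, chi (comp T t) = 6 := by
  intro t ht
  obtain ⟨h1, h2, h3, h4, h5, h6⟩ := split_comp f hT hcl hf ht
  have h7 := sphere_sum f _ _ le_rfl h3 h4 h5
  have h6' : (1 : ℤ) + ((T \ comp T t).image f).card ≤ (T.image f).card := by
    exact_mod_cast h6
  linarith

end Pool.Agent.H13.DA
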