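import Pool.Agent.H13.DA.RotB
import Pool.Agent.H13.DA.RotC
import Pool.Agent.H13.DA.Sph

/-!
# [H13 DA ROTD] in genus 0 all components of the triangulated surface are spheres

* `rt_img`: the labels `lab R s.1`, `s ∈ RT R`, are components of non-isolated vertices
  (`rt_toA`, `lab_step`: the label is the component of `d.fst` for a dart `d`), and the components of the
  isolated vertices are pairwise different and different from those; so
  `|image| + |isolated| ≤ |components|`.
* `rt_spheres`: `R.GenusLE 0`: `2 C ≤ |V| - |E| + F + i` with `i` isolated vertices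
  (`RotationSystem.GenusLE`, `RotationSystem.numFaces`), `|V| = n' + i`
  (`n' = Nat.card {v // ∃ w, G.Adj v w}`), so `6 * |image| ≤ 6 (C - i) ≤ 3 (n' - |E| + F) = chi`
  (`rt_chi`), and `sphere_comp` applies with `f s = lab R s.1` (`rt_label`).
-/

set_option autoImplicit false

namespace Pool.Agent.H13.DA

open Relation SimpleGraph Pool.Agent.H29.Tor

variable {V : Type*} {G : SimpleGraph V}

theorem iso_walk {v u : V} (hv : ∀ w, ¬ G.Adj v w) (h : G.Reachable v u) : v = u := by
  obtain ⟨p⟩ := h
  cases p with
  | nil => rfl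
  | cons h _ => exact absurd h (hv _)

open Classical in
theorem rt_img [Finite V] (R : RotationSystem G) :
    ((RT R).image (fun s => lab R s.1)).card + Nat.card {v : V // ∀ w, ¬ G.Adj v w} ≤
      Nat.card G.ConnectedComponent := by
  have : Finite G.ConnectedComponent := inferInstance
  let g : ↥((RT R).image (fun s => lab R s.1)) ⊕ {v : V // ∀ w, ¬ G.Adj v w} →
      G.ConnectedComponent := Sum.elim (fun x => x.1) (fun v => G.connectedComponentMk v.1)
  have hmem : ∀ K ∈ (RT R).image (fun s => lab R s.1),
      ∃ d : G.Dart, K = G.connectedComponentMk d.fst := by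
    intro K hK
    obtain ⟨s, hs, rfl⟩ := Finset.mem_image.1 hK
    obtain ⟨d, hd⟩ := rt_toA R hs
    exact ⟨d, lab_step R hd⟩
  have hno : ∀ K ∈ (RT R).image (fun s => lab R s.1), ∀ v : V, (∀ w, ¬ G.Adj v w) →
      K ≠ G.connectedComponentMk v := by
    intro K hK v hv h
    obtain ⟨d, rfl⟩ := hmem K hK
    have h1 := iso_walk hv (ConnectedComponent.exact h.symm)
    subst h1
    exact hv _ d.adj
  have hg : Function.Injective g := by
    rintro (⟨K, hK⟩ | ⟨v, hv⟩) (⟨K', hK'⟩ | ⟨v', hv'⟩) h
    · have h' : K = K' := h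
      subst h'
      rfl
    · exact absurd h (hno K hK v' hv')
    · exact absurd h.symm (hno K' hK' v hv)
    · have h' : G.connectedComponentMk v = G.connectedComponentMk v' := h
      have h1 := iso_walk hv (ConnectedComponent.exact h')
      subst h1
      rfl
  have h := Nat.card_le_card_of_injective g hg
  rw [Nat.card_sum, Nat.card_eq_fintype_card, Fintype.card_coe] at h
  exact h

theorem card_split [Finite V] : Nat.card V = Nat.card {v : V // ∃ w, G.Adj v w} +
    Nat.card {v : V // ∀ w, ¬ G.Adj v w} := by
  classical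
  rw [← Nat.card_congr (Equiv.sumCompl (fun v : V => ∃ w, G.Adj v w)), Nat.card_sum]
  congr 1
  exact Nat.card_congr (Equiv.subtypeEquivRight fun v => not_exists)

theorem rt_spheres [Finite V] (R : RotationSystem G) (hR : R.GenusLE 0) :
    ∀ t ∈ RT R, chi (comp (RT R) t) = 6 := by
  classical
  apply sphere_comp (fun s => lab R s.1) (rt_cx R) (rt_clos R) (rt_label R)
  have h1 := rt_img R
  have h2 := card_split (G := G)
  have h3 : (2 * (Nat.card G.ConnectedComponent : ℤ) - 2 * (0 : ℕ) ≤
    (Nat.card V : ℤ) - Nat.card G.edgeSet + R.numFaces) := hR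
  unfold RotationSystem.numFaces at h3
  rw [rt_chi]
  have h1' : (((RT R).image (fun s => lab R s.1)).card : ℤ) +
      Nat.card {v : V // ∀ w, ¬ G.Adj v w} ≤ Nat.card G.ConnectedComponent := by
    exact_mod_cast h1
  have h2' : (Nat.card V : ℤ) = Nat.card {v : V // ∃ w, G.Adj v w} +
    Nat.card {v : V // ∀ w, ¬ G.Adj v w} := by exact_mod_cast h2
  push_cast at h3 h1' ⊢
  have e : (Nat.card (Fc R) : ℤ) =
    Nat.card (Quotient (Equiv.Perm.SameCycle.setoid R.faceStep)) := rfl
  rw [e]
  linarith

end Pool.Agent.H13.DA
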