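import Pool.Agent.H13.DA.Bdl

/-!
# [H13 DA TOHD] a disc has the hereditary root deletion property `HD`

Induction on `n`. `T.card ≥ 1`, so `n ≥ 1`. For `l ~r i :: (m ++ [j])`: `IsBd T (i :: (m ++ [j]))`
(`IsBd.rot`), `Bd T j i` (`cyc_last`), take `w` with `(j,i,w) ∈ T` and apply `disc_cases`.
 (A) `T = tri j i w`: by `bdA` and `IsBd.unique`, `head_unique`: `m = [w]`. Second alternative with
     `m1 = m2 = []`, `S1 = {i,w}`, `S2 = {w,j}` and the single edges (`hd_edge`, `hd_mono`).
 (B1) `disc_list` and `IsBd.form`: list `i :: (m1 ++ [w])` of `T'`; `bdB1` and uniqueness: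
     `m = m1 ++ [w]`. Second alternative with `m2 = []`, `S1 = verts T'`, `E1 = Adj T'`,
     `S2 = {w,j}`; `Adj T = Adj T' ∪ wj ∪ ij`; `verts T' ∩ {w,j} = {w}`.
 (B2) the same on the other side: `m = w :: m2`, `m1 = []`, `S1 = {i,w}`, `S2 = verts T'`.
 (C) `IsBd.form2`: list `i :: (m' ++ [j,w])` of `T'`; `bdC` and uniqueness: `m = m'`; first
     alternative: `w ∉ l` (nodup), `verts T' = verts T`, `Adj T'` is `Adj T` without the edge `ij`.
 (D) lists `i :: (m1 ++ [w])` of `X`, `w :: (m2 ++ [j])` of `Y`; `bdD` and uniqueness: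
     `m = m1 ++ w :: m2`.
In all cases the pieces have at most `T.card - 3 ≤ 3 n` triples (`card_sdiff_tri`).
-/

set_option autoImplicit false

namespace Pool.Agent.H13.DA

open Relation

variable {V : Type*} [DecidableEq V] {T : Finset (V × V × V)}

omit [DecidableEq V] in
theorem hd_mono {n : ℕ} {S : Set V} {E : V → V → Prop} {l : List V} (h : HD n S E l) {n' : ℕ}
    (hn : n ≤ n') : HD n' S E l := by
  induction n', hn using Nat.le_induction with
  | base => exact h
  | succ k _ ih =>
    unfold HD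
    exact Or.inl ih

omit [DecidableEq V] in
theorem hd_edge (n : ℕ) {a b : V} (h : a ≠ b) :
    HD n {a, b} (fun x y => (x = a ∧ y = b) ∨ (x = b ∧ y = a)) [a, b] := by
  refine hd_mono (n := 0) ?_ (Nat.zero_le n)
  unfold HD
  exact ⟨a, b, h, rfl, rfl, fun _ _ => Iff.rfl⟩

section props

variable {A A' X Y p1 p2 p3 p4 p5 p6 : Prop}

omit [DecidableEq V] in
theorem prA (hA : A ↔ A' ∨ p1 ∨ p2 ∨ p3 ∨ p4 ∨ p5 ∨ p6) (h : ¬ A') :
    A ↔ (p3 ∨ p4) ∨ (p5 ∨ p6) ∨ p2 ∨ p1 := by
  rw [hA]
  constructor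
  · rintro (k | k | k | k | k | k | k)
    · exact absurd k h
    · exact Or.inr (Or.inr (Or.inr k))
    · exact Or.inr (Or.inr (Or.inl k))
    · exact Or.inl (Or.inl k)
    · exact Or.inl (Or.inr k)
    · exact Or.inr (Or.inl (Or.inl k))
    · exact Or.inr (Or.inl (Or.inr k))
  · rintro ((k | k) | (k | k) | k | k)
    · exact Or.inr (Or.inr (Or.inr (Or.inl k)))
    · exact Or.inr (Or.inr (Or.inr (Or.inr (Or.inl k))))
    · exact Or.inr (Or.inr (Or.inr (Or.inr (Or.inr (Or.inl k)))))
    · exact Or.inr (Or.inr (Or.inr (Or.inr (Or.inr (Or.inr k)))))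
    · exact Or.inr (Or.inr (Or.inl k))
    · exact Or.inr (Or.inl k)

omit [DecidableEq V] in
theorem prB1 (hA : A ↔ A' ∨ p1 ∨ p2 ∨ p3 ∨ p4 ∨ p5 ∨ p6) (h : p3 ∨ p4 → A') :
    A ↔ A' ∨ (p5 ∨ p6) ∨ p2 ∨ p1 := by
  rw [hA]
  constructor
  · rintro (k | k | k | k | k | k | k)
    · exact Or.inl k
    · exact Or.inr (Or.inr (Or.inr k))
    · exact Or.inr (Or.inr (Or.inl k))
    · exact Or.inl (h (Or.inl k))
    · exact Or.inl (h (Or.inr k))
    · exact Or.inr (Or.inl (Or.inl k))
    · exact Or.inr (Or.inl (Or.inr k))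
  · rintro (k | (k | k) | k | k)
    · exact Or.inl k
    · exact Or.inr (Or.inr (Or.inr (Or.inr (Or.inr (Or.inl k)))))
    · exact Or.inr (Or.inr (Or.inr (Or.inr (Or.inr (Or.inr k)))))
    · exact Or.inr (Or.inr (Or.inl k))
    · exact Or.inr (Or.inl k)

omit [DecidableEq V] in
theorem prB2 (hA : A ↔ A' ∨ p1 ∨ p2 ∨ p3 ∨ p4 ∨ p5 ∨ p6) (h : p6 ∨ p5 → A') :
    A ↔ (p3 ∨ p4) ∨ A' ∨ p2 ∨ p1 := by
  rw [hA]
  constructor
  · rintro (k | k | k | k | k | k | k)
    · exact Or.inr (Or.inl k)
    · exact Or.inr (Or.inr (Or.inr k))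
    · exact Or.inr (Or.inr (Or.inl k))
    · exact Or.inl (Or.inl k)
    · exact Or.inl (Or.inr k)
    · exact Or.inr (Or.inl (h (Or.inr k)))
    · exact Or.inr (Or.inl (h (Or.inl k)))
  · rintro ((k | k) | k | k | k)
    · exact Or.inr (Or.inr (Or.inr (Or.inl k)))
    · exact Or.inr (Or.inr (Or.inr (Or.inr (Or.inl k))))
    · exact Or.inl k
    · exact Or.inr (Or.inr (Or.inl k))
    · exact Or.inr (Or.inl k)

omit [DecidableEq V] in
theorem prC (hA : A ↔ A' ∨ p1 ∨ p2 ∨ p3 ∨ p4 ∨ p5 ∨ p6) (h1 : p3 ∨ p4 → A') (h2 : p6 ∨ p5 → A')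
    (h3 : p2 ∨ p1 → ¬ A') : (A ∧ ¬ p2 ∧ ¬ p1) ↔ A' := by
  rw [hA]
  constructor
  · rintro ⟨k | k | k | k | k | k | k, k1, k2⟩
    · exact k
    · exact absurd k k2
    · exact absurd k k1
    · exact h1 (Or.inl k)
    · exact h1 (Or.inr k)
    · exact h2 (Or.inr k)
    · exact h2 (Or.inl k)
  · intro k
    exact ⟨Or.inl k, fun k' => h3 (Or.inl k') k, fun k' => h3 (Or.inr k') k⟩

omit [DecidableEq V] in
theorem prD (hA : A ↔ A' ∨ p1 ∨ p2 ∨ p3 ∨ p4 ∨ p5 ∨ p6) (hA' : A' ↔ X ∨ Y) (h1 : p3 ∨ p4 → X)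
    (h2 : p6 ∨ p5 → Y) : A ↔ X ∨ Y ∨ p2 ∨ p1 := by
  rw [hA, hA']
  constructor
  · rintro ((k | k) | k | k | k | k | k | k)
    · exact Or.inl k
    · exact Or.inr (Or.inl k)
    · exact Or.inr (Or.inr (Or.inr k))
    · exact Or.inr (Or.inr (Or.inl k))
    · exact Or.inl (h1 (Or.inl k))
    · exact Or.inl (h1 (Or.inr k))
    · exact Or.inr (Or.inl (h2 (Or.inr k)))
    · exact Or.inr (Or.inl (h2 (Or.inl k)))
  · rintro (k | k | k | k)
    · exact Or.inl (Or.inl k)
    · exact Or.inl (Or.inr k)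
    · exact Or.inr (Or.inr (Or.inl k))
    · exact Or.inr (Or.inl k)

end props

theorem adj_iff (hT : IsCx T) {i j w : V} (h : (j, i, w) ∈ T) (x y : V) :
    Adj T x y ↔ Adj (T \ tri j i w) x y ∨ (x = j ∧ y = i) ∨ (x = i ∧ y = j) ∨ (x = i ∧ y = w) ∨
      (x = w ∧ y = i) ∨ (x = w ∧ y = j) ∨ (x = j ∧ y = w) := by
  have h1 := dir_iff hT h x y
  have h2 := dir_iff hT h y x
  constructor
  · rintro (k | k)
    · rcases h1.1 k with k | k | k | k
      · exact Or.inl (Or.inl k)
      · exact Or.inr (Or.inl k)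
      · exact Or.inr (Or.inr (Or.inr (Or.inl k)))
      · exact Or.inr (Or.inr (Or.inr (Or.inr (Or.inr (Or.inl k)))))
    · rcases h2.1 k with k | k | k | k
      · exact Or.inl (Or.inr k)
      · exact Or.inr (Or.inr (Or.inl k.symm))
      · exact Or.inr (Or.inr (Or.inr (Or.inr (Or.inl k.symm))))
      · exact Or.inr (Or.inr (Or.inr (Or.inr (Or.inr (Or.inr k.symm)))))
  · rintro ((k | k) | k | k | k | k | k | k)
    · exact Or.inl (h1.2 (Or.inl k))
    · exact Or.inr (h2.2 (Or.inl k))
    · exact Or.inl (h1.2 (Or.inr (Or.inl k)))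
    · exact Or.inr (h2.2 (Or.inr (Or.inl k.symm)))
    · exact Or.inl (h1.2 (Or.inr (Or.inr (Or.inl k))))
    · exact Or.inr (h2.2 (Or.inr (Or.inr (Or.inl k.symm))))
    · exact Or.inl (h1.2 (Or.inr (Or.inr (Or.inr k))))
    · exact Or.inr (h2.2 (Or.inr (Or.inr (Or.inr k.symm))))

theorem verts_iff (hT : IsCx T) {i j w : V} (h : (j, i, w) ∈ T) (x : V) :
    x ∈ verts T ↔ x ∈ verts (T \ tri j i w) ∨ x = j ∨ x = i ∨ x = w := by
  constructor
  · intro hx
    obtain ⟨b, c, hc⟩ := mem_verts.1 hx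
    by_cases hm : (x, b, c) ∈ tri j i w
    · rw [mem_tri] at hm
      simp only [Prod.mk.injEq] at hm
      rcases hm with ⟨k, _⟩ | ⟨k, _⟩ | ⟨k, _⟩
      · exact Or.inr (Or.inl k)
      · exact Or.inr (Or.inr (Or.inl k))
      · exact Or.inr (Or.inr (Or.inr k))
    · exact Or.inl (vert1 (Finset.mem_sdiff.2 ⟨hc, hm⟩))
  · rintro (hx | rfl | rfl | rfl)
    · exact verts_mono Finset.sdiff_subset hx
    · exact vert1 h
    · exact vert2 hT h
    · exact vert3 hT h

omit [DecidableEq V] in
theorem adj_symm {x y : V} (h : Adj T x y) : Adj T y x := Or.symm h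

omit [DecidableEq V] in
theorem adj_vert (hT : IsCx T) {x y : V} (h : Adj T x y) : x ∈ verts T ∧ y ∈ verts T ∧ x ≠ y := by
  rcases h with ⟨c, hc⟩ | ⟨c, hc⟩
  · exact ⟨vert1 hc, vert2 hT hc, hT.ne hc⟩
  · exact ⟨vert2 hT hc, vert1 hc, (hT.ne hc).symm⟩

theorem toHD (n : ℕ) : ∀ (T : Finset (V × V × V)) (l : List V), T.card ≤ 3 * n → Disc T →
    IsBd T l → HD n {v | v ∈ verts T} (Adj T) l := by
  induction n with
  | zero =>
    intro T l hn hD
    obtain ⟨a, b, ⟨c, hc⟩, _⟩ := hD.bd
    have : T.card ≠ 0 := Finset.card_ne_zero_of_mem hc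
    omega
  | succ n ih =>
    intro T l hn hD hl
    have hT := hD.cx
    unfold HD
    refine Or.inr ⟨hl.nodup, hl.len, fun x hx => hl.verts hT hx, fun x y h => adj_symm h,
      fun x y h => adj_vert hT h, ?_⟩
    intro i j m hr
    have hl' := hl.rot hr
    have hbd : Bd T j i := (hl'.iff j i).2 (cyc_last i j m)
    obtain ⟨⟨w, h⟩, hb⟩ := hbd
    obtain ⟨n1, n2, n3⟩ := cx_ne hT h
    obtain ⟨h', h''⟩ := rot3 hT h
    have hT' := sdiff_tri_isCx hT h
    have hcard := card_sdiff_tri hT h
    have mform : ∀ m' : List V, IsBd T (i :: (m' ++ [j])) → m = m' := by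
      intro m' hm'
      have e := head_unique (hl'.unique hm') hl'.nodup
      exact List.append_inj_left' e rfl
    refine ⟨w, Or.inr ⟨w, h⟩, Or.inl ⟨j, h'⟩, Or.inr ⟨i, h''⟩, vert3 hT h, ?_⟩
    rcases disc_cases hD h hb with h0 | ⟨h1, h2, h3, h4⟩ | ⟨h1, h2, h3, h4⟩ | ⟨h1, h2, h3⟩ |
      ⟨X, Y, h1, hdj, h3, h4, h5, h6, h7⟩
    · -- (A)
      right
      have hm : m = [w] := by
        apply mform
        have := bdA n1 n2 n3
        rw [← h0] at this
        exact this
      refine ⟨[], [], {i, w}, {w, j}, _, _, hm, ?_, ?_, ?_, hd_edge n n2, hd_edge n n3⟩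
      · ext v
        rw [Set.mem_ofPred_eq, h0, verts_tri]
        simp only [Finset.mem_insert, Finset.mem_singleton, Set.mem_union, Set.mem_insert_iff,
          Set.mem_singleton_iff]
        constructor
        · rintro (k | k | k)
          · exact Or.inr (Or.inr k)
          · exact Or.inl (Or.inl k)
          · exact Or.inl (Or.inr k)
        · rintro ((k | k) | k | k)
          · exact Or.inr (Or.inl k)
          · exact Or.inr (Or.inr k)
          · exact Or.inr (Or.inr k)
          · exact Or.inl k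
      · ext v
        simp only [Set.mem_inter_iff, Set.mem_insert_iff, Set.mem_singleton_iff]
        constructor
        · rintro ⟨rfl | rfl, h2 | h2⟩
          · exact h2
          · exact absurd h2 n1.symm
          · rfl
          · rfl
        · rintro rfl
          exact ⟨Or.inr rfl, Or.inl rfl⟩
      · intro x y
        have e : ¬ Adj (T \ tri j i w) x y := by
          have e' : T \ tri j i w = ∅ := by
            rw [Finset.sdiff_eq_empty_iff_subset]
            exact h0.subset
          rw [e']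
          rintro (⟨c, hc⟩ | ⟨c, hc⟩)
          · exact absurd hc (Finset.notMem_empty _)
          · exact absurd hc (Finset.notMem_empty _)
        exact prA (adj_iff hT h x y) e
    · -- (B1)
      right
      obtain ⟨l1, hl1⟩ := disc_list h1
      obtain ⟨m1, hm1⟩ := hl1.form h2
      have hm : m = m1 ++ [w] := by
        apply mform
        have := bdB1 hT h hb h3 h4 hm1
        have e : i :: ((m1 ++ [w]) ++ [j]) = i :: (m1 ++ [w, j]) := by simp
        rw [e]
        exact this
      obtain ⟨x0, hx0⟩ := h2.1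
      refine ⟨m1, [], {v | v ∈ verts (T \ tri j i w)}, {w, j}, _, _, hm, ?_, ?_, ?_,
        ih _ _ (by omega) h1 hm1, hd_edge n n3⟩
      · ext v
        rw [Set.mem_ofPred_eq, verts_iff hT h]
        simp only [Set.mem_union, Set.mem_ofPred_eq, Set.mem_insert_iff, Set.mem_singleton_iff]
        constructor
        · rintro (hv | rfl | rfl | rfl)
          · exact Or.inl hv
          · exact Or.inr (Or.inr rfl)
          · exact Or.inl (vert2 hT' hx0)
          · exact Or.inr (Or.inl rfl)
        · rintro (hv | rfl | rfl)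
          · exact Or.inl hv
          · exact Or.inr (Or.inr (Or.inr rfl))
          · exact Or.inr (Or.inl rfl)
      · ext v
        simp only [Set.mem_inter_iff, Set.mem_insert_iff, Set.mem_singleton_iff,
          Set.mem_ofPred_eq]
        constructor
        · rintro ⟨hv, rfl | rfl⟩
          · rfl
          · exact absurd hv h4
        · rintro rfl
          exact ⟨vert1 hx0, Or.inl rfl⟩
      · intro x y
        have e : (x = i ∧ y = w) ∨ (x = w ∧ y = i) → Adj (T \ tri j i w) x y := by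
          rintro (⟨rfl, rfl⟩ | ⟨rfl, rfl⟩)
          · exact Or.inr ⟨x0, hx0⟩
          · exact Or.inl ⟨x0, hx0⟩
        exact prB1 (adj_iff hT h x y) e
    · -- (B2)
      right
      obtain ⟨l1, hl1⟩ := disc_list h1
      obtain ⟨m2, hm2⟩ := hl1.form h2
      have hm : m = w :: m2 := by
        apply mform
        exact bdB2 hT h hb h3 h4 hm2
      obtain ⟨x0, hx0⟩ := h2.1
      refine ⟨[], m2, {i, w}, {v | v ∈ verts (T \ tri j i w)}, _, _, hm, ?_, ?_, ?_,
        hd_edge n n2, ih _ _ (by omega) h1 hm2⟩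
      · ext v
        rw [Set.mem_ofPred_eq, verts_iff hT h]
        simp only [Set.mem_union, Set.mem_ofPred_eq, Set.mem_insert_iff, Set.mem_singleton_iff]
        constructor
        · rintro (hv | rfl | rfl | rfl)
          · exact Or.inr hv
          · exact Or.inr (vert1 hx0)
          · exact Or.inl (Or.inl rfl)
          · exact Or.inl (Or.inr rfl)
        · rintro ((rfl | rfl) | hv)
          · exact Or.inr (Or.inr (Or.inl rfl))
          · exact Or.inr (Or.inr (Or.inr rfl))
          · exact Or.inl hv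
      · ext v
        simp only [Set.mem_inter_iff, Set.mem_insert_iff, Set.mem_singleton_iff,
          Set.mem_ofPred_eq]
        constructor
        · rintro ⟨rfl | rfl, hv⟩
          · exact absurd hv h4
          · rfl
        · rintro rfl
          exact ⟨Or.inr rfl, vert2 hT' hx0⟩
      · intro x y
        have e : (x = j ∧ y = w) ∨ (x = w ∧ y = j) → Adj (T \ tri j i w) x y := by
          rintro (⟨rfl, rfl⟩ | ⟨rfl, rfl⟩)
          · exact Or.inl ⟨x0, hx0⟩
          · exact Or.inr ⟨x0, hx0⟩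
        exact prB2 (adj_iff hT h x y) e
    · -- (C)
      left
      obtain ⟨l1, hl1⟩ := disc_list h1
      obtain ⟨m', hm'⟩ := hl1.form2 h2 h3 n1.symm
      have hm : m = m' := mform m' (bdC hT h hb hm')
      subst hm
      obtain ⟨x0, hx0⟩ := h2.1
      obtain ⟨y0, hy0⟩ := h3.1
      refine ⟨?_, ?_⟩
      · intro hw
        have hw' : w ∈ i :: (m ++ [j]) := hr.mem_iff.1 hw
        have hn := hm'.nodup
        have e : i :: (m ++ [j, w]) = (i :: (m ++ [j])) ++ [w] := by simp
        rw [e, List.nodup_append] at hn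
        exact hn.2.2 w hw' w (by simp) rfl
      · have e1 : {v | v ∈ verts T} = {v | v ∈ verts (T \ tri j i w)} := by
          ext v
          rw [Set.mem_ofPred_eq, Set.mem_ofPred_eq, verts_iff hT h]
          constructor
          · rintro (hv | rfl | rfl | rfl)
            · exact hv
            · exact vert1 hy0
            · exact vert2 hT' hx0
            · exact vert1 hx0
          · exact Or.inl
        have e2 : (fun x y => Adj T x y ∧ ¬ (x = i ∧ y = j) ∧ ¬ (x = j ∧ y = i)) =
            Adj (T \ tri j i w) := by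
          funext x y
          apply propext
          have k1 : (x = i ∧ y = w) ∨ (x = w ∧ y = i) → Adj (T \ tri j i w) x y := by
            rintro (⟨rfl, rfl⟩ | ⟨rfl, rfl⟩)
            · exact Or.inr ⟨x0, hx0⟩
            · exact Or.inl ⟨x0, hx0⟩
          have k2 : (x = j ∧ y = w) ∨ (x = w ∧ y = j) → Adj (T \ tri j i w) x y := by
            rintro (⟨rfl, rfl⟩ | ⟨rfl, rfl⟩)
            · exact Or.inl ⟨y0, hy0⟩
            · exact Or.inr ⟨y0, hy0⟩
          have k3 : (x = i ∧ y = j) ∨ (x = j ∧ y = i) → ¬ Adj (T \ tri j i w) x y := by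
            rintro (⟨rfl, rfl⟩ | ⟨rfl, rfl⟩)
            · rintro (k | k)
              · exact dir_no hb k
              · exact dir_gone hT h k
            · rintro (k | k)
              · exact dir_gone hT h k
              · exact dir_no hb k
          exact prC (adj_iff hT h x y) k1 k2 k3
        rw [e1, e2]
        exact ih _ _ (by omega) h1 hm'
    · -- (D)
      right
      have hXs : X.card ≤ 3 * n := by
        have : X.card ≤ (T \ tri j i w).card :=
          Finset.card_le_card (by rw [h1]; exact Finset.subset_union_left)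
        omega
      have hYs : Y.card ≤ 3 * n := by
        have : Y.card ≤ (T \ tri j i w).card :=
          Finset.card_le_card (by rw [h1]; exact Finset.subset_union_right)
        omega
      obtain ⟨l1, hl1⟩ := disc_list h3
      obtain ⟨l2, hl2⟩ := disc_list h4
      obtain ⟨m1, hm1⟩ := hl1.form h5
      obtain ⟨m2, hm2⟩ := hl2.form h6
      have hm : m = m1 ++ w :: m2 := by
        apply mform
        have := bdD hT h hb h1 h3.cx h4.cx h7 hm1 hm2
        have e : i :: ((m1 ++ w :: m2) ++ [j]) = i :: (m1 ++ w :: (m2 ++ [j])) := by simp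
        rw [e]
        exact this
      obtain ⟨x0, hx0⟩ := h5.1
      obtain ⟨y0, hy0⟩ := h6.1
      refine ⟨m1, m2, {v | v ∈ verts X}, {v | v ∈ verts Y}, _, _, hm, ?_, ?_, ?_,
        ih _ _ hXs h3 hm1, ih _ _ hYs h4 hm2⟩
      · ext v
        rw [Set.mem_ofPred_eq, verts_iff hT h, h1, verts_union, Finset.mem_union]
        simp only [Set.mem_union, Set.mem_ofPred_eq]
        constructor
        · rintro (hv | rfl | rfl | rfl)
          · exact hv
          · exact Or.inr (vert1 hy0)
          · exact Or.inl (vert2 h3.cx hx0)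
          · exact Or.inl (vert1 hx0)
        · exact Or.inl
      · ext v
        simp only [Set.mem_inter_iff, Set.mem_singleton_iff, Set.mem_ofPred_eq]
        rw [← Finset.mem_inter, h7, Finset.mem_singleton]
      · intro x y
        have e : Adj (T \ tri j i w) x y ↔ Adj X x y ∨ Adj Y x y := by
          rw [h1]
          constructor
          · rintro (⟨c, hc⟩ | ⟨c, hc⟩)
            · rcases Finset.mem_union.1 hc with hc | hc
              · exact Or.inl (Or.inl ⟨c, hc⟩)
              · exact Or.inr (Or.inl ⟨c, hc⟩)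
            · rcases Finset.mem_union.1 hc with hc | hc
              · exact Or.inl (Or.inr ⟨c, hc⟩)
              · exact Or.inr (Or.inr ⟨c, hc⟩)
          · rintro ((⟨c, hc⟩ | ⟨c, hc⟩) | (⟨c, hc⟩ | ⟨c, hc⟩))
            · exact Or.inl ⟨c, Finset.mem_union_left _ hc⟩
            · exact Or.inr ⟨c, Finset.mem_union_left _ hc⟩
            · exact Or.inl ⟨c, Finset.mem_union_right _ hc⟩
            · exact Or.inr ⟨c, Finset.mem_union_right _ hc⟩
        have k1 : (x = i ∧ y = w) ∨ (x = w ∧ y = i) → Adj X x y := by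
          rintro (⟨rfl, rfl⟩ | ⟨rfl, rfl⟩)
          · exact Or.inr ⟨x0, hx0⟩
          · exact Or.inl ⟨x0, hx0⟩
        have k2 : (x = j ∧ y = w) ∨ (x = w ∧ y = j) → Adj Y x y := by
          rintro (⟨rfl, rfl⟩ | ⟨rfl, rfl⟩)
          · exact Or.inl ⟨y0, hy0⟩
          · exact Or.inr ⟨y0, hy0⟩
        exact prD (adj_iff hT h x y) e k1 k2

theorem disc_HD (hD : Disc T) : ∃ n l, HD n {v | v ∈ verts T} (Adj T) l := by
  obtain ⟨l, hl⟩ := disc_list hD
  exact ⟨T.card, l, toHD _ T l (by omega) hD hl⟩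

end Pool.Agent.H13.DA
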