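import Pool.Agent.H13.DA.ColG
import Pool.Agent.H13.DA.ToHD
import Pool.Agent.H13.DA.RotD

/-!
# [H13 DA FIN] assembly
-/

set_option autoImplicit false

namespace Pool.Agent.H13.DA

open Relation SimpleGraph Pool.Agent.H29.Tor

theorem good_sphere {W : Type*} [DecidableEq W] {T : Finset (W × W × W)} (hT : IsCx T)
    (hc : Conn T) (hcl : Clos T) (h6 : chi T = 6) {o : W → W → ZMod 2} (ho : Ori o) :
    ∃ c : W → C4, Good (Adj T) o c := by
  have hne : T.Nonempty := by
    rw [Finset.nonempty_iff_ne_empty]
    rintro rfl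
    simp [chi, verts, edges] at h6
  obtain ⟨⟨a, b, c⟩, habc⟩ := hne
  obtain ⟨n, l, hl⟩ := disc_HD (clos_del hT hc hcl h6 habc)
  obtain ⟨c', hc'⟩ := good_of_HD ho hl
  exact ⟨c', good_mono (fun x y h => clos_adj hT hcl habc h) hc'⟩

theorem exists_ori (W : Type*) : ∃ o : W → W → ZMod 2, Ori o := by
  classical
  refine ⟨fun x y => if WellOrderingRel x y then 1 else 0, ?_⟩
  intro x y hxy
  rcases trichotomous_of WellOrderingRel x y with h | h | h
  · have h' : ¬ WellOrderingRel y x := fun h' => asymm_of WellOrderingRel h h'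
    simp [h, h']
  · exact absurd h hxy
  · have h' : ¬ WellOrderingRel x y := fun h' => asymm_of WellOrderingRel h h'
    simp [h, h']

theorem planar_good {V : Type*} [Finite V] (G : SimpleGraph V) (hG : IsPlanar G)
    (o : V → V → ZMod 2) (ho : Ori o) : ∃ c : V → C4, Good G.Adj o c := by
  classical
  obtain ⟨R, hR⟩ := hG
  obtain ⟨o', ho'⟩ := exists_ori (Wt R)
  let oW : Wt R → Wt R → ZMod 2 := fun x y =>
    match x, y with
    | Sum.inl u, Sum.inl v => o u v
    | _, _ => o' x y
  have hoW : Ori oW := by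
    intro x y hxy
    rcases x with u | x
    · rcases y with v | y
      · exact ho u v (fun h => hxy (by rw [h]))
      · exact ho' _ _ hxy
    · rcases y with v | y
      · exact ho' _ _ hxy
      · exact ho' _ _ hxy
  have hcx := rt_cx R
  have hcl := rt_clos R
  -- colourings of the components
  have hcol : ∀ d : G.Dart, ∃ c : Wt R → C4,
      Good (Adj (comp (RT R) (vx R d.fst, vx R d.snd, rx R (d, false)))) oW c := by
    intro d
    exact good_sphere (comp_isCx hcx _) (comp_conn hcx _) (comp_clos hcx hcl _)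
      (rt_spheres R hR _ (rt_edge R d)) hoW
  choose cd hcd using hcol
  let cK : G.ConnectedComponent → Wt R → C4 := fun K =>
    if h : ∃ d : G.Dart, G.connectedComponentMk d.fst = K then cd h.choose else fun _ => 0
  refine ⟨fun v => cK (G.connectedComponentMk v) (vx R v), ?_⟩
  intro δ u hu
  obtain ⟨u', hu', _⟩ := TransGen.head'_iff.1 hu
  have hex : ∃ d : G.Dart, G.connectedComponentMk d.fst = G.connectedComponentMk u :=
    ⟨⟨(u, u'), hu'.1⟩, rfl⟩
  have hcK : cK (G.connectedComponentMk u) = cd hex.choose := by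
    simp only [cK, dif_pos hex]
  have hd0 : G.connectedComponentMk hex.choose.fst = G.connectedComponentMk u := hex.choose_spec
  set d0 := hex.choose with hd0'
  have key : ∀ v, TransGen (fun x y => G.Adj x y ∧ o x y = 1 ∧
      cK (G.connectedComponentMk x) (vx R x) + cK (G.connectedComponentMk y) (vx R y) = δ) u v →
      G.connectedComponentMk v = G.connectedComponentMk u ∧
      TransGen (fun x y => Adj (comp (RT R) (vx R d0.fst, vx R d0.snd, rx R (d0, false))) x y ∧
        oW x y = 1 ∧ cd d0 x + cd d0 y = δ) (vx R u) (vx R v) := by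
    have step : ∀ x y, G.connectedComponentMk x = G.connectedComponentMk u →
        (G.Adj x y ∧ o x y = 1 ∧
          cK (G.connectedComponentMk x) (vx R x) + cK (G.connectedComponentMk y) (vx R y) = δ) →
        G.connectedComponentMk y = G.connectedComponentMk u ∧
        (Adj (comp (RT R) (vx R d0.fst, vx R d0.snd, rx R (d0, false))) (vx R x) (vx R y) ∧
          oW (vx R x) (vx R y) = 1 ∧ cd d0 (vx R x) + cd d0 (vx R y) = δ) := by
      rintro x y hx ⟨hxy, h1, h2⟩
      have hy : G.connectedComponentMk y = G.connectedComponentMk u := by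
        rw [← hx]
        exact (ConnectedComponent.connectedComponentMk_eq_of_adj hxy).symm
      refine ⟨hy, ?_, h1, ?_⟩
      · left
        refine ⟨rx R (⟨(x, y), hxy⟩, false), ?_⟩
        rw [mem_comp]
        refine ⟨rt_edge R ⟨(x, y), hxy⟩, ?_⟩
        exact rt_AA R d0 ⟨(x, y), hxy⟩ (ConnectedComponent.exact (hd0.trans hx.symm))
      · rw [hx, hy, hcK] at h2
        exact h2
    intro v hv
    induction hv with
    | single h =>
      obtain ⟨h1, h2⟩ := step _ _ rfl h
      exact ⟨h1, TransGen.single h2⟩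
    | tail _ h ih =>
      obtain ⟨h1, h2⟩ := step _ _ ih.1 h
      exact ⟨h1, ih.2.tail h2⟩
  exact hcd d0 δ _ (key u hu).2

end Pool.Agent.H13.DA
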