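import Pool.Agent.H13.DA.Comp
import Pool.Agent.H13.DA.Chi
import Pool.Agent.H29.Tor.Defs

/-!
# [H13 DA ROTA] the triangulated surface of a rotation system

`R` is a rotation system of the graph `G` (`Pool.Agent.H29.Tor.RotationSystem`). New vertices: two
ring vertices `(d, false)`, `(d, true)` for every dart `d` and one vertex for every face. The ring
of the face of `d` runs `(d, false) → (d, true) → (faceStep d, false) → ...` (`ps`).
For a dart `d = uv`, and a ring vertex `r` on the dart `r.1` with head `h = r.1.snd`: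
  `A d = (u, v, (d, false))`, `B r = (r, h, ps r)`, `C r = (r, ps r, face)`.
`RT R` is the set of all rotations of these triples, indexed by
`(G.Dart ⊕ (Rg G ⊕ Rg G)) × Fin 3` through `tm`.

Note `(faceStep d).fst = d.snd` (`fs_fst`): `faceStep d = next d.symm`; so `faceStep d ≠ d` and
`ps (ps r) ≠ r`, `ps r ≠ r`. The face of `faceStep d` is the face of `d`.

* `tm_inj`: the nine patterns (kinds of the three entries: V = vertex, D = ring vertex, F = face)
  are A: VVD, VDV, DVV; B: DVD, VDD, DDV; C: DDF, DFD, FDD, all different; in each pattern the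
  index can be read off from the entries (for C: the first ring vertex is `r`).
* `rt_cx`: rotations: `Fin 3` addition. `ne`: first two entries different. `uniq`: the first two entries determine
  the triple. Patterns of the first two entries:
   VV: only A, `(u,v,(d,false))`;
   VD: A rotated `(v, (d,false), u)` with `v = d.snd`, and B rotated `(h, ps r, r)`; `ps` is
       injective; a clash `ps r = (d,false)`, `r = (d', true)`, `faceStep d' = d`,
       `r.1.snd = d'.snd = d.fst ≠ d.snd`;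
   DV: A rotated `((d,false), u, v)` and B `(r, h, ps r)`: clash `r = (d,false)`, `d.snd = d.fst`;
   DD: B rotated `(ps r, r, h)` and C `(r, ps r, f)`: clash `ps (ps r) = r`;
   DF: C rotated `(ps r, f, r)`; FD: C rotated `(f, r, ps r)`.
* `rt_clos`: VV: `A d.symm`. `(v, (d,false), u)`, `v = d.snd`: B of `(d,false)`.
  `((d,false), u, v)`: `u = d.fst`: B rotated of `r = (faceStep⁻¹ d, true)`. B `(r, h, ps r)` with
  `r = (d,false)`: the A above, with `r = (d,true)`: B rotated `(h, ps r', r')` for `r' = (d,false)`.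
  `(h, ps r, r)`: `ps r = (d,true)` (`r = (d, false)`): B of `(d,true)`; `ps r = (faceStep d, false)`:
  A rotated of `faceStep d`. `(ps r, r, h)`: `C r`. `C r`: `(r, ps r, f)`: B rotated.
  `(ps r, f, r)`: C rotated of `ps r`: `(f, ps r, ps (ps r))`. `(f, r, ps r)`: C rotated of
  `ps⁻¹ r`.
-/

set_option autoImplicit false

namespace Pool.Agent.H13.DA

open Relation SimpleGraph Pool.Agent.H29.Tor

variable {V : Type*} {G : SimpleGraph V}

/-- the faces -/
abbrev Fc (R : RotationSystem G) := Quotient (Equiv.Perm.SameCycle.setoid R.faceStep)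

/-- the ring vertices -/
abbrev Rg (G : SimpleGraph V) := G.Dart × Bool

/-- successor along the ring of a face -/
def ps (R : RotationSystem G) (r : Rg G) : Rg G :=
  if r.2 = true then (R.faceStep r.1, false) else (r.1, true)

/-- the vertices of the triangulation -/
abbrev Wt (R : RotationSystem G) := V ⊕ (Rg G ⊕ Fc R)

/-- the vertex `v` -/
def vx (R : RotationSystem G) (v : V) : Wt R := Sum.inl v

/-- the ring vertex `r` -/
def rx (R : RotationSystem G) (r : Rg G) : Wt R := Sum.inr (Sum.inl r)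

/-- the face of the dart `d` -/
def fx (R : RotationSystem G) (d : G.Dart) : Wt R :=
  Sum.inr (Sum.inr (Quotient.mk (Equiv.Perm.SameCycle.setoid R.faceStep) d))

/-- the triangles -/
def base (R : RotationSystem G) : G.Dart ⊕ (Rg G ⊕ Rg G) → Wt R × Wt R × Wt R
  | Sum.inl d => (vx R d.fst, vx R d.snd, rx R (d, false))
  | Sum.inr (Sum.inl r) => (rx R r, vx R r.1.snd, rx R (ps R r))
  | Sum.inr (Sum.inr r) => (rx R r, rx R (ps R r), fx R r.1)

/-- rotation of a triple by `k` places -/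
def rotk {α : Type*} (k : Fin 3) (t : α × α × α) : α × α × α :=
  if k = 0 then t else if k = 1 then (t.2.1, t.2.2, t.1) else (t.2.2, t.1, t.2.1)

/-- all triples -/
def tm (R : RotationSystem G) (x : (G.Dart ⊕ (Rg G ⊕ Rg G)) × Fin 3) : Wt R × Wt R × Wt R :=
  rotk x.2 (base R x.1)

instance dartFinite [Finite V] : Finite G.Dart :=
  Finite.of_injective (fun d : G.Dart => d.toProd) (SimpleGraph.Dart.toProd_injective)

open Classical in
/-- the triangulated surface -/
noncomputable def RT [Finite V] (R : RotationSystem G) : Finset (Wt R × Wt R × Wt R) :=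
  (Set.toFinite (Set.range (tm R))).toFinset

theorem mem_RT [Finite V] (R : RotationSystem G) {s : Wt R × Wt R × Wt R} :
    s ∈ RT R ↔ ∃ x, tm R x = s := by
  rw [RT, Set.Finite.mem_toFinset, Set.mem_range]

theorem fs_fst (R : RotationSystem G) (d : G.Dart) : (R.faceStep d).fst = d.snd := by
  change (R.next d.symm).fst = d.snd
  rw [R.fst_next]
  rfl

theorem fs_ne (R : RotationSystem G) (d : G.Dart) : R.faceStep d ≠ d := by
  intro h
  have h1 := fs_fst R d
  rw [h] at h1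
  exact d.adj.ne h1

theorem fx_fs (R : RotationSystem G) (d : G.Dart) : fx R (R.faceStep d) = fx R d := by
  unfold fx
  congr 2
  apply Quotient.sound
  exact (Equiv.Perm.sameCycle_apply_left).2 (Equiv.Perm.SameCycle.refl _ _)

theorem ps_inj (R : RotationSystem G) : Function.Injective (ps R) := by
  rintro ⟨d, b⟩ ⟨d', b'⟩ h
  cases b <;> cases b' <;> simp_all [ps]

theorem ps_surj (R : RotationSystem G) : Function.Surjective (ps R) := by
  rintro ⟨d, b⟩
  cases b
  · exact ⟨(R.faceStep.symm d, true), by simp [ps]⟩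
  · exact ⟨(d, false), by simp [ps]⟩

theorem ps_ne (R : RotationSystem G) (r : Rg G) : ps R r ≠ r := by
  obtain ⟨d, b⟩ := r
  cases b <;> simp [ps]

theorem ps2_ne (R : RotationSystem G) (r : Rg G) : ps R (ps R r) ≠ r := by
  obtain ⟨d, b⟩ := r
  have := fs_ne R d
  cases b <;> simp [ps, this]

theorem vx_iff (R : RotationSystem G) (a b : V) : vx R a = vx R b ↔ a = b := by
  simp [vx]

theorem rx_iff (R : RotationSystem G) (a b : Rg G) : rx R a = rx R b ↔ a = b := by
  simp [rx]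

theorem vx_rx (R : RotationSystem G) (a : V) (b : Rg G) : vx R a = rx R b ↔ False := by
  simp [vx, rx]

theorem rx_vx (R : RotationSystem G) (a : V) (b : Rg G) : rx R b = vx R a ↔ False := by
  simp [vx, rx]

theorem vx_fx (R : RotationSystem G) (a : V) (b : G.Dart) : vx R a = fx R b ↔ False := by
  simp [vx, fx]

theorem fx_vx (R : RotationSystem G) (a : V) (b : G.Dart) : fx R b = vx R a ↔ False := by
  simp [vx, fx]

theorem rx_fx (R : RotationSystem G) (a : Rg G) (b : G.Dart) : rx R a = fx R b ↔ False := by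
  simp [rx, fx]

theorem fx_rx (R : RotationSystem G) (a : Rg G) (b : G.Dart) : fx R b = rx R a ↔ False := by
  simp [rx, fx]

/-- the nine patterns -/
inductive Pat (R : RotationSystem G) : Wt R → Wt R → Wt R → Prop
  | a0 (d : G.Dart) : Pat R (vx R d.fst) (vx R d.snd) (rx R (d, false))
  | a1 (d : G.Dart) : Pat R (vx R d.snd) (rx R (d, false)) (vx R d.fst)
  | a2 (d : G.Dart) : Pat R (rx R (d, false)) (vx R d.fst) (vx R d.snd)
  | b0 (r : Rg G) : Pat R (rx R r) (vx R r.1.snd) (rx R (ps R r))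
  | b1 (r : Rg G) : Pat R (vx R r.1.snd) (rx R (ps R r)) (rx R r)
  | b2 (r : Rg G) : Pat R (rx R (ps R r)) (rx R r) (vx R r.1.snd)
  | c0 (r : Rg G) : Pat R (rx R r) (rx R (ps R r)) (fx R r.1)
  | c1 (r : Rg G) : Pat R (rx R (ps R r)) (fx R r.1) (rx R r)
  | c2 (r : Rg G) : Pat R (fx R r.1) (rx R r) (rx R (ps R r))

theorem tm_inj (R : RotationSystem G) : Function.Injective (tm R) := by
  rintro ⟨x, k⟩ ⟨y, l⟩ h
  rcases x with d | r | r <;> rcases y with d' | r' | r' <;> fin_cases k <;> fin_cases l <;>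
    simp [tm, rotk, base, vx_iff, rx_iff, vx_rx, rx_vx, vx_fx, fx_vx, rx_fx, fx_rx] at h ⊢ <;>
    tauto

theorem pat_iff [Finite V] (R : RotationSystem G) {a b c : Wt R} :
    (a, b, c) ∈ RT R ↔ Pat R a b c := by
  rw [mem_RT]
  constructor
  · rintro ⟨⟨x, k⟩, h⟩
    rcases x with d | r | r <;> fin_cases k <;> simp [tm, rotk, base] at h <;>
      obtain ⟨rfl, rfl, rfl⟩ := h
    · exact Pat.a0 d
    · exact Pat.a1 d
    · exact Pat.a2 d
    · exact Pat.b0 r
    · exact Pat.b1 r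
    · exact Pat.b2 r
    · exact Pat.c0 r
    · exact Pat.c1 r
    · exact Pat.c2 r
  · intro h
    cases h with
    | a0 d => exact ⟨(Sum.inl d, 0), rfl⟩
    | a1 d => exact ⟨(Sum.inl d, 1), rfl⟩
    | a2 d => exact ⟨(Sum.inl d, 2), rfl⟩
    | b0 r => exact ⟨(Sum.inr (Sum.inl r), 0), rfl⟩
    | b1 r => exact ⟨(Sum.inr (Sum.inl r), 1), rfl⟩
    | b2 r => exact ⟨(Sum.inr (Sum.inl r), 2), rfl⟩
    | c0 r => exact ⟨(Sum.inr (Sum.inr r), 0), rfl⟩
    | c1 r => exact ⟨(Sum.inr (Sum.inr r), 1), rfl⟩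
    | c2 r => exact ⟨(Sum.inr (Sum.inr r), 2), rfl⟩

theorem dart_eq {d d' : G.Dart} (h1 : d.fst = d'.fst) (h2 : d.snd = d'.snd) : d = d' :=
  SimpleGraph.Dart.ext _ _ (Prod.ext h1 h2)

theorem ps_false_ne (R : RotationSystem G) (r : Rg G) (d : G.Dart) (h : ps R r = (d, false))
    (h2 : r.1.snd = d.snd) : False := by
  obtain ⟨d', b⟩ := r
  cases b
  · simp [ps] at h
  · simp [ps] at h
    have h3 := fs_fst R d'
    rw [h] at h3
    exact d.adj.ne (h3.trans h2)

theorem pat_inv (R : RotationSystem G) {a b c : Wt R} (h : Pat R a b c) :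
    (∃ d : G.Dart, a = vx R d.fst ∧ b = vx R d.snd ∧ c = rx R (d, false)) ∨
    (∃ d : G.Dart, a = vx R d.snd ∧ b = rx R (d, false) ∧ c = vx R d.fst) ∨
    (∃ d : G.Dart, a = rx R (d, false) ∧ b = vx R d.fst ∧ c = vx R d.snd) ∨
    (∃ r : Rg G, a = rx R r ∧ b = vx R r.1.snd ∧ c = rx R (ps R r)) ∨
    (∃ r : Rg G, a = vx R r.1.snd ∧ b = rx R (ps R r) ∧ c = rx R r) ∨
    (∃ r : Rg G, a = rx R (ps R r) ∧ b = rx R r ∧ c = vx R r.1.snd) ∨
    (∃ r : Rg G, a = rx R r ∧ b = rx R (ps R r) ∧ c = fx R r.1) ∨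
    (∃ r : Rg G, a = rx R (ps R r) ∧ b = fx R r.1 ∧ c = rx R r) ∨
    (∃ r : Rg G, a = fx R r.1 ∧ b = rx R r ∧ c = rx R (ps R r)) := by
  cases h with
  | a0 d => exact Or.inl ⟨d, rfl, rfl, rfl⟩
  | a1 d => exact Or.inr (Or.inl ⟨d, rfl, rfl, rfl⟩)
  | a2 d => exact Or.inr (Or.inr (Or.inl ⟨d, rfl, rfl, rfl⟩))
  | b0 r => exact Or.inr (Or.inr (Or.inr (Or.inl ⟨r, rfl, rfl, rfl⟩)))
  | b1 r => exact Or.inr (Or.inr (Or.inr (Or.inr (Or.inl ⟨r, rfl, rfl, rfl⟩))))
  | b2 r => exact Or.inr (Or.inr (Or.inr (Or.inr (Or.inr (Or.inl ⟨r, rfl, rfl, rfl⟩)))))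
  | c0 r => exact Or.inr (Or.inr (Or.inr (Or.inr (Or.inr (Or.inr (Or.inl ⟨r, rfl, rfl, rfl⟩))))))
  | c1 r =>
    exact Or.inr (Or.inr (Or.inr (Or.inr (Or.inr (Or.inr (Or.inr (Or.inl ⟨r, rfl, rfl, rfl⟩)))))))
  | c2 r =>
    exact Or.inr (Or.inr (Or.inr (Or.inr (Or.inr (Or.inr (Or.inr (Or.inr ⟨r, rfl, rfl, rfl⟩)))))))

theorem pat_uniq (R : RotationSystem G) {a b c d : Wt R} (h : Pat R a b c) (h' : Pat R a b d) :
    c = d := by
  have hps := ps_inj R
  rcases pat_inv R h with ⟨x, rfl, rfl, rfl⟩ | ⟨x, rfl, rfl, rfl⟩ | ⟨x, rfl, rfl, rfl⟩ |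
    ⟨x, rfl, rfl, rfl⟩ | ⟨x, rfl, rfl, rfl⟩ | ⟨x, rfl, rfl, rfl⟩ | ⟨x, rfl, rfl, rfl⟩ |
    ⟨x, rfl, rfl, rfl⟩ | ⟨x, rfl, rfl, rfl⟩ <;>
  rcases pat_inv R h' with ⟨y, e1, e2, rfl⟩ | ⟨y, e1, e2, rfl⟩ | ⟨y, e1, e2, rfl⟩ |
    ⟨y, e1, e2, rfl⟩ | ⟨y, e1, e2, rfl⟩ | ⟨y, e1, e2, rfl⟩ | ⟨y, e1, e2, rfl⟩ |
    ⟨y, e1, e2, rfl⟩ | ⟨y, e1, e2, rfl⟩ <;>
  simp only [vx_iff, rx_iff, vx_rx, rx_vx, vx_fx, fx_vx, rx_fx, fx_rx] at e1 e2 <;>
  first
  | (rw [dart_eq e1 e2])
  | (subst e1; rfl)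
  | (subst e2; rfl)
  | (have e3 := (Prod.mk.inj e2).1; subst e3; rfl)
  | (have e3 := (Prod.mk.inj e1).1; subst e3; rfl)
  | (have e3 := hps e2; subst e3; rfl)
  | (have e3 := hps e1; subst e3; rfl)
  | (exact (ps_false_ne R y x e2.symm e1.symm).elim)
  | (exact (ps_false_ne R x y e2 e1).elim)
  | (subst e1; exact (x.adj.ne e2).elim)
  | (subst e1; exact (y.adj.ne e2.symm).elim)
  | (subst e1; exact (ps2_ne R _ e2.symm).elim)
  | (subst e1; exact (ps2_ne R _ e2).elim)

theorem rt_cx [Finite V] (R : RotationSystem G) : IsCx (RT R) where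
  rot := by
    intro a b c h
    rw [pat_iff] at h ⊢
    cases h with
    | a0 d => exact Pat.a1 d
    | a1 d => exact Pat.a2 d
    | a2 d => exact Pat.a0 d
    | b0 r => exact Pat.b1 r
    | b1 r => exact Pat.b2 r
    | b2 r => exact Pat.b0 r
    | c0 r => exact Pat.c1 r
    | c1 r => exact Pat.c2 r
    | c2 r => exact Pat.c0 r
  ne := by
    intro a b c h
    rw [pat_iff] at h
    cases h with
    | a0 d => rw [Ne, vx_iff]; exact d.adj.ne
    | a1 d => simp [vx_rx]
    | a2 d => simp [rx_vx]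
    | b0 r => simp [rx_vx]
    | b1 r => simp [vx_rx]
    | b2 r => rw [Ne, rx_iff]; exact ps_ne R r
    | c0 r => rw [Ne, rx_iff]; exact (ps_ne R r).symm
    | c1 r => simp [rx_fx]
    | c2 r => simp [fx_rx]
  uniq := by
    intro a b c d h h'
    rw [pat_iff] at h h'
    exact pat_uniq R h h'

theorem rt_clos [Finite V] (R : RotationSystem G) : Clos (RT R) := by
  intro a b c h
  rw [pat_iff] at h
  simp only [pat_iff]
  cases h with
  | a0 d => exact ⟨_, Pat.a0 d.symm⟩
  | a1 d => exact ⟨_, Pat.b0 (d, false)⟩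
  | a2 d =>
    refine ⟨rx R (R.faceStep.symm d, true), ?_⟩
    have h := Pat.b1 (R := R) (R.faceStep.symm d, true)
    have h2 := fs_fst R (R.faceStep.symm d)
    simp only [Equiv.apply_symm_apply] at h2
    simpa [ps, ← h2] using h
  | b0 r =>
    obtain ⟨d, b⟩ := r
    cases b
    · exact ⟨_, Pat.a1 d⟩
    · exact ⟨_, by simpa [ps] using Pat.b1 (R := R) (d, false)⟩
  | b1 r =>
    obtain ⟨d, b⟩ := r
    cases b
    · exact ⟨_, by simpa [ps] using Pat.b0 (R := R) (d, true)⟩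
    · exact ⟨_, by simpa [ps, fs_fst] using Pat.a2 (R := R) (R.faceStep d)⟩
  | b2 r => exact ⟨_, Pat.c0 r⟩
  | c0 r => exact ⟨_, Pat.b2 r⟩
  | c1 r =>
    have h : fx R (ps R r).1 = fx R r.1 := by
      obtain ⟨d, b⟩ := r
      cases b
      · rfl
      · exact fx_fs R d
    rw [← h]
    exact ⟨_, Pat.c2 (ps R r)⟩
  | c2 r =>
    obtain ⟨r', rfl⟩ := ps_surj R r
    have h : fx R (ps R r').1 = fx R r'.1 := by
      obtain ⟨d, b⟩ := r'
      cases b
      · rfl
      · exact fx_fs R d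
    rw [h]
    exact ⟨_, Pat.c1 r'⟩

end Pool.Agent.H13.DA
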