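import Pool.Agent.H13.DA.RotA

/-!
# [H13 DA ROTB] Euler characteristic of the triangulated surface of a rotation system

* `card_dart`: `Nat.card G.Dart = 2 * Nat.card G.edgeSet`
  (`SimpleGraph.dart_card_eq_twice_card_edges` with `Fintype` instances from `Fintype.ofFinite` and
  classical decidability; `Nat.card_eq_fintype_card`, `SimpleGraph.edgeFinset_card`).
* `rt_card`: `tm R` is injective (`tm_inj`) and the index type has `(D + (2 D + 2 D)) * 3 = 15 D`
  elements, `D = Nat.card G.Dart`.
* `rt_verts`: the vertices of `RT R` are `vx v` for `v` not isolated (the first entries of the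
  rotations of `A d`, `B r` are `vx d.fst`, `vx d.snd`, ...), all `rx r` (`C r`) and all `fx d`
  (rotation of `C (d, false)`); `rx`, `vx` injective and every element of `Fc R` is some `fx d`.
  So the number is `|nonisolated| + 2 D + |Fc R|`.
* `rt_chi`: `clos_card`: `T.card = 2 * (edges T).card`, so `edges = 15 |E|` and
  `chi = 3 (n' + 4 |E| + F) - 45 |E| + 30 |E|`.
-/

set_option autoImplicit false

namespace Pool.Agent.H13.DA

open Relation SimpleGraph Pool.Agent.H29.Tor

variable {V : Type*} {G : SimpleGraph V}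

theorem card_dart [Finite V] : Nat.card G.Dart = 2 * Nat.card G.edgeSet := by
  classical
  have : Fintype V := Fintype.ofFinite V
  have h := G.dart_card_eq_twice_card_edges
  rw [Nat.card_eq_fintype_card, h, SimpleGraph.edgeFinset_card, Nat.card_eq_fintype_card]

theorem rt_card [Finite V] (R : RotationSystem G) :
    (RT R).card = 30 * Nat.card G.edgeSet := by
  classical
  have h1 : (RT R).card = Nat.card ((G.Dart ⊕ (Rg G ⊕ Rg G)) × Fin 3) := by
    rw [RT, ← Set.ncard_eq_toFinset_card, ← Set.image_univ,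
      Set.ncard_image_of_injective _ (tm_inj R), Set.ncard_univ]
  rw [h1, Nat.card_prod, Nat.card_sum, Nat.card_sum, Nat.card_prod]
  simp only [Nat.card_eq_fintype_card (α := Bool), Nat.card_eq_fintype_card (α := Fin 3),
    Fintype.card_bool, Fintype.card_fin]
  rw [card_dart]
  ring

theorem rt_verts [Finite V] (R : RotationSystem G) :
    (verts (RT R)).card =
      Nat.card {v : V // ∃ w, G.Adj v w} + 4 * Nat.card G.edgeSet + Nat.card (Fc R) := by
  classical
  let f : {v : V // ∃ w, G.Adj v w} ⊕ (Rg G ⊕ Fc R) → Wt R := Sum.map Subtype.val id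
  have hf : Function.Injective f :=
    Sum.map_injective.2 ⟨Subtype.val_injective, Function.injective_id⟩
  have h1 : (verts (RT R) : Set (Wt R)) = Set.range f := by
    ext w
    rw [Finset.mem_coe, mem_verts]
    simp only [pat_iff, Set.mem_range]
    constructor
    · rintro ⟨b, c, h⟩
      cases h with
      | a0 d => exact ⟨Sum.inl ⟨d.fst, d.snd, d.adj⟩, rfl⟩
      | a1 d => exact ⟨Sum.inl ⟨d.snd, d.fst, d.adj.symm⟩, rfl⟩
      | a2 d => exact ⟨Sum.inr (Sum.inl _), rfl⟩
      | b0 r => exact ⟨Sum.inr (Sum.inl _), rfl⟩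
      | b1 r => exact ⟨Sum.inl ⟨r.1.snd, r.1.fst, r.1.adj.symm⟩, rfl⟩
      | b2 r => exact ⟨Sum.inr (Sum.inl _), rfl⟩
      | c0 r => exact ⟨Sum.inr (Sum.inl _), rfl⟩
      | c1 r => exact ⟨Sum.inr (Sum.inl _), rfl⟩
      | c2 r => exact ⟨Sum.inr (Sum.inr _), rfl⟩
    · rintro ⟨x, rfl⟩
      rcases x with ⟨v, w, h⟩ | r | q
      · exact ⟨_, _, Pat.a0 (⟨(v, w), h⟩ : G.Dart)⟩
      · exact ⟨_, _, Pat.c0 r⟩
      · induction q using Quotient.inductionOn with
        | _ d => exact ⟨_, _, Pat.c2 (d, false)⟩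
  have h2 : (verts (RT R)).card = Nat.card ({v : V // ∃ w, G.Adj v w} ⊕ (Rg G ⊕ Fc R)) := by
    rw [← Set.ncard_coe_finset, h1, ← Set.image_univ, Set.ncard_image_of_injective _ hf,
      Set.ncard_univ]
  rw [h2, Nat.card_sum, Nat.card_sum, Nat.card_prod]
  simp only [Nat.card_eq_fintype_card (α := Bool), Fintype.card_bool]
  rw [card_dart]
  ring

theorem rt_chi [Finite V] (R : RotationSystem G) :
    chi (RT R) = 3 * ((Nat.card {v : V // ∃ w, G.Adj v w} : ℤ) - Nat.card G.edgeSet +
      Nat.card (Fc R)) := by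
  have h1 := clos_card (rt_cx R) (rt_clos R)
  have h2 := rt_card R
  have h3 := rt_verts R
  unfold chi
  have h4 : (edges (RT R)).card = 15 * Nat.card G.edgeSet := by omega
  rw [h2, h3, h4]
  push_cast
  ring

end Pool.Agent.H13.DA
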